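import Pool.Agent.HpE.Flat

/-!
# Concave chains in a link: valleys and meetings
-/

namespace Pool.Agent.HpE

open Finset Classical

variable {ι : Type*} {Q : Finset ι} {W : ι → ℝ × ℝ} {Z : ι → ℝ} {T : ι → ι → Prop}

theorem q1 {a b c d : ℝ × ℝ} (hbd : 0 < dd b d)
    (h : 0 ≤ dd a b * dd c d + dd a d * dd b c) : 0 ≤ dd a c := by
  have h1 := pluck a b c d
  have h2 : 0 ≤ dd a c * dd b d := by linarith
  exact nonneg_of_mul_nonneg_left h2 hbd

theorem q1' {a b c d : ℝ × ℝ} (hbd : 0 < dd b d)
    (h : 0 < dd a b * dd c d + dd a d * dd b c) : 0 < dd a c := by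
  have h1 := pluck a b c d
  have h2 : 0 < dd a c * dd b d := by linarith
  exact pos_of_mul_pos_left h2 hbd.le

theorem q2 {a b c d : ℝ × ℝ} (hac : 0 < dd a c)
    (h : 0 ≤ dd a b * dd c d + dd a d * dd b c) : 0 ≤ dd b d := by
  have h1 := pluck a b c d
  have h2 : 0 ≤ dd a c * dd b d := by linarith
  exact nonneg_of_mul_nonneg_right h2 hac

theorem q2' {a b c d : ℝ × ℝ} (hac : 0 < dd a c)
    (h : 0 < dd a b * dd c d + dd a d * dd b c) : 0 < dd b d := by
  have h1 := pluck a b c d
  have h2 : 0 < dd a c * dd b d := by linarith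
  exact pos_of_mul_pos_right h2 hac.le

/-- the direction in which a descending arc crosses the equator -/
def cf (W : ι → ℝ × ℝ) (Z : ι → ℝ) (g : ι × ι) : ℝ × ℝ :=
  (Z g.1 * (W g.2).1 - Z g.2 * (W g.1).1, Z g.1 * (W g.2).2 - Z g.2 * (W g.1).2)

/-- the direction in which an ascending arc crosses the equator -/
def ce (W : ι → ℝ × ℝ) (Z : ι → ℝ) (g : ι × ι) : ℝ × ℝ :=
  (Z g.2 * (W g.1).1 - Z g.1 * (W g.2).1, Z g.2 * (W g.1).2 - Z g.1 * (W g.2).2)

/-- a descending arc -/
def Down (Z : ι → ℝ) (g : ι × ι) : Prop := 0 < Z g.1 ∧ Z g.2 < 0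

/-- an ascending arc -/
def Up (Z : ι → ℝ) (g : ι × ι) : Prop := Z g.1 < 0 ∧ 0 < Z g.2

theorem La_cf (g : ι × ι) (h : ℝ × ℝ) :
    La W Z g h = -dd (cf W Z g) h / dd (W g.1) (W g.2) := by
  unfold La cf
  congr 1
  unfold dd
  ring

theorem La_ce (g : ι × ι) (h : ℝ × ℝ) :
    La W Z g h = -dd h (ce W Z g) / dd (W g.1) (W g.2) := by
  unfold La ce
  congr 1
  unfold dd
  ring

theorem La_cf_neg {g : ι × ι} (hg : 0 < dd (W g.1) (W g.2)) {h : ℝ × ℝ}
    (hh : 0 < dd (cf W Z g) h) : La W Z g h < 0 := by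
  rw [La_cf]
  exact div_neg_of_neg_of_pos (neg_lt_zero.2 hh) hg

theorem La_ce_neg {g : ι × ι} (hg : 0 < dd (W g.1) (W g.2)) {h : ℝ × ℝ}
    (hh : 0 < dd h (ce W Z g)) : La W Z g h < 0 := by
  rw [La_ce]
  exact div_neg_of_neg_of_pos (neg_lt_zero.2 hh) hg

theorem La_cf_self (g : ι × ι) : La W Z g (cf W Z g) = 0 := by
  rw [La_cf, dd_self]
  simp

theorem La_ce_self (g : ι × ι) : La W Z g (ce W Z g) = 0 := by
  rw [La_ce, dd_self]
  simp

theorem dd_left_cf (g : ι × ι) : dd (W g.1) (cf W Z g) = Z g.1 * dd (W g.1) (W g.2) := by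
  unfold cf dd
  ring

theorem dd_cf_right (g : ι × ι) : dd (cf W Z g) (W g.2) = -Z g.2 * dd (W g.1) (W g.2) := by
  unfold cf dd
  ring

theorem dd_left_ce (g : ι × ι) : dd (W g.1) (ce W Z g) = -Z g.1 * dd (W g.1) (W g.2) := by
  unfold ce dd
  ring

theorem dd_ce_right (g : ι × ι) : dd (ce W Z g) (W g.2) = Z g.2 * dd (W g.1) (W g.2) := by
  unfold ce dd
  ring

/-- the arcs reached from `f` by forward concave steps inside the valley of `f` -/
inductive Fwd (Q : Finset ι) (W : ι → ℝ × ℝ) (Z : ι → ℝ) (T : ι → ι → Prop) (f : ι × ι) :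
    ι × ι → Prop
  | refl : Fwd Q W Z T f f
  | step {g g' : ι × ι} : Fwd Q W Z T f g → Nx Q W Z T g g' → 0 < dd (cf W Z f) (W g'.1) →
      Z g'.1 < 0 → Fwd Q W Z T f g'

/-- the arcs reached from `e` by backward concave steps inside the valley of `e` -/
inductive Bwd (Q : Finset ι) (W : ι → ℝ × ℝ) (Z : ι → ℝ) (T : ι → ι → Prop) (e : ι × ι) :
    ι × ι → Prop
  | refl : Bwd Q W Z T e e
  | step {k k' : ι × ι} : Bwd Q W Z T e k → Nx Q W Z T k' k → 0 < dd (W k'.2) (ce W Z e) →
      Z k'.2 < 0 → Bwd Q W Z T e k'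

theorem Fwd.arc {f g : ι × ι} (hf : Arc Q W T f) (h : Fwd Q W Z T f g) : Arc Q W T g := by
  cases h with
  | refl => exact hf
  | step _ h2 _ _ => exact h2.a2

theorem Bwd.arc {f g : ι × ι} (hf : Arc Q W T f) (h : Bwd Q W Z T f g) : Arc Q W T g := by
  cases h with
  | refl => exact hf
  | step _ h2 _ _ => exact h2.a1

theorem Fwd.info {f g : ι × ι} (h : Fwd Q W Z T f g) :
    g = f ∨ (0 < dd (cf W Z f) (W g.1) ∧ Z g.1 < 0) := by
  cases h with
  | refl => exact Or.inl rfl
  | step _ _ h3 h4 => exact Or.inr ⟨h3, h4⟩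

theorem Bwd.info {f g : ι × ι} (h : Bwd Q W Z T f g) :
    g = f ∨ (0 < dd (W g.2) (ce W Z f) ∧ Z g.2 < 0) := by
  cases h with
  | refl => exact Or.inl rfl
  | step _ _ h3 h4 => exact Or.inr ⟨h3, h4⟩

theorem Fwd.valley {f g : ι × ι} (h : Fwd Q W Z T f g) :
    ∀ v, 0 < dd (cf W Z f) v → (g = f ∨ 0 ≤ dd (W g.1) v) → La W Z g v ≤ La W Z f v := by
  induction h with
  | refl => intro v _ _; exact le_rfl
  | @step g g' h1 h2 h3 h4 ih =>
    intro v hv hgv
    rcases hgv with hgv | hgv
    · rw [hgv]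
    · rw [h2.eq] at hgv h3
      refine ((La_le h2 v).1 hgv).trans (ih v hv ?_)
      rcases h1.info with h5 | ⟨h5, _⟩
      · exact Or.inl h5
      · right
        have h6 := h2.a1.pos
        have h7 : 0 ≤ dd (cf W Z f) (W g.1) * dd (W g.2) v +
            dd (cf W Z f) v * dd (W g.1) (W g.2) := by positivity
        exact q2 h3 h7

theorem Bwd.valley {e k : ι × ι} (h : Bwd Q W Z T e k) :
    ∀ v, 0 < dd v (ce W Z e) → (k = e ∨ 0 ≤ dd v (W k.2)) → La W Z k v ≤ La W Z e v := by
  induction h with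
  | refl => intro v _ _; exact le_rfl
  | @step k k' h1 h2 h3 h4 ih =>
    intro v hv hgv
    rcases hgv with hgv | hgv
    · rw [hgv]
    · have h8 : dd (W k'.2) v ≤ 0 := by
        rw [dd_swap]
        linarith
      refine ((La_le h2 v).2 h8).trans (ih v hv ?_)
      rcases h1.info with h5 | ⟨h5, _⟩
      · exact Or.inl h5
      · right
        rw [← h2.eq] at hgv h3
        have h6 := h2.a2.pos
        have h7 : 0 ≤ dd v (W k.1) * dd (W k.2) (ce W Z e) +
            dd v (ce W Z e) * dd (W k.1) (W k.2) := by positivity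
        exact q1 h3 h7

theorem Fwd.neg {f g : ι × ι} (hf : Arc Q W T f) (h : Fwd Q W Z T f g) {v : ℝ × ℝ}
    (hv : 0 < dd (cf W Z f) v) (hgv : g = f ∨ 0 ≤ dd (W g.1) v) : La W Z g v < 0 :=
  (h.valley v hv hgv).trans_lt (La_cf_neg hf.pos hv)

theorem Bwd.neg {e k : ι × ι} (he : Arc Q W T e) (h : Bwd Q W Z T e k) {v : ℝ × ℝ}
    (hv : 0 < dd v (ce W Z e)) (hgv : k = e ∨ 0 ≤ dd v (W k.2)) : La W Z k v < 0 :=
  (h.valley v hv hgv).trans_lt (La_ce_neg he.pos hv)

theorem Fwd.unique (hS : Sys Q W Z T) {f f' g : ι × ι} (hf : Down Z f) (hf' : Down Z f')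
    (h : Fwd Q W Z T f g) : Fwd Q W Z T f' g → f = f' := by
  induction h with
  | refl =>
    intro h'
    cases h' with
    | refl => rfl
    | step _ _ _ h4 => exact absurd h4 (not_lt.2 hf.1.le)
  | @step g g' h1 h2 h3 h4 ih =>
    intro h'
    cases h' with
    | refl => exact absurd h4 (not_lt.2 hf'.1.le)
    | step k1 k2 _ _ =>
      have e := Nx.left_unique hS h2 k2
      subst e
      exact ih k1

theorem Bwd.unique (hS : Sys Q W Z T) {f f' g : ι × ι} (hf : Up Z f) (hf' : Up Z f')
    (h : Bwd Q W Z T f g) : Bwd Q W Z T f' g → f = f' := by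
  induction h with
  | refl =>
    intro h'
    cases h' with
    | refl => rfl
    | step _ _ _ h4 => exact absurd h4 (not_lt.2 hf.2.le)
  | @step g g' h1 h2 h3 h4 ih =>
    intro h'
    cases h' with
    | refl => exact absurd h4 (not_lt.2 hf'.2.le)
    | step k1 k2 _ _ =>
      have e := Nx.right_unique hS h2 k2
      subst e
      exact ih k1

/-- a backward chain covers a given direction of the valley, or ends inside the valley -/
theorem Bwd.cover (hS : Sys Q W Z T) {e : ι × ι} (he : Arc Q W T e) (hu : Up Z e) {v : ℝ × ℝ}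
    (hv : 0 < dd v (ce W Z e))
    (hgood : ∀ k, Bwd Q W Z T e k → 0 < dd (W k.1) (ce W Z e) → ¬ High Q W Z T k) :
    ∃ k, Bwd Q W Z T e k ∧ 0 ≤ dd (W k.1) v ∧ 0 < dd v (W k.2) := by
  have main : ∀ m : ℕ, ∀ k, Bwd Q W Z T e k → 0 < dd v (W k.1) → 0 < dd (W k.1) (ce W Z e) →
      (Q.filter fun q => 0 < dd v (W q) ∧ 0 < dd (W q) (W k.1)).card ≤ m →
      ∃ k, Bwd Q W Z T e k ∧ 0 ≤ dd (W k.1) v ∧ 0 < dd v (W k.2) := by
    intro m
    induction m with
    | zero =>
      intro k hk h1 h2 hm
      have hka := hk.arc he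
      rcases Nx.exists_left hS hka with ⟨k', hk'⟩ | h3
      · have hz : Z k'.2 < 0 := by
          have := hk.neg he h2 (Or.inr hka.pos.le)
          rw [La_left W Z hka.pos] at this
          rw [← hk'.eq]
          exact this
        have hB : Bwd Q W Z T e k' := Bwd.step hk hk' (hk'.eq ▸ h2) hz
        by_cases h4 : 0 ≤ dd (W k'.1) v
        · exact ⟨k', hB, h4, hk'.eq ▸ h1⟩
        · have h5 : 0 < dd v (W k'.1) := by
            rw [dd_swap]
            linarith
          have h6 : k'.1 ∈ Q.filter fun q => 0 < dd v (W q) ∧ 0 < dd (W q) (W k.1) :=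
            mem_filter.2 ⟨hk'.a1.m1, h5, hk'.eq ▸ hk'.a1.pos⟩
          have := card_pos.2 ⟨_, h6⟩
          omega
      · exact absurd h3 (hgood k hk h2)
    | succ m ih =>
      intro k hk h1 h2 hm
      have hka := hk.arc he
      rcases Nx.exists_left hS hka with ⟨k', hk'⟩ | h3
      · have hz : Z k'.2 < 0 := by
          have := hk.neg he h2 (Or.inr hka.pos.le)
          rw [La_left W Z hka.pos] at this
          rw [← hk'.eq]
          exact this
        have hB : Bwd Q W Z T e k' := Bwd.step hk hk' (hk'.eq ▸ h2) hz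
        by_cases h4 : 0 ≤ dd (W k'.1) v
        · exact ⟨k', hB, h4, hk'.eq ▸ h1⟩
        · have h5 : 0 < dd v (W k'.1) := by
            rw [dd_swap]
            linarith
          have h6 : 0 < dd (W k'.1) (W k.1) := hk'.eq ▸ hk'.a1.pos
          refine ih k' hB h5 ?_ ?_
          · refine q2' h1 ?_
            have : 0 < dd v (W k'.1) * dd (W k.1) (ce W Z e) := mul_pos h5 h2
            have : 0 < dd v (ce W Z e) * dd (W k'.1) (W k.1) := mul_pos hv h6
            linarith
          · have h7 : (Q.filter fun q => 0 < dd v (W q) ∧ 0 < dd (W q) (W k'.1)) ⊂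
                Q.filter fun q => 0 < dd v (W q) ∧ 0 < dd (W q) (W k.1) := by
              rw [ssubset_iff_of_subset]
              · refine ⟨k'.1, mem_filter.2 ⟨hk'.a1.m1, h5, h6⟩, ?_⟩
                rw [mem_filter, dd_self]
                exact fun h => lt_irrefl _ h.2.2
              · intro q hq
                rw [mem_filter] at hq ⊢
                obtain ⟨c1, c2, c3⟩ := hq
                refine ⟨c1, c2, ?_⟩
                refine q2' h5 ?_
                have : 0 < dd v (W q) * dd (W k'.1) (W k.1) := mul_pos c2 h6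
                have : 0 < dd v (W k.1) * dd (W q) (W k'.1) := mul_pos h1 c3
                linarith
            have h8 := card_lt_card h7
            omega
      · exact absurd h3 (hgood k hk h2)
  have e1 : 0 < dd (W e.1) (ce W Z e) := by
    rw [dd_left_ce]
    exact mul_pos (neg_pos.2 hu.1) he.pos
  have e2 : 0 < dd (ce W Z e) (W e.2) := by
    rw [dd_ce_right]
    exact mul_pos hu.2 he.pos
  by_cases h4 : 0 ≤ dd (W e.1) v
  · refine ⟨e, Bwd.refl, h4, ?_⟩
    refine q2' e1 ?_
    have : 0 ≤ dd (W e.1) v * dd (ce W Z e) (W e.2) := mul_nonneg h4 e2.le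
    have : 0 < dd (W e.1) (W e.2) * dd v (ce W Z e) := mul_pos he.pos hv
    linarith
  · have h5 : 0 < dd v (W e.1) := by
      rw [dd_swap]
      linarith
    exact main _ e Bwd.refl h5 e1 le_rfl

/-- two arcs have a common point, in a direction to the right of `c` -/
def Meet (W : ι → ℝ × ℝ) (Z : ι → ℝ) (c : ℝ × ℝ) (g k : ι × ι) : Prop :=
  ∃ v : ℝ × ℝ, 0 < dd c v ∧ 0 ≤ dd (W g.1) v ∧ 0 ≤ dd v (W g.2) ∧ 0 ≤ dd (W k.1) v ∧
    0 ≤ dd v (W k.2) ∧ La W Z g v = La W Z k v

theorem meet_of {c h v : ℝ × ℝ} {g k : ι × ι} (hc : 0 ≤ dd c h) (hcv : 0 < dd c v)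
    (a1 : 0 ≤ dd (W g.1) h) (a2 : 0 ≤ dd h (W g.2)) (a3 : 0 ≤ dd (W k.1) h)
    (a4 : 0 ≤ dd h (W k.2)) (b1 : 0 ≤ dd (W g.1) v) (b2 : 0 ≤ dd v (W g.2))
    (b3 : 0 ≤ dd (W k.1) v) (b4 : 0 ≤ dd v (W k.2)) (hh : La W Z k h < La W Z g h)
    (hv : La W Z g v ≤ La W Z k v) : Meet W Z c g k := by
  set a := La W Z g h - La W Z k h with ha
  set b := La W Z k v - La W Z g v with hb
  have ha0 : 0 < a := by linarith
  have hb0 : 0 ≤ b := by linarith
  have e1 : ∀ w, dd w (b * h.1 + a * v.1, b * h.2 + a * v.2) = b * dd w h + a * dd w v := by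
    intro w
    unfold dd
    ring
  have e2 : ∀ w, dd (b * h.1 + a * v.1, b * h.2 + a * v.2) w = b * dd h w + a * dd v w := by
    intro w
    unfold dd
    ring
  refine ⟨(b * h.1 + a * v.1, b * h.2 + a * v.2), ?_, ?_, ?_, ?_, ?_, ?_⟩
  · rw [e1]
    have : 0 < a * dd c v := mul_pos ha0 hcv
    have : 0 ≤ b * dd c h := mul_nonneg hb0 hc
    linarith
  · rw [e1]; positivity
  · rw [e2]; positivity
  · rw [e1]; positivity
  · rw [e2]; positivity
  · rw [La_comb, La_comb]
    rw [ha, hb]
    ring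

/-- **The meeting of two valleys.** -/
theorem meeting (hS : Sys Q W Z T) {f e : ι × ι} (hf : Arc Q W T f) (he : Arc Q W T e)
    (hd : Down Z f) (hu : Up Z e) (hfe : 0 < dd (cf W Z f) (ce W Z e))
    (hgf : ∀ g, Fwd Q W Z T f g → 0 < dd (cf W Z f) (W g.2) → ¬ Low Q W Z T g)
    (hge : ∀ k, Bwd Q W Z T e k → 0 < dd (W k.1) (ce W Z e) → ¬ High Q W Z T k) :
    ∃ g k, Fwd Q W Z T f g ∧ Bwd Q W Z T e k ∧ Meet W Z (cf W Z f) g k := by
  set c := cf W Z f with hc
  set c' := ce W Z e with hc'
  have e1 : 0 < dd (W e.1) c' := by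
    rw [hc', dd_left_ce]
    exact mul_pos (neg_pos.2 hu.1) he.pos
  have e2 : 0 < dd c' (W e.2) := by
    rw [hc', dd_ce_right]
    exact mul_pos hu.2 he.pos
  have main : ∀ m : ℕ, ∀ g k v, Fwd Q W Z T f g → Bwd Q W Z T e k → 0 ≤ dd (W g.1) v →
      0 < dd v (W g.2) → 0 ≤ dd (W k.1) v → 0 < dd v (W k.2) → 0 ≤ dd c v → 0 < dd v c' →
      La W Z k v < La W Z g v →
      (Q.filter fun q => 0 < dd v (W q) ∧ 0 < dd (W q) c').card < m →
      ∃ g k, Fwd Q W Z T f g ∧ Bwd Q W Z T e k ∧ Meet W Z c g k := by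
    intro m
    induction m with
    | zero => intro _ _ _ _ _ _ _ _ _ _ _ _ h; omega
    | succ m ih =>
      intro g k v hg hk g1 g2 k1 k2 hcv hvc hlt hm
      have hga := hg.arc hf
      have hka := hk.arc he
      -- the measure decreases when `v` moves to a vertex
      have dec : ∀ w ∈ Q, 0 < dd v (W w) → 0 < dd (W w) c' →
          (Q.filter fun q => 0 < dd (W w) (W q) ∧ 0 < dd (W q) c').card < m := by
        intro w hw w1 w2
        refine lt_of_lt_of_le (card_lt_card ?_) (Nat.lt_succ_iff.1 hm)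
        rw [ssubset_iff_of_subset]
        · refine ⟨w, mem_filter.2 ⟨hw, w1, w2⟩, ?_⟩
          rw [mem_filter, dd_self]
          exact fun h => lt_irrefl _ h.2.1
        · intro q hq
          rw [mem_filter] at hq ⊢
          obtain ⟨c1, c2, c3⟩ := hq
          refine ⟨c1, ?_, c3⟩
          refine q1' w2 ?_
          have : 0 < dd v (W w) * dd (W q) c' := mul_pos w1 c3
          have : 0 < dd v c' * dd (W w) (W q) := mul_pos hvc c2
          linarith
      -- position of an inner vertex
      have pos : ∀ w : ℝ × ℝ, 0 < dd v w → 0 < dd w c' → 0 < dd c w := by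
        intro w w1 w2
        refine q1' hvc ?_
        have : 0 ≤ dd c v * dd w c' := mul_nonneg hcv w2.le
        have : 0 < dd c c' * dd v w := mul_pos hfe w1
        linarith
      -- the step at the end of `g`
      have stepG : 0 < dd (W g.2) c' → 0 ≤ dd (W k.1) (W g.2) → 0 < dd (W g.2) (W k.2) →
          ∃ g k, Fwd Q W Z T f g ∧ Bwd Q W Z T e k ∧ Meet W Z c g k := by
        intro s1 s2 s3
        have s4 := pos _ g2 s1
        by_cases s5 : La W Z g (W g.2) ≤ La W Z k (W g.2)
        · refine ⟨g, k, hg, hk, meet_of hcv s4 g1 g2.le k1 k2.le hga.pos.le ?_ s2 s3.le hlt s5⟩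
          rw [dd_self]
        · rcases Nx.exists_right hS hga with ⟨g', hg'⟩ | h3
          · have hz : Z g'.1 < 0 := by
              have := hg.neg hf s4 (Or.inr hga.pos.le)
              rw [La_right W Z hga.pos] at this
              rw [hg'.eq]
              exact this
            have hF : Fwd Q W Z T f g' := Fwd.step hg hg' (by rw [hg'.eq]; exact s4) hz
            refine ih g' k (W g.2) hF hk ?_ ?_ s2 s3 s4.le s1 ?_ (dec _ hga.m2 g2 s1)
            · rw [hg'.eq, dd_self]
            · rw [← hg'.eq]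
              exact hg'.a2.pos
            · rw [not_le, La_right W Z hga.pos] at s5
              have h5 : La W Z g' (W g.2) = Z g.2 := by
                have := La_left W Z hg'.a2.pos
                rw [hg'.eq] at this
                exact this
              rw [h5]
              exact s5
          · exact absurd h3 (hgf g hg s4)
      by_cases hke : k = e
      · subst hke
        by_cases t1 : 0 < dd (W g.2) c'
        · have t2 : 0 < dd (W k.1) (W g.2) := by
            refine q1' hvc ?_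
            have : 0 ≤ dd (W k.1) v * dd (W g.2) c' := mul_nonneg k1 t1.le
            have : 0 < dd (W k.1) c' * dd v (W g.2) := mul_pos e1 g2
            linarith
          have t3 : 0 < dd (W g.2) (W k.2) := by
            refine q2' e1 ?_
            have : 0 < dd (W k.1) (W g.2) * dd c' (W k.2) := mul_pos t2 e2
            have : 0 < dd (W k.1) (W k.2) * dd (W g.2) c' := mul_pos hka.pos t1
            linarith
          exact stepG t1 t2.le t3
        · have t2 : 0 ≤ dd c' (W g.2) := by
            rw [dd_swap]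
            linarith
          have t3 : 0 < dd (W g.1) c' := by
            refine q1' g2 ?_
            have : 0 ≤ dd (W g.1) v * dd c' (W g.2) := mul_nonneg g1 t2
            have : 0 < dd (W g.1) (W g.2) * dd v c' := mul_pos hga.pos hvc
            linarith
          have t4 : La W Z g c' < 0 := hg.neg hf hfe (Or.inr t3.le)
          have t5 : La W Z k c' = 0 := La_ce_self k
          exact ⟨g, k, hg, hk, meet_of hcv hfe g1 g2.le k1 k2.le t3.le t2 e1.le e2.le hlt
            (by rw [t5]; exact t4.le)⟩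
      · have hki : 0 < dd (W k.2) c' := by
          rcases hk.info with h | h
          · exact absurd h hke
          · exact h.1
        have s4 := pos _ k2 hki
        rcases lt_trichotomy 0 (dd (W g.2) (W k.2)) with h | h | h
        · have t1 : 0 < dd (W g.2) c' := by
            refine q2' k2 ?_
            have : 0 < dd v (W g.2) * dd (W k.2) c' := mul_pos g2 hki
            have : 0 < dd v c' * dd (W g.2) (W k.2) := mul_pos hvc h
            linarith
          have t2 : 0 < dd (W k.1) (W g.2) := by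
            refine q1' k2 ?_
            have : 0 ≤ dd (W k.1) v * dd (W g.2) (W k.2) := mul_nonneg k1 h.le
            have : 0 < dd (W k.1) (W k.2) * dd v (W g.2) := mul_pos hka.pos g2
            linarith
          exact stepG t1 t2.le h
        · have hv : g.2 = k.2 := by
            by_contra hne
            exact hS.g.hD g.2 hga.m2 k.2 hka.m2 hne h.symm
          refine ⟨g, k, hg, hk, W k.2, s4, ?_, ?_, hka.pos.le, ?_, ?_⟩
          · rw [← hv]; exact hga.pos.le
          · rw [hv, dd_self]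
          · rw [dd_self]
          · rw [La_right W Z hka.pos, ← hv, La_right W Z hga.pos]
        · have h' : 0 < dd (W k.2) (W g.2) := by
            rw [dd_swap]
            linarith
          have t2 : 0 < dd (W g.1) (W k.2) := by
            refine q1' g2 ?_
            have : 0 ≤ dd (W g.1) v * dd (W k.2) (W g.2) := mul_nonneg g1 h'.le
            have : 0 < dd (W g.1) (W g.2) * dd v (W k.2) := mul_pos hga.pos k2
            linarith
          by_cases s5 : La W Z g (W k.2) ≤ La W Z k (W k.2)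
          · refine ⟨g, k, hg, hk, meet_of hcv s4 g1 g2.le k1 k2.le t2.le h'.le hka.pos.le ?_
              hlt s5⟩
            rw [dd_self]
          · cases hk with
            | refl => exact absurd rfl hke
            | @step k0 _ b1 b2 b3 b4 =>
              refine ih g k0 (W k.2) hg b1 t2.le h' ?_ ?_ s4.le hki ?_ (dec _ hka.m2 k2 hki)
              · rw [b2.eq, dd_self]
              · rw [← b2.eq]
                exact b2.a2.pos
              · rw [not_le, La_right W Z hka.pos] at s5
                have h5 : La W Z k0 (W k.2) = Z k.2 := by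
                  have := La_left W Z b2.a2.pos
                  rw [b2.eq] at this
                  exact this
                rw [h5]
                exact s5
  obtain ⟨k, hk, h1, h2⟩ := Bwd.cover hS he hu hfe hge
  refine main _ f k c Fwd.refl hk ?_ ?_ h1 h2 ?_ hfe ?_ (Nat.lt_succ_self _)
  · rw [hc, dd_left_cf]
    exact (mul_pos hd.1 hf.pos).le
  · rw [hc, dd_cf_right]
    exact mul_pos (neg_pos.2 hd.2) hf.pos
  · rw [dd_self]
  · rw [hc, La_cf_self, ← hc]
    exact hk.neg he hfe (Or.inr h2.le)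

end Pool.Agent.HpE
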