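import Pool.Agent.HpD.Walk

/-!
# Consecutive directions at a level are of opposite types
-/

namespace Pool.Agent.HpE

open Finset Classical HpD

variable {ι : Type*}

theorem ins_eq {Q : Finset ι} {s : ι → ℝ} (hs : Set.InjOn s Q) {a : ι} (ha : a ∈ Q) :
    (Q.filter fun c => s c ≤ s a) = insert a (Q.filter fun c => s c < s a) := by
  ext c
  simp only [mem_filter, mem_insert]
  constructor
  · rintro ⟨h1, h2⟩
    rcases lt_or_eq_of_le h2 with h3 | h3
    · exact Or.inr ⟨h1, h3⟩
    · exact Or.inl (hs h1 ha h3)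
  · rintro (rfl | ⟨h1, h2⟩)
    · exact ⟨ha, le_rfl⟩
    · exact ⟨h1, h2.le⟩

theorem lev_step {Q : Finset ι} {s : ι → ℝ} (hs : Set.InjOn s Q) (e : ι → Prop) (u : ℕ) {a : ι}
    (ha : a ∈ Q) (hT : mu Q s e a = u) :
    (e a → u < lev Q e (Q.filter fun c => s c < s a) ∧
      ¬ u < lev Q e (Q.filter fun c => s c ≤ s a)) ∧
    (¬ e a → ¬ u < lev Q e (Q.filter fun c => s c < s a) ∧
      u < lev Q e (Q.filter fun c => s c ≤ s a)) := by
  rw [ins_eq hs ha]
  set P := Q.filter fun c => s c < s a with hP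
  have haP : a ∉ P := by simp [hP]
  have hPQ : insert a P ⊆ Q := insert_subset ha (filter_subset _ _)
  have hmu := mu_eq hs e haP hPQ (fun x hx => (mem_filter.1 hx).2.le) (by
    intro q hq r hr hlt
    rw [mem_insert] at hq
    refine mem_insert_of_mem (mem_filter.2 ⟨hr, ?_⟩)
    rcases hq with rfl | hq
    · exact hlt
    · exact hlt.trans (mem_filter.1 hq).2)
  have hQ : Q \ P = insert a (Q \ insert a P) := by
    ext r
    simp only [mem_sdiff, mem_insert, not_or]
    constructor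
    · rintro ⟨h1, h2⟩
      by_cases h3 : r = a
      · exact Or.inl h3
      · exact Or.inr ⟨h1, h3, h2⟩
    · rintro (h1 | ⟨h1, h2, h3⟩)
      · subst h1
        exact ⟨ha, haP⟩
      · exact ⟨h1, h3⟩
  constructor
  · intro he
    have h1 : lev Q e P = mu Q s e a + 1 := by
      rw [lev, hQ, filter_insert, if_pos he, card_insert_of_notMem (by simp), hmu]
      omega
    have h2 : lev Q e (insert a P) = mu Q s e a := by
      rw [lev, filter_insert, if_neg (not_not.2 he), hmu]
    omega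
  · intro he
    have h1 : lev Q e P = mu Q s e a := by
      rw [lev, hQ, filter_insert, if_neg he, hmu]
    have h2 : lev Q e (insert a P) = mu Q s e a + 1 := by
      rw [lev, filter_insert, if_pos he, card_insert_of_notMem (by simp [haP]), hmu]
      omega
    omega

theorem lev_same {Q : Finset ι} {s : ι → ℝ} (hs : Set.InjOn s Q) (e : ι → Prop) (u : ℕ)
    {P P' : Finset ι} (h1 : P ⊆ P') (h2 : P' ⊆ Q) (h3 : ∀ q ∈ P, ∀ r ∈ Q, s r < s q → r ∈ P)
    (h4 : ∀ q ∈ P', ∀ r ∈ Q, s r < s q → r ∈ P') (h5 : ∀ c ∈ P', c ∉ P → mu Q s e c ≠ u) :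
    u < lev Q e P ↔ u < lev Q e P' := by
  have a1 := walk_aux hs e u P (h1.trans h2) h3
  have a2 := walk_aux hs e u P' h2 h4
  have b1 : (P.filter fun q => ¬ e q ∧ mu Q s e q = u) =
      P'.filter fun q => ¬ e q ∧ mu Q s e q = u := by
    ext c
    simp only [mem_filter]
    constructor
    · rintro ⟨h6, h7⟩
      exact ⟨h1 h6, h7⟩
    · rintro ⟨h6, h7⟩
      refine ⟨?_, h7⟩
      by_contra h8
      exact h5 c h6 h8 h7.2
  have b2 : (P.filter fun q => e q ∧ mu Q s e q = u) =
      P'.filter fun q => e q ∧ mu Q s e q = u := by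
    ext c
    simp only [mem_filter]
    constructor
    · rintro ⟨h6, h7⟩
      exact ⟨h1 h6, h7⟩
    · rintro ⟨h6, h7⟩
      refine ⟨?_, h7⟩
      by_contra h8
      exact h5 c h6 h8 h7.2
  rw [b1, b2] at a1
  rw [a1] at a2
  constructor
  · intro h
    by_contra h'
    rw [if_pos h, if_neg h'] at a2
    linarith
  · intro h
    by_contra h'
    rw [if_neg h', if_pos h] at a2
    linarith

/-- **Alternation of consecutive directions.** -/
theorem consec {Q : Finset ι} {s : ι → ℝ} (hs : Set.InjOn s Q) (e : ι → Prop) (u : ℕ) {a b : ι}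
    (ha : a ∈ Q) (hb : b ∈ Q) (hab : s a < s b) (hTa : mu Q s e a = u) (hTb : mu Q s e b = u)
    (hno : ∀ c ∈ Q, s a < s c → s c < s b → mu Q s e c ≠ u) : e a ↔ ¬ e b := by
  have h1 := lev_same hs e u (P := Q.filter fun c => s c ≤ s a) (P' := Q.filter fun c => s c < s b)
    (fun c hc => mem_filter.2 ⟨(mem_filter.1 hc).1, (mem_filter.1 hc).2.trans_lt hab⟩)
    (filter_subset _ _)
    (fun q hq r hr hlt => mem_filter.2 ⟨hr, hlt.le.trans (mem_filter.1 hq).2⟩)
    (fun q hq r hr hlt => mem_filter.2 ⟨hr, hlt.trans (mem_filter.1 hq).2⟩)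
    (fun c hc hc' => hno c (mem_filter.1 hc).1 (by
      by_contra h
      exact hc' (mem_filter.2 ⟨(mem_filter.1 hc).1, not_lt.1 h⟩)) (mem_filter.1 hc).2)
  have h2 := lev_step hs e u ha hTa
  have h3 := lev_step hs e u hb hTb
  constructor
  · intro h4 h5
    exact (h2.1 h4).2 (h1.2 (h3.1 h5).1)
  · intro h4
    by_contra h5
    exact (h3.2 h4).1 (h1.1 (h2.2 h5).2)

end Pool.Agent.HpE
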