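import Pool.Agent.HpE.Pairs

/-!
# The number of arcs crossing the equator and the number of crossings
-/

namespace Pool.Agent.HpE

open Finset Classical HpD

variable {ι : Type*}

theorem sum_fst {Q : Finset ι} {W : ι → ℝ × ℝ} {Z : ι → ℝ} {T : ι → ι → Prop} :
    (((Q ×ˢ Q).filter fun g => Arc Q W T g ∧ 0 < Z g.1)).card =
      ∑ q ∈ Q.filter (fun q => 0 < Z q), (Q.filter fun r => Arc Q W T (q, r)).card := by
  rw [card_eq_sum_card_fiberwise (f := Prod.fst) (t := Q.filter fun q => 0 < Z q)]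
  · apply sum_congr rfl
    intro q hq
    rw [mem_filter] at hq
    refine card_bij' (fun g _ => g.2) (fun r _ => (q, r)) ?_ ?_ ?_ ?_
    · intro g hg
      rw [mem_filter, mem_filter] at hg
      obtain ⟨⟨_, h2, _⟩, h4⟩ := hg
      subst h4
      exact mem_filter.2 ⟨h2.m2, h2⟩
    · intro r hr
      rw [mem_filter] at hr
      exact mem_filter.2 ⟨mem_filter.2 ⟨mem_product.2 ⟨hq.1, hr.1⟩, hr.2, hq.2⟩, rfl⟩
    · intro g hg
      rw [mem_filter] at hg
      exact Prod.ext hg.2.symm rfl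
    · intro r _
      rfl
  · intro g hg
    have hg' := mem_filter.1 (mem_coe.1 hg)
    exact mem_coe.2 (mem_filter.2 ⟨hg'.2.1.m1, hg'.2.2⟩)

theorem sum_snd {Q : Finset ι} {W : ι → ℝ × ℝ} {Z : ι → ℝ} {T : ι → ι → Prop} :
    (((Q ×ˢ Q).filter fun g => Arc Q W T g ∧ 0 < Z g.2)).card =
      ∑ q ∈ Q.filter (fun q => 0 < Z q), (Q.filter fun r => Arc Q W T (r, q)).card := by
  rw [card_eq_sum_card_fiberwise (f := Prod.snd) (t := Q.filter fun q => 0 < Z q)]
  · apply sum_congr rfl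
    intro q hq
    rw [mem_filter] at hq
    refine card_bij' (fun g _ => g.1) (fun r _ => (r, q)) ?_ ?_ ?_ ?_
    · intro g hg
      rw [mem_filter, mem_filter] at hg
      obtain ⟨⟨_, h2, _⟩, h4⟩ := hg
      subst h4
      exact mem_filter.2 ⟨h2.m1, h2⟩
    · intro r hr
      rw [mem_filter] at hr
      exact mem_filter.2 ⟨mem_filter.2 ⟨mem_product.2 ⟨hr.1, hq.1⟩, hr.2, hq.2⟩, rfl⟩
    · intro g hg
      rw [mem_filter] at hg
      exact Prod.ext rfl hg.2.symm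
    · intro r _
      rfl
  · intro g hg
    have hg' := mem_filter.1 (mem_coe.1 hg)
    exact mem_coe.2 (mem_filter.2 ⟨hg'.2.1.m2, hg'.2.2⟩)

theorem ahead_eq {Q : Finset ι} {W : ι → ℝ × ℝ} {Z : ι → ℝ} (hg : Gen Q W Z) (u : ℕ) {q : ι}
    (hq : q ∈ Q) : (Q.filter fun r => Arc Q W (Tt Q W Z u) (q, r)) =
      (Q.erase q).filter fun r => ah W q r ∧ mu (Q.erase q) (sl W Z q) (ah W q) r = u := by
  ext r
  rw [mem_filter, mem_filter, mem_erase]
  constructor
  · rintro ⟨h1, h2⟩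
    have h3 : q ≠ r := h2.ne
    exact ⟨⟨h3.symm, h1⟩, h2.pos, (Tt_iff hg hq h1 h3).1 h2.lv⟩
  · rintro ⟨⟨h1, h2⟩, h3, h4⟩
    exact ⟨h2, ⟨hq, h2, h3, (Tt_iff hg hq h2 h1.symm).2 h4⟩⟩

theorem behind_eq {Q : Finset ι} {W : ι → ℝ × ℝ} {Z : ι → ℝ} (hg : Gen Q W Z) (u : ℕ) {q : ι}
    (hq : q ∈ Q) : (Q.filter fun r => Arc Q W (Tt Q W Z u) (r, q)) =
      (Q.erase q).filter fun r => ¬ ah W q r ∧ mu (Q.erase q) (sl W Z q) (ah W q) r = u := by
  ext r
  rw [mem_filter, mem_filter, mem_erase]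
  constructor
  · rintro ⟨h1, h2⟩
    have h3 : q ≠ r := h2.ne.symm
    have h4 : 0 < dd (W r) (W q) := h2.pos
    refine ⟨⟨h3.symm, h1⟩, ?_, (Tt_iff hg hq h1 h3).1 (Tt_symm h2.lv)⟩
    unfold ah
    rw [dd_swap]
    linarith
  · rintro ⟨⟨h1, h2⟩, h3, h4⟩
    have h5 : 0 < dd (W r) (W q) := by
      unfold ah at h3
      have h6 := hg.hD q hq r h2 h1.symm
      rw [dd_swap]
      rcases lt_or_gt_of_ne h6 with h7 | h7
      · linarith
      · exact absurd h7 h3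
    exact ⟨h2, ⟨h2, hq, h5, Tt_symm ((Tt_iff hg hq h2 h1.symm).2 h4)⟩⟩

theorem diff_le {Q : Finset ι} {W : ι → ℝ × ℝ} {Z : ι → ℝ} (hg : Gen Q W Z) (u : ℕ) :
    (Dn Q W Z (Tt Q W Z u)).card ≤ (Un Q W Z (Tt Q W Z u)).card + Q.card ∧
    (Un Q W Z (Tt Q W Z u)).card ≤ (Dn Q W Z (Tt Q W Z u)).card + Q.card := by
  set T := Tt Q W Z u with hT
  set PP := (Q ×ˢ Q).filter fun g => Arc Q W T g ∧ 0 < Z g.1 ∧ 0 < Z g.2 with hPP
  have h1 : (((Q ×ˢ Q).filter fun g => Arc Q W T g ∧ 0 < Z g.1)).card =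
      PP.card + (Dn Q W Z T).card := by
    rw [← card_union_of_disjoint]
    · congr 1
      ext g
      rw [mem_union, hPP, Dn, mem_filter, mem_filter, mem_filter]
      constructor
      · rintro ⟨a1, a2, a3⟩
        rcases lt_or_gt_of_ne (hg.hZ g.2 a2.m2) with h | h
        · exact Or.inr ⟨a1, a2, a3, h⟩
        · exact Or.inl ⟨a1, a2, a3, h⟩
      · rintro (⟨a1, a2, a3, _⟩ | ⟨a1, a2, a3, _⟩)
        · exact ⟨a1, a2, a3⟩
        · exact ⟨a1, a2, a3⟩
    · rw [disjoint_left]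
      intro g a1 a2
      have b1 := (mem_filter.1 a1).2.2.2
      have b2 := (mem_filter.1 a2).2.2.2
      exact lt_asymm b1 b2
  have h2 : (((Q ×ˢ Q).filter fun g => Arc Q W T g ∧ 0 < Z g.2)).card =
      PP.card + (Un Q W Z T).card := by
    rw [← card_union_of_disjoint]
    · congr 1
      ext g
      rw [mem_union, hPP, Un, mem_filter, mem_filter, mem_filter]
      constructor
      · rintro ⟨a1, a2, a3⟩
        rcases lt_or_gt_of_ne (hg.hZ g.1 a2.m1) with h | h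
        · exact Or.inr ⟨a1, a2, h, a3⟩
        · exact Or.inl ⟨a1, a2, h, a3⟩
      · rintro (⟨a1, a2, _, a3⟩ | ⟨a1, a2, _, a3⟩)
        · exact ⟨a1, a2, a3⟩
        · exact ⟨a1, a2, a3⟩
    · rw [disjoint_left]
      intro g a1 a2
      have b1 := (mem_filter.1 a1).2.2.1
      have b2 := (mem_filter.1 a2).2.2.1
      exact lt_asymm b1 b2
  rw [sum_fst] at h1
  rw [sum_snd] at h2
  have h3 : ∀ q ∈ Q.filter (fun q => 0 < Z q),
      (Q.filter fun r => Arc Q W T (q, r)).card ≤ (Q.filter fun r => Arc Q W T (r, q)).card + 1 ∧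
      (Q.filter fun r => Arc Q W T (r, q)).card ≤
        (Q.filter fun r => Arc Q W T (q, r)).card + 1 := by
    intro q hq
    have hq' := (mem_filter.1 hq).1
    rw [hT, ahead_eq hg u hq', behind_eq hg u hq']
    exact walk (sl_inj hg hq') (ah W q) u
  have h4 : (Q.filter fun q => 0 < Z q).card ≤ Q.card := card_filter_le _ _
  have h5 : ∑ q ∈ Q.filter (fun q => 0 < Z q), (Q.filter fun r => Arc Q W T (q, r)).card ≤
      ∑ q ∈ Q.filter (fun q => 0 < Z q), (Q.filter fun r => Arc Q W T (r, q)).card +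
        (Q.filter fun q => 0 < Z q).card := by
    rw [card_eq_sum_ones, ← sum_add_distrib]
    exact sum_le_sum fun q hq => (h3 q hq).1
  have h6 : ∑ q ∈ Q.filter (fun q => 0 < Z q), (Q.filter fun r => Arc Q W T (r, q)).card ≤
      ∑ q ∈ Q.filter (fun q => 0 < Z q), (Q.filter fun r => Arc Q W T (q, r)).card +
        (Q.filter fun q => 0 < Z q).card := by
    rw [card_eq_sum_ones, ← sum_add_distrib]
    exact sum_le_sum fun q hq => (h3 q hq).2
  omega

theorem Eq0_le {Q : Finset ι} {W : ι → ℝ × ℝ} {Z : ι → ℝ} (hg : Gen Q W Z) (u : ℕ) :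
    (Eq0 Q W Z u).card ≤ (Un Q W Z (Tt Q W Z u)).card + (Dn Q W Z (Tt Q W Z u)).card := by
  have h1 : Eq0 Q W Z u ⊆ Un Q W Z (Tt Q W Z u) ∪
      (Dn Q W Z (Tt Q W Z u)).image fun g => (g.2, g.1) := by
    rintro ⟨p, q⟩ h
    rw [Eq0, mem_filter, mem_product] at h
    obtain ⟨⟨hp, hq⟩, h1, h2, h3⟩ := h
    have hne : p ≠ q := by
      rintro rfl
      exact lt_asymm h2 h3
    rw [mem_union, mem_image]
    rcases lt_or_gt_of_ne (hg.hD p hp q hq hne) with h | h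
    · right
      refine ⟨(q, p), mem_filter.2 ⟨mem_product.2 ⟨hq, hp⟩, ⟨hq, hp, ?_, Tt_symm h1⟩, h3, h2⟩,
        rfl⟩
      change 0 < dd (W q) (W p)
      rw [dd_swap]
      linarith
    · left
      exact mem_filter.2 ⟨mem_product.2 ⟨hp, hq⟩, ⟨hp, hq, h, h1⟩, h2, h3⟩
  calc _ ≤ _ := card_le_card h1
    _ ≤ _ := card_union_le _ _
    _ ≤ _ := add_le_add le_rfl card_image_le

theorem flat_count {Q : Finset ι} {W : ι → ℝ × ℝ} {Z : ι → ℝ} (hg : Gen Q W Z) (u : ℕ) :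
    (Eq0 Q W Z u).card ^ 2 ≤ 8 * (CrF Q W Z u).card + 80 * Q.card ^ 3 := by
  have h1 := Eq0_le hg u
  have h2 := diff_le hg u
  have h3 := mul_le (sys_Tt hg u)
  have h4 : CrT Q W Z (Tt Q W Z u) = CrF Q W Z u := rfl
  rw [h4] at h3
  set a := (Un Q W Z (Tt Q W Z u)).card
  set b := (Dn Q W Z (Tt Q W Z u)).card
  set N := Q.card
  have h5 : (a + b) ^ 2 ≤ N ^ 2 + 4 * (b * a) := by
    rcases le_total a b with h | h
    · obtain ⟨c, hc⟩ := Nat.exists_eq_add_of_le h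
      have h6 : c ≤ N := by omega
      rw [hc]
      nlinarith [Nat.mul_le_mul h6 h6]
    · obtain ⟨c, hc⟩ := Nat.exists_eq_add_of_le h
      have h6 : c ≤ N := by omega
      rw [hc]
      nlinarith [Nat.mul_le_mul h6 h6]
  have h6 : N ^ 2 ≤ N ^ 3 := by
    rcases Nat.eq_zero_or_pos N with h | h
    · rw [h]
      norm_num
    · exact Nat.pow_le_pow_right h (by norm_num)
  have h7 : (Eq0 Q W Z u).card ^ 2 ≤ (a + b) ^ 2 := Nat.pow_le_pow_left h1 2
  omega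

end Pool.Agent.HpE
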