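import Pool.Agent.HpE.Pierce

/-!
# Crossings in the link and pierced triangles

Paper proof of `cross_prc`. Put `a` in the origin and write `[p q r]` for `det3` of the vectors
`df x a p`, `df x a q`, `df x a r`. From `v = α p + β q = γ r + δ s`: with `σ = [p q r] / δ` one has
`[p q s] = -γ σ`, `[p r s] = -β σ`, `[q r s] = α σ`, and
`dt x p q a r = [p q r] = δ σ`, `dt x p q s a = -[p q s] = γ σ`,
`dt x p q r s = [q r s] - [p r s] + [p q s] - [p q r] = (α + β - γ - δ) σ`; the same with `(p, q)`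
and `(r, s)` exchanged. All these are nonzero (`dt_ne`), so `α + β ≠ γ + δ`, and `Prc x p q a r s`
holds if `α + β > γ + δ`, `Prc x r s a p q` if `α + β < γ + δ`.

`sum_cross`: the pairs counted on the left for all `a` together inject, in two classes, into the
set of `(p, q)` with `p ≠ q` times the triples counted by `pierce_card`.
-/

namespace Pool.Agent.HpE

open Finset Classical SmH HpD

variable {n : ℕ}

/-- the four determinants of four dependent vectors -/
private theorem cr_dets (P Q R S : Fin 3 → ℝ) {α β γ δ : ℝ}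
    (h : ∀ c, α * P c + β * Q c = γ * R c + δ * S c) :
    γ * det3 P Q R + δ * det3 P Q S = 0 ∧ β * det3 P Q R + δ * det3 P R S = 0 ∧
      α * det3 P Q R - δ * det3 Q R S = 0 := by
  unfold det3
  refine ⟨?_, ?_, ?_⟩
  · linear_combination (-(P 1 * Q 2 - P 2 * Q 1)) * h 0 + (P 0 * Q 2 - P 2 * Q 0) * h 1 -
      (P 0 * Q 1 - P 1 * Q 0) * h 2
  · linear_combination (R 1 * P 2 - R 2 * P 1) * h 0 + (R 2 * P 0 - R 0 * P 2) * h 1 +
      (R 0 * P 1 - R 1 * P 0) * h 2
  · linear_combination (Q 1 * R 2 - Q 2 * R 1) * h 0 + (Q 2 * R 0 - Q 0 * R 2) * h 1 +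
      (Q 0 * R 1 - Q 1 * R 0) * h 2

/-- the orientation determinants with base point `p` in terms of the vectors at `a` -/
private theorem cr_dt (x : Fin n × Fin 3 → ℝ) (a p q r s : Fin n) :
    dt x p q a r = det3 (df x a p) (df x a q) (df x a r) ∧
    dt x p q s a = -det3 (df x a p) (df x a q) (df x a s) ∧
    dt x p q r s = det3 (df x a q) (df x a r) (df x a s) - det3 (df x a p) (df x a r) (df x a s) +
      det3 (df x a p) (df x a q) (df x a s) - det3 (df x a p) (df x a q) (df x a r) := by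
  unfold dt det3 df
  refine ⟨?_, ?_, ?_⟩ <;> ring

/-- the sign analysis -/
private theorem cr_signs {D B C E α β γ δ : ℝ} (hα : 0 < α) (hβ : 0 < β) (hγ : 0 < γ) (hδ : 0 < δ)
    (h1 : γ * D + δ * B = 0) (h2 : β * D + δ * C = 0) (h3 : α * D - δ * E = 0) (hD : 0 < D) :
    B < 0 ∧ C < 0 ∧ 0 < E := by
  have e1 : 0 < γ * D := mul_pos hγ hD
  have e2 : 0 < β * D := mul_pos hβ hD
  have e3 : 0 < α * D := mul_pos hα hD
  refine ⟨?_, ?_, ?_⟩
  · by_contra hc
    push Not at hc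
    have := mul_nonneg hδ.le hc
    linarith
  · by_contra hc
    push Not at hc
    have := mul_nonneg hδ.le hc
    linarith
  · by_contra hc
    push Not at hc
    have := mul_nonneg hδ.le (neg_nonneg.2 hc)
    linarith

theorem cross_prc {x : Fin n × Fin 3 → ℝ} (hx : GenPos x) {a p q r s : Fin n} (h1 : p ≠ a)
    (h2 : q ≠ a) (h3 : r ≠ a) (h4 : s ≠ a) (h5 : p ≠ q) (h6 : r ≠ s) (h7 : p ≠ r) (h8 : p ≠ s)
    (h9 : q ≠ r) (h10 : q ≠ s) {α β γ δ : ℝ} (hα : 0 < α) (hβ : 0 < β) (hγ : 0 < γ) (hδ : 0 < δ)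
    (h : ∀ c, α * df x a p c + β * df x a q c = γ * df x a r c + δ * df x a s c) :
    Prc x p q a r s ∨ Prc x r s a p q := by
  obtain ⟨a1, a2, a3⟩ := cr_dt x a p q r s
  obtain ⟨b1, b2, b3⟩ := cr_dt x a r s p q
  obtain ⟨g1, g2, g3⟩ := cr_dets (df x a p) (df x a q) (df x a r) (df x a s) h
  have hX := dt_ne hx h5 h7 h8 h9 h10 h6
  have hD := dt_ne hx h5 h1 h7 h2 h9 h3.symm
  have c1 : det3 (df x a r) (df x a s) (df x a p) = det3 (df x a p) (df x a r) (df x a s) := by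
    unfold det3
    ring
  have c2 : det3 (df x a r) (df x a s) (df x a q) = det3 (df x a q) (df x a r) (df x a s) := by
    unfold det3
    ring
  have c3 : det3 (df x a s) (df x a p) (df x a q) = det3 (df x a p) (df x a q) (df x a s) := by
    unfold det3
    ring
  have c4 : det3 (df x a r) (df x a p) (df x a q) = det3 (df x a p) (df x a q) (df x a r) := by
    unfold det3
    ring
  rw [c1] at b1
  rw [c2] at b2
  rw [c3, c4, c2, c1] at b3
  rw [a3] at hX
  rw [a1] at hD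
  unfold Prc
  rw [a1, a2, a3, b1, b2, b3]
  obtain ⟨D, hDe⟩ : ∃ D, D = det3 (df x a p) (df x a q) (df x a r) := ⟨_, rfl⟩
  obtain ⟨B, hBe⟩ : ∃ B, B = det3 (df x a p) (df x a q) (df x a s) := ⟨_, rfl⟩
  obtain ⟨C, hCe⟩ : ∃ C, C = det3 (df x a p) (df x a r) (df x a s) := ⟨_, rfl⟩
  obtain ⟨E, hEe⟩ : ∃ E, E = det3 (df x a q) (df x a r) (df x a s) := ⟨_, rfl⟩
  simp only [← hDe, ← hBe, ← hCe, ← hEe] at *
  rcases lt_or_gt_of_ne hD with hD' | hD'
  · obtain ⟨f1, f2, f3⟩ := cr_signs (D := -D) (B := -B) (C := -C) (E := -E) hα hβ hγ hδ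
      (by linarith) (by linarith) (by linarith) (by linarith)
    rcases lt_or_gt_of_ne hX with hX' | hX'
    · left
      right
      exact ⟨hD', hX', by linarith⟩
    · right
      left
      exact ⟨by linarith, by linarith, by linarith⟩
  · obtain ⟨f1, f2, f3⟩ := cr_signs hα hβ hγ hδ g1 g2 g3 hD'
    rcases lt_or_gt_of_ne hX with hX' | hX'
    · right
      right
      exact ⟨f2, by linarith, by linarith⟩
    · left
      left
      exact ⟨hD', hX', by linarith⟩

/-- the indicator of a pierced triangle of type `k` at `a` -/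
private noncomputable def cr_F (x : Fin n × Fin 3 → ℝ) (k : ℕ) (a : Fin n) (u v : Fin n × Fin n) :
    ℕ :=
  if Ty x k a v.1 v.2 ∧ u.1 ≠ u.2 ∧ Prc x u.1 u.2 a v.1 v.2 then 1 else 0

private theorem cr_sum {x : Fin n × Fin 3 → ℝ} (hx : GenPos x) (k : ℕ) :
    ∑ a : Fin n, ∑ u : Fin n × Fin n, ∑ v : Fin n × Fin n, cr_F x k a u v ≤ 24 * n ^ 4 := by
  rw [sum_comm]
  have h1 : ∀ u : Fin n × Fin n, ∑ a : Fin n, ∑ v : Fin n × Fin n, cr_F x k a u v ≤
      24 * (n * n) := by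
    intro u
    by_cases hu : u.1 = u.2
    · have h2 : ∑ a : Fin n, ∑ v : Fin n × Fin n, cr_F x k a u v = 0 := by
        refine sum_eq_zero fun a _ => sum_eq_zero fun v _ => ?_
        unfold cr_F
        rw [if_neg]
        exact fun h => h.2.1 hu
      rw [h2]
      exact Nat.zero_le _
    · have h2 := pierce_card hx hu k
      rw [card_filter, Fintype.sum_prod_type] at h2
      refine le_trans (le_of_eq ?_) h2
      refine sum_congr rfl fun a _ => sum_congr rfl fun v _ => ?_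
      unfold cr_F
      refine if_congr ?_ rfl rfl
      exact ⟨fun h => ⟨h.1, h.2.2⟩, fun h => ⟨h.1, hu, h.2⟩⟩
  refine (sum_le_sum fun u _ => h1 u).trans ?_
  rw [sum_const, card_univ, Fintype.card_prod, Fintype.card_fin, smul_eq_mul]
  exact le_of_eq (by ring)

theorem sum_cross {x : Fin n × Fin 3 → ℝ} (hx : GenPos x) (k : ℕ) :
    ∑ a : Fin n, (univ.filter fun c : (Fin n × Fin n) × (Fin n × Fin n) =>
      Ty x k a c.1.1 c.1.2 ∧ Ty x k a c.2.1 c.2.2 ∧ c.1.1 ≠ c.1.2 ∧ c.2.1 ≠ c.2.2 ∧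
      (Prc x c.1.1 c.1.2 a c.2.1 c.2.2 ∨ Prc x c.2.1 c.2.2 a c.1.1 c.1.2)).card ≤
      48 * n ^ 4 := by
  have h1 : ∀ a : Fin n, (univ.filter fun c : (Fin n × Fin n) × (Fin n × Fin n) =>
      Ty x k a c.1.1 c.1.2 ∧ Ty x k a c.2.1 c.2.2 ∧ c.1.1 ≠ c.1.2 ∧ c.2.1 ≠ c.2.2 ∧
      (Prc x c.1.1 c.1.2 a c.2.1 c.2.2 ∨ Prc x c.2.1 c.2.2 a c.1.1 c.1.2)).card ≤
      ∑ u : Fin n × Fin n, ∑ v : Fin n × Fin n, cr_F x k a u v +
        ∑ u : Fin n × Fin n, ∑ v : Fin n × Fin n, cr_F x k a u v := by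
    intro a
    have h2 : ∑ u : Fin n × Fin n, ∑ v : Fin n × Fin n, cr_F x k a u v =
        ∑ v : Fin n × Fin n, ∑ u : Fin n × Fin n, cr_F x k a u v := sum_comm
    have h3 : ∑ u : Fin n × Fin n, ∑ v : Fin n × Fin n, cr_F x k a u v +
        ∑ u : Fin n × Fin n, ∑ v : Fin n × Fin n, cr_F x k a u v =
        ∑ c : (Fin n × Fin n) × (Fin n × Fin n), (cr_F x k a c.1 c.2 + cr_F x k a c.2 c.1) := by
      have e1 : ∑ c : (Fin n × Fin n) × (Fin n × Fin n), cr_F x k a c.1 c.2 =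
          ∑ u : Fin n × Fin n, ∑ v : Fin n × Fin n, cr_F x k a u v :=
        Fintype.sum_prod_type (fun c : (Fin n × Fin n) × (Fin n × Fin n) => cr_F x k a c.1 c.2)
      have e2 : ∑ c : (Fin n × Fin n) × (Fin n × Fin n), cr_F x k a c.2 c.1 =
          ∑ v : Fin n × Fin n, ∑ u : Fin n × Fin n, cr_F x k a u v :=
        Fintype.sum_prod_type (fun c : (Fin n × Fin n) × (Fin n × Fin n) => cr_F x k a c.2 c.1)
      rw [sum_add_distrib, e1, e2, ← h2]
    rw [h3, card_filter]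
    refine sum_le_sum fun c _ => ?_
    split_ifs with hc
    · obtain ⟨t1, t2, t3, t4, t5 | t5⟩ := hc
      · have : cr_F x k a c.1 c.2 = 1 := if_pos ⟨t2, t3, t5⟩
        rw [this]
        exact Nat.le_add_right _ _
      · have : cr_F x k a c.2 c.1 = 1 := if_pos ⟨t1, t4, t5⟩
        rw [this]
        exact Nat.le_add_left _ _
    · exact Nat.zero_le _
  refine (sum_le_sum fun a _ => h1 a).trans ?_
  rw [sum_add_distrib]
  have h2 := cr_sum hx k
  omega

end Pool.Agent.HpE
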