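import Pool.Agent.HpD.Link

/-!
# Definitions for the crossing bound in the link of a point

Overview of the project HpE (problem MP_f6af21_co, helper4): for every set `S` of points of a
configuration of `n` points of `ℝ³` in general position, the number of halving partitions is at
most `C (n ∑_{b ∉ S} (depth b + 1) + n² √|S|)`.

* `Pierce.lean`: a line through two of the points meets at most `24 n²` triangles of type `k`.
* `Cross.lean`: two arcs that cross in the link of `a` give an edge that pierces a triangle at `a`;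
  sum over `a`.
* `Flat.lean`, `Chain.lean`, `Count.lean`: in the link of `a`, `m² ≤ 8 (number of crossings) + C n³`
  for the number `m` of arcs of level `u` that cross the equator.
* `Sum.lean`: the sum over `a` of the squares.
-/

namespace Pool.Agent.HpE

open Finset Classical SmH HpD

variable {ι : Type*}

/-- The planar determinant. -/
def dd (a b : ℝ × ℝ) : ℝ := a.1 * b.2 - a.2 * b.1

/-- The determinant of the vectors `(W p, Z p)`, `(W q, Z q)`, `(W r, Z r)`. -/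
def E3 (W : ι → ℝ × ℝ) (Z : ι → ℝ) (p q r : ι) : ℝ :=
  Z p * dd (W q) (W r) - Z q * dd (W p) (W r) + Z r * dd (W p) (W q)

/-- The great circle through `p` and `q` has exactly `u` points above it. -/
def Tt (Q : Finset ι) (W : ι → ℝ × ℝ) (Z : ι → ℝ) (u : ℕ) (p q : ι) : Prop :=
  (Q.filter fun s => 0 < dd (W p) (W q) * E3 W Z p q s).card = u

/-- General position of a link. -/
structure Gen (Q : Finset ι) (W : ι → ℝ × ℝ) (Z : ι → ℝ) : Prop where
  hD : ∀ p ∈ Q, ∀ q ∈ Q, p ≠ q → dd (W p) (W q) ≠ 0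
  hE : ∀ p ∈ Q, ∀ q ∈ Q, ∀ r ∈ Q, p ≠ q → p ≠ r → q ≠ r → E3 W Z p q r ≠ 0
  hZ : ∀ p ∈ Q, Z p ≠ 0
  h4 : ∀ p ∈ Q, ∀ q ∈ Q, ∀ r ∈ Q, ∀ s ∈ Q, p ≠ q → p ≠ r → p ≠ s → q ≠ r → q ≠ s → r ≠ s →
    E3 W Z p r s * Z q - E3 W Z q r s * Z p ≠ 0

/-- The crossings: pairs of disjoint forward arcs of level `u` with a common inner point. -/
noncomputable def CrF (Q : Finset ι) (W : ι → ℝ × ℝ) (Z : ι → ℝ) (u : ℕ) :
    Finset ((ι × ι) × (ι × ι)) :=
  ((Q ×ˢ Q) ×ˢ (Q ×ˢ Q)).filter fun c =>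
    Tt Q W Z u c.1.1 c.1.2 ∧ Tt Q W Z u c.2.1 c.2.2 ∧
    0 < dd (W c.1.1) (W c.1.2) ∧ 0 < dd (W c.2.1) (W c.2.2) ∧
    c.1.1 ≠ c.2.1 ∧ c.1.1 ≠ c.2.2 ∧ c.1.2 ≠ c.2.1 ∧ c.1.2 ≠ c.2.2 ∧
    ∃ α β γ δ : ℝ, 0 < α ∧ 0 < β ∧ 0 < γ ∧ 0 < δ ∧
      α * (W c.1.1).1 + β * (W c.1.2).1 = γ * (W c.2.1).1 + δ * (W c.2.2).1 ∧
      α * (W c.1.1).2 + β * (W c.1.2).2 = γ * (W c.2.1).2 + δ * (W c.2.2).2 ∧
      α * Z c.1.1 + β * Z c.1.2 = γ * Z c.2.1 + δ * Z c.2.2

/-- The arcs of level `u` that cross the equator. -/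
noncomputable def Eq0 (Q : Finset ι) (W : ι → ℝ × ℝ) (Z : ι → ℝ) (u : ℕ) : Finset (ι × ι) :=
  (Q ×ˢ Q).filter fun c => Tt Q W Z u c.1 c.2 ∧ Z c.1 < 0 ∧ 0 < Z c.2

variable {n : ℕ}

/-- The line through `p` and `q` meets the interior of the triangle `r s t`. -/
def Prc (x : Fin n × Fin 3 → ℝ) (p q r s t : Fin n) : Prop :=
  (0 < dt x p q r s ∧ 0 < dt x p q s t ∧ 0 < dt x p q t r) ∨
  (dt x p q r s < 0 ∧ dt x p q s t < 0 ∧ dt x p q t r < 0)

end Pool.Agent.HpE
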