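import Pool.Agent.HpE.Defs
import Pool.Agent.HpE.Consec

/-!
# Arcs of a level in a link and their successors
-/

namespace Pool.Agent.HpE

open Finset Classical HpD

variable {ι : Type*}

theorem dd_self (a : ℝ × ℝ) : dd a a = 0 := by unfold dd; ring

theorem dd_swap (a b : ℝ × ℝ) : dd b a = -dd a b := by unfold dd; ring

theorem pluck (a b c d : ℝ × ℝ) : dd a b * dd c d - dd a c * dd b d + dd a d * dd b c = 0 := by
  unfold dd; ring

/-- slope of the arc from `q` to `r` at `q` -/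
noncomputable def sl (W : ι → ℝ × ℝ) (Z : ι → ℝ) (q r : ι) : ℝ :=
  (Z r - Z q * ((W q).1 * (W r).1 + (W q).2 * (W r).2) / ((W q).1 ^ 2 + (W q).2 ^ 2)) /
    dd (W q) (W r)

theorem E3_sl (W : ι → ℝ × ℝ) (Z : ι → ℝ) {q r s : ι} (hr : dd (W q) (W r) ≠ 0)
    (hs : dd (W q) (W s) ≠ 0) :
    E3 W Z q r s = dd (W q) (W r) * dd (W q) (W s) * (sl W Z q s - sl W Z q r) := by
  have hN : (W q).1 ^ 2 + (W q).2 ^ 2 ≠ 0 := by
    intro h
    have h1 : (W q).1 = 0 := by nlinarith [sq_nonneg (W q).1, sq_nonneg (W q).2]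
    have h2 : (W q).2 = 0 := by nlinarith [sq_nonneg (W q).1, sq_nonneg (W q).2]
    apply hr
    unfold dd
    rw [h1, h2]
    ring
  have e1 : sl W Z q r * dd (W q) (W r) =
      Z r - Z q * ((W q).1 * (W r).1 + (W q).2 * (W r).2) / ((W q).1 ^ 2 + (W q).2 ^ 2) := by
    unfold sl
    exact div_mul_cancel₀ _ hr
  have e2 : sl W Z q s * dd (W q) (W s) =
      Z s - Z q * ((W q).1 * (W s).1 + (W q).2 * (W s).2) / ((W q).1 ^ 2 + (W q).2 ^ 2) := by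
    unfold sl
    exact div_mul_cancel₀ _ hs
  have e3 : dd (W q) (W r) * dd (W q) (W s) * (sl W Z q s - sl W Z q r) =
      dd (W q) (W r) * (sl W Z q s * dd (W q) (W s)) -
      dd (W q) (W s) * (sl W Z q r * dd (W q) (W r)) := by ring
  rw [e3, e1, e2]
  unfold E3 dd
  field_simp
  ring

theorem sl_inj {Q : Finset ι} {W : ι → ℝ × ℝ} {Z : ι → ℝ} (hg : Gen Q W Z) {q : ι} (hq : q ∈ Q) :
    Set.InjOn (sl W Z q) (Q.erase q : Finset ι) := by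
  intro r hr s hs h
  have hr' := mem_erase.1 (mem_coe.1 hr)
  have hs' := mem_erase.1 (mem_coe.1 hs)
  by_contra hne
  have h1 := E3_sl W Z (hg.hD q hq r hr'.2 hr'.1.symm) (hg.hD q hq s hs'.2 hs'.1.symm)
  rw [h, sub_self, mul_zero] at h1
  exact hg.hE q hq r hr'.2 s hs'.2 hr'.1.symm hs'.1.symm hne h1

/-- the direction goes ahead -/
def ah (W : ι → ℝ × ℝ) (q : ι) (r : ι) : Prop := 0 < dd (W q) (W r)

theorem Tt_iff {Q : Finset ι} {W : ι → ℝ × ℝ} {Z : ι → ℝ} (hg : Gen Q W Z) {u : ℕ} {q r : ι}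
    (hq : q ∈ Q) (hr : r ∈ Q) (hqr : q ≠ r) :
    Tt Q W Z u q r ↔ mu (Q.erase q) (sl W Z q) (ah W q) r = u := by
  have hrD := hg.hD q hq r hr hqr
  have hEq : ∀ r, E3 W Z q r q = 0 := by
    intro r
    unfold E3 dd
    ring
  have h1 : (Q.filter fun s => 0 < dd (W q) (W r) * E3 W Z q r s) =
      ((Q.erase q).filter fun c => sl W Z q r < sl W Z q c ∧ ah W q c) ∪
      ((Q.erase q).filter fun c => sl W Z q c < sl W Z q r ∧ ¬ ah W q c) := by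
    ext s
    simp only [mem_filter, mem_union, mem_erase]
    by_cases hsq : s = q
    · subst hsq
      rw [hEq]
      simp
    · by_cases hsQ : s ∈ Q
      · have hsD := hg.hD q hq s hsQ (Ne.symm hsq)
        rw [E3_sl W Z hrD hsD]
        have h2 : dd (W q) (W r) * (dd (W q) (W r) * dd (W q) (W s) *
            (sl W Z q s - sl W Z q r)) =
            dd (W q) (W r) ^ 2 * (dd (W q) (W s) * (sl W Z q s - sl W Z q r)) := by ring
        rw [h2]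
        have h3 : 0 < dd (W q) (W r) ^ 2 := by positivity
        rw [mul_pos_iff_of_pos_left h3]
        unfold ah
        rcases lt_or_gt_of_ne hsD with h4 | h4
        · constructor
          · rintro ⟨_, h5⟩
            right
            refine ⟨⟨hsq, hsQ⟩, ?_, not_lt.2 h4.le⟩
            by_contra h6
            have := mul_nonpos_of_nonpos_of_nonneg h4.le (sub_nonneg.2 (not_lt.1 h6))
            linarith
          · rintro (⟨_, _, h5⟩ | ⟨_, h5, _⟩)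
            · exact absurd h5 (not_lt.2 h4.le)
            · exact ⟨hsQ, mul_pos_of_neg_of_neg h4 (sub_neg.2 h5)⟩
        · constructor
          · rintro ⟨_, h5⟩
            left
            refine ⟨⟨hsq, hsQ⟩, ?_, h4⟩
            have := (mul_pos_iff_of_pos_left h4).1 h5
            linarith
          · rintro (⟨_, h5, _⟩ | ⟨_, _, h5⟩)
            · exact ⟨hsQ, mul_pos h4 (sub_pos.2 h5)⟩
            · exact absurd h4 h5
      · simp [hsQ]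
  unfold Tt mu
  rw [h1, card_union_of_disjoint]
  rw [disjoint_left]
  intro c h2 h3
  rw [mem_filter] at h2 h3
  exact h3.2.2 h2.2.2

theorem Tt_symm {Q : Finset ι} {W : ι → ℝ × ℝ} {Z : ι → ℝ} {u : ℕ} {p q : ι}
    (h : Tt Q W Z u p q) : Tt Q W Z u q p := by
  unfold Tt at h ⊢
  rw [← h]
  congr 1
  apply filter_congr
  intro s _
  have : dd (W q) (W p) * E3 W Z q p s = dd (W p) (W q) * E3 W Z p q s := by
    unfold E3 dd
    ring
  rw [this]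

/-- A link in general position with a symmetric relation `T` for which consecutive related
directions at a point are of opposite types. -/
structure Sys (Q : Finset ι) (W : ι → ℝ × ℝ) (Z : ι → ℝ) (T : ι → ι → Prop) : Prop where
  g : Gen Q W Z
  sy : ∀ p q, T p q → T q p
  co : ∀ q ∈ Q, ∀ a ∈ Q.erase q, ∀ b ∈ Q.erase q, sl W Z q a < sl W Z q b → T q a → T q b →
    (∀ c ∈ Q.erase q, sl W Z q a < sl W Z q c → sl W Z q c < sl W Z q b → ¬ T q c) →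
    (ah W q a ↔ ¬ ah W q b)

theorem sys_Tt {Q : Finset ι} {W : ι → ℝ × ℝ} {Z : ι → ℝ} (hg : Gen Q W Z) (u : ℕ) :
    Sys Q W Z (Tt Q W Z u) := by
  refine ⟨hg, fun p q h => Tt_symm h, ?_⟩
  intro q hq a ha b hb hab hTa hTb hno
  have ha' := mem_erase.1 ha
  have hb' := mem_erase.1 hb
  exact consec (sl_inj hg hq) (ah W q) u ha hb hab ((Tt_iff hg hq ha'.2 ha'.1.symm).1 hTa)
    ((Tt_iff hg hq hb'.2 hb'.1.symm).1 hTb) (fun c hc h1 h2 h3 =>
      hno c hc h1 h2 ((Tt_iff hg hq (mem_erase.1 hc).2 (mem_erase.1 hc).1.symm).2 h3))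

theorem sl_neg (W : ι → ℝ × ℝ) (Z : ι → ℝ) (q r : ι) :
    sl W (fun p => -Z p) q r = -sl W Z q r := by
  unfold sl
  ring

theorem E3_neg (W : ι → ℝ × ℝ) (Z : ι → ℝ) (p q r : ι) :
    E3 W (fun p => -Z p) p q r = -E3 W Z p q r := by
  unfold E3
  ring

/-- the mirror image -/
theorem Sys.mirror {Q : Finset ι} {W : ι → ℝ × ℝ} {Z : ι → ℝ} {T : ι → ι → Prop}
    (h : Sys Q W Z T) : Sys Q W (fun p => -Z p) T := by
  refine ⟨⟨h.g.hD, ?_, ?_, ?_⟩, h.sy, ?_⟩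
  · intro p hp q hq r hr h1 h2 h3
    rw [E3_neg]
    exact neg_ne_zero.2 (h.g.hE p hp q hq r hr h1 h2 h3)
  · intro p hp
    exact neg_ne_zero.2 (h.g.hZ p hp)
  · intro p hp q hq r hr s hs h1 h2 h3 h4 h5 h6
    rw [E3_neg, E3_neg]
    have := h.g.h4 p hp q hq r hr s hs h1 h2 h3 h4 h5 h6
    intro h7
    apply this
    linear_combination h7
  · intro q hq a ha b hb hab hTa hTb hno
    rw [sl_neg, sl_neg] at hab
    have h1 := h.co q hq b hb a ha (by linarith) hTb hTa (fun c hc h2 h3 => hno c hc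
      (by rw [sl_neg, sl_neg]; linarith) (by rw [sl_neg, sl_neg]; linarith))
    tauto

/-- a forward arc of the relation -/
structure Arc (Q : Finset ι) (W : ι → ℝ × ℝ) (T : ι → ι → Prop) (g : ι × ι) : Prop where
  m1 : g.1 ∈ Q
  m2 : g.2 ∈ Q
  pos : 0 < dd (W g.1) (W g.2)
  lv : T g.1 g.2

theorem Arc.ne {Q : Finset ι} {W : ι → ℝ × ℝ} {T : ι → ι → Prop} {g : ι × ι}
    (h : Arc Q W T g) : g.1 ≠ g.2 := by
  intro h1
  have := h.pos
  rw [h1, dd_self] at this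
  exact lt_irrefl _ this

/-- the concave successor of an arc -/
structure Nx (Q : Finset ι) (W : ι → ℝ × ℝ) (Z : ι → ℝ) (T : ι → ι → Prop) (g g' : ι × ι) :
    Prop where
  a1 : Arc Q W T g
  a2 : Arc Q W T g'
  eq : g'.1 = g.2
  lt : sl W Z g.2 g'.2 < sl W Z g.2 g.1
  no : ∀ c ∈ Q.erase g.2, sl W Z g.2 g'.2 < sl W Z g.2 c → sl W Z g.2 c < sl W Z g.2 g.1 →
    ¬ T g.2 c

/-- the arc arrives with the lowest slope -/
def Low (Q : Finset ι) (W : ι → ℝ × ℝ) (Z : ι → ℝ) (T : ι → ι → Prop) (g : ι × ι) : Prop :=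
  ∀ c ∈ Q.erase g.2, T g.2 c → sl W Z g.2 g.1 ≤ sl W Z g.2 c

/-- the arc leaves with the highest slope -/
def High (Q : Finset ι) (W : ι → ℝ × ℝ) (Z : ι → ℝ) (T : ι → ι → Prop) (g : ι × ι) : Prop :=
  ∀ c ∈ Q.erase g.1, T g.1 c → sl W Z g.1 c ≤ sl W Z g.1 g.2

section

variable {Q : Finset ι} {W : ι → ℝ × ℝ} {Z : ι → ℝ} {T : ι → ι → Prop}

theorem Nx.left_unique (hS : Sys Q W Z T) {g1 g2 g' : ι × ι} (h1 : Nx Q W Z T g1 g')
    (h2 : Nx Q W Z T g2 g') : g1 = g2 := by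
  have e : g1.2 = g2.2 := h1.eq.symm.trans h2.eq
  have m1 : g1.1 ∈ Q.erase g1.2 := mem_erase.2 ⟨h1.a1.ne, h1.a1.m1⟩
  have m2 : g2.1 ∈ Q.erase g2.2 := mem_erase.2 ⟨h2.a1.ne, h2.a1.m1⟩
  have key : sl W Z g1.2 g1.1 = sl W Z g1.2 g2.1 := by
    rcases lt_trichotomy (sl W Z g1.2 g1.1) (sl W Z g1.2 g2.1) with h | h | h
    · refine absurd (hS.sy _ _ h1.a1.lv) ?_
      rw [e]
      exact h2.no g1.1 (e ▸ m1) (e ▸ h1.lt) (e ▸ h)
    · exact h
    · refine absurd (hS.sy _ _ h2.a1.lv) ?_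
      rw [← e]
      exact h1.no g2.1 (e ▸ m2) (e ▸ h2.lt) h
  exact Prod.ext (sl_inj hS.g h1.a1.m2 (mem_coe.2 m1) (mem_coe.2 (e ▸ m2)) key) e

theorem Nx.right_unique (hS : Sys Q W Z T) {g g1 g2 : ι × ι} (h1 : Nx Q W Z T g g1)
    (h2 : Nx Q W Z T g g2) : g1 = g2 := by
  have e1 := h1.eq
  have e2 := h2.eq
  have m1 : g1.2 ∈ Q.erase g.2 := mem_erase.2 ⟨e1 ▸ h1.a2.ne.symm, h1.a2.m2⟩
  have m2 : g2.2 ∈ Q.erase g.2 := mem_erase.2 ⟨e2 ▸ h2.a2.ne.symm, h2.a2.m2⟩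
  have key : sl W Z g.2 g1.2 = sl W Z g.2 g2.2 := by
    rcases lt_trichotomy (sl W Z g.2 g1.2) (sl W Z g.2 g2.2) with h | h | h
    · exact absurd (e2 ▸ h2.a2.lv) (h1.no g2.2 m2 h h2.lt)
    · exact h
    · exact absurd (e1 ▸ h1.a2.lv) (h2.no g1.2 m1 h h1.lt)
  exact Prod.ext (e1.trans e2.symm) (sl_inj hS.g h1.a1.m2 (mem_coe.2 m1) (mem_coe.2 m2) key)

theorem Low.unique (hS : Sys Q W Z T) {g1 g2 : ι × ι} (a1 : Arc Q W T g1) (a2 : Arc Q W T g2)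
    (h1 : Low Q W Z T g1) (h2 : Low Q W Z T g2) (e : g1.2 = g2.2) : g1 = g2 := by
  have m1 : g1.1 ∈ Q.erase g1.2 := mem_erase.2 ⟨a1.ne, a1.m1⟩
  have m2 : g2.1 ∈ Q.erase g2.2 := mem_erase.2 ⟨a2.ne, a2.m1⟩
  have k1 := h1 g2.1 (e ▸ m2) (e ▸ hS.sy _ _ a2.lv)
  have k2 := h2 g1.1 (e ▸ m1) (e ▸ hS.sy _ _ a1.lv)
  rw [← e] at k2
  exact Prod.ext (sl_inj hS.g a1.m2 (mem_coe.2 m1) (mem_coe.2 (e ▸ m2)) (le_antisymm k1 k2)) e

theorem High.unique (hS : Sys Q W Z T) {g1 g2 : ι × ι} (a1 : Arc Q W T g1) (a2 : Arc Q W T g2)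
    (h1 : High Q W Z T g1) (h2 : High Q W Z T g2) (e : g1.1 = g2.1) : g1 = g2 := by
  have m1 : g1.2 ∈ Q.erase g1.1 := mem_erase.2 ⟨a1.ne.symm, a1.m2⟩
  have m2 : g2.2 ∈ Q.erase g2.1 := mem_erase.2 ⟨a2.ne.symm, a2.m2⟩
  have k1 := h1 g2.2 (e ▸ m2) (e ▸ a2.lv)
  have k2 := h2 g1.2 (e ▸ m1) (e ▸ a1.lv)
  rw [← e] at k2
  exact Prod.ext e (sl_inj hS.g a1.m1 (mem_coe.2 m1) (mem_coe.2 (e ▸ m2)) (le_antisymm k2 k1))

theorem Nx.exists_right (hS : Sys Q W Z T) {g : ι × ι} (a : Arc Q W T g) :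
    (∃ g', Nx Q W Z T g g') ∨ Low Q W Z T g := by
  by_cases hL : Low Q W Z T g
  · exact Or.inr hL
  left
  unfold Low at hL
  push Not at hL
  obtain ⟨c0, hc0, hT0, hlt0⟩ := hL
  have m1 : g.1 ∈ Q.erase g.2 := mem_erase.2 ⟨a.ne, a.m1⟩
  obtain ⟨r, hr, hmax⟩ := ((Q.erase g.2).filter fun c => T g.2 c ∧
    sl W Z g.2 c < sl W Z g.2 g.1).exists_max_image (sl W Z g.2)
    ⟨c0, mem_filter.2 ⟨hc0, hT0, hlt0⟩⟩
  rw [mem_filter] at hr
  have hrQ := (mem_erase.1 hr.1).2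
  have hr2 : g.2 ≠ r := (mem_erase.1 hr.1).1.symm
  have hno : ∀ c ∈ Q.erase g.2, sl W Z g.2 r < sl W Z g.2 c → sl W Z g.2 c < sl W Z g.2 g.1 →
      ¬ T g.2 c := by
    intro c hc h1 h2 h3
    have := hmax c (mem_filter.2 ⟨hc, h3, h2⟩)
    linarith
  have hc := hS.co g.2 a.m2 r hr.1 g.1 m1 hr.2.2 hr.2.1 (hS.sy _ _ a.lv) hno
  have hnb : ¬ ah W g.2 g.1 := by
    unfold ah
    rw [dd_swap]
    have := a.pos
    linarith
  have har : ah W g.2 r := hc.2 hnb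
  exact ⟨(g.2, r), a, ⟨a.m2, hrQ, har, hr.2.1⟩, rfl, hr.2.2, hno⟩

theorem Nx.exists_left (hS : Sys Q W Z T) {g : ι × ι} (a : Arc Q W T g) :
    (∃ g', Nx Q W Z T g' g) ∨ High Q W Z T g := by
  by_cases hL : High Q W Z T g
  · exact Or.inr hL
  left
  unfold High at hL
  push Not at hL
  obtain ⟨c0, hc0, hT0, hlt0⟩ := hL
  have m1 : g.2 ∈ Q.erase g.1 := mem_erase.2 ⟨a.ne.symm, a.m2⟩
  obtain ⟨r, hr, hmin⟩ := ((Q.erase g.1).filter fun c => T g.1 c ∧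
    sl W Z g.1 g.2 < sl W Z g.1 c).exists_min_image (sl W Z g.1)
    ⟨c0, mem_filter.2 ⟨hc0, hT0, hlt0⟩⟩
  rw [mem_filter] at hr
  have hrQ := (mem_erase.1 hr.1).2
  have hr2 : g.1 ≠ r := (mem_erase.1 hr.1).1.symm
  have hno : ∀ c ∈ Q.erase g.1, sl W Z g.1 g.2 < sl W Z g.1 c → sl W Z g.1 c < sl W Z g.1 r →
      ¬ T g.1 c := by
    intro c hc h1 h2 h3
    have := hmin c (mem_filter.2 ⟨hc, h3, h1⟩)
    linarith
  have hc := hS.co g.1 a.m1 g.2 m1 r hr.1 hr.2.2 a.lv hr.2.1 hno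
  have hnr : ¬ ah W g.1 r := hc.1 a.pos
  have hpos : 0 < dd (W r) (W g.1) := by
    have h1 := hS.g.hD g.1 a.m1 r hrQ hr2
    unfold ah at hnr
    rw [dd_swap]
    rcases lt_or_gt_of_ne h1 with h2 | h2
    · linarith
    · exact absurd h2 hnr
  exact ⟨(r, g.1), ⟨hrQ, a.m1, hpos, hS.sy _ _ hr.2.1⟩, a, rfl, hr.2.2, hno⟩

theorem Nx.turn {g g' : ι × ι} (h : Nx Q W Z T g g') :
    E3 W Z g.1 g.2 g'.2 < 0 := by
  have e := h.eq
  have h1 : dd (W g.2) (W g.1) < 0 := by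
    rw [dd_swap]
    have := h.a1.pos
    linarith
  have h2 : 0 < dd (W g.2) (W g'.2) := e ▸ h.a2.pos
  have h3 := E3_sl W Z h1.ne h2.ne'
  have h4 : E3 W Z g.1 g.2 g'.2 = -E3 W Z g.2 g.1 g'.2 := by
    unfold E3 dd
    ring
  rw [h4, h3]
  have h5 : 0 < dd (W g.2) (W g.1) * dd (W g.2) (W g'.2) *
      (sl W Z g.2 g'.2 - sl W Z g.2 g.1) :=
    mul_pos_of_neg_of_neg (mul_neg_of_neg_of_pos h1 h2) (sub_neg.2 h.lt)
  linarith

end

/-- the height of the great circle of the arc `g` over the direction `h` -/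
noncomputable def La (W : ι → ℝ × ℝ) (Z : ι → ℝ) (g : ι × ι) (h : ℝ × ℝ) : ℝ :=
  (dd h (W g.2) * Z g.1 + dd (W g.1) h * Z g.2) / dd (W g.1) (W g.2)

theorem La_left (W : ι → ℝ × ℝ) (Z : ι → ℝ) {g : ι × ι} (h : 0 < dd (W g.1) (W g.2)) :
    La W Z g (W g.1) = Z g.1 := by
  unfold La
  rw [dd_self, zero_mul, add_zero]
  field_simp

theorem La_right (W : ι → ℝ × ℝ) (Z : ι → ℝ) {g : ι × ι} (h : 0 < dd (W g.1) (W g.2)) :
    La W Z g (W g.2) = Z g.2 := by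
  unfold La
  rw [dd_self, zero_mul, zero_add]
  field_simp

theorem La_comb (W : ι → ℝ × ℝ) (Z : ι → ℝ) (g : ι × ι) (h1 h2 : ℝ × ℝ) (a b : ℝ) :
    La W Z g (a * h1.1 + b * h2.1, a * h1.2 + b * h2.2) = a * La W Z g h1 + b * La W Z g h2 := by
  unfold La dd
  ring

/-- after the common vertex the successor is lower -/
theorem La_le {Q : Finset ι} {W : ι → ℝ × ℝ} {Z : ι → ℝ} {T : ι → ι → Prop} {g g' : ι × ι}
    (h : Nx Q W Z T g g') (v : ℝ × ℝ) :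
    (0 ≤ dd (W g.2) v → La W Z g' v ≤ La W Z g v) ∧
    (dd (W g.2) v ≤ 0 → La W Z g v ≤ La W Z g' v) := by
  have e := h.eq
  have h1 : 0 < dd (W g.1) (W g.2) := h.a1.pos
  have h2 : 0 < dd (W g.2) (W g'.2) := e ▸ h.a2.pos
  have h3 : La W Z g' v - La W Z g v =
      dd (W g.2) v * E3 W Z g.1 g.2 g'.2 / (dd (W g.1) (W g.2) * dd (W g.2) (W g'.2)) := by
    unfold La
    rw [e, div_sub_div _ _ h2.ne' h1.ne', div_eq_div_iff (mul_ne_zero h2.ne' h1.ne')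
      (mul_ne_zero h1.ne' h2.ne')]
    unfold E3 dd
    ring
  have h4 := h.turn
  have h5 : 0 < dd (W g.1) (W g.2) * dd (W g.2) (W g'.2) := mul_pos h1 h2
  constructor
  · intro h6
    have : dd (W g.2) v * E3 W Z g.1 g.2 g'.2 / (dd (W g.1) (W g.2) * dd (W g.2) (W g'.2)) ≤ 0 :=
      div_nonpos_of_nonpos_of_nonneg (mul_nonpos_of_nonneg_of_nonpos h6 h4.le) h5.le
    linarith
  · intro h6
    have : 0 ≤ dd (W g.2) v * E3 W Z g.1 g.2 g'.2 / (dd (W g.1) (W g.2) * dd (W g.2) (W g'.2)) :=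
      div_nonneg (mul_nonneg_of_nonpos_of_nonpos h6 h4.le) h5.le
    linarith

end Pool.Agent.HpE
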