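import Pool.Agent.HpE.SumD

/-!
# Halving partitions and triangles of the middle levels only; halving edges
-/

namespace Pool.Agent.HpE

open Finset Classical SmH HpD

variable {n : ℕ}

theorem halvings_le_of2 {x : Fin n × Fin 3 → ℝ} (hx : GenPos x) (hn : 4 ≤ n) (z : Fin 3 → ℝ)
    (hz : ∀ p q, p ≠ q → ev z x p ≠ ev z x q) (B : ℕ)
    (hB : ∀ k, n ≤ 2 * k + 6 → 2 * k ≤ n → (tri x z k).card ≤ B) :
    Set.ncard {P : Finset (Finset (Fin n)) |
      ∃ A : Finset (Fin n), 2 * A.card = n ∧ Sep x A ∧ P = {A, Aᶜ}} ≤ 8 * B := by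
  by_cases he : ∃ m, 2 * m = n
  · obtain ⟨m, hm⟩ := he
    let U : Finset (Finset (Finset (Fin n))) := (univ : Finset (Finset (Fin 3))).biUnion fun S =>
      (tri x z (m - S.card)).image fun c => {rec' x c S, (rec' x c S)ᶜ}
    have h1 : {P : Finset (Finset (Fin n)) |
        ∃ A : Finset (Fin n), 2 * A.card = n ∧ Sep x A ∧ P = {A, Aᶜ}} ⊆ (U : Set _) := by
      rintro P ⟨A, hA, hs, rfl⟩
      obtain ⟨S, c, h2, h3⟩ := exists_triple hx hn z hz hm hA hs
      rw [mem_coe, mem_biUnion]
      exact ⟨S, mem_univ _, mem_image.2 ⟨c, h2, h3.symm⟩⟩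
    have h2 : ∀ S : Finset (Fin 3), (tri x z (m - S.card)).card ≤ B := by
      intro S
      have h3 : S.card ≤ 3 := by
        have := card_le_univ S
        rwa [Fintype.card_fin] at this
      exact hB _ (by omega) (by omega)
    calc _ ≤ (U : Set _).ncard := Set.ncard_le_ncard h1 (finite_toSet U)
      _ = U.card := Set.ncard_coe_finset U
      _ ≤ ∑ S : Finset (Fin 3), ((tri x z (m - S.card)).image fun c =>
          ({rec' x c S, (rec' x c S)ᶜ} : Finset (Finset (Fin n)))).card := card_biUnion_le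
      _ ≤ ∑ _S : Finset (Fin 3), B := sum_le_sum fun S _ => card_image_le.trans (h2 S)
      _ = 8 * B := by simp
  · have h1 : {P : Finset (Finset (Fin n)) |
        ∃ A : Finset (Fin n), 2 * A.card = n ∧ Sep x A ∧ P = {A, Aᶜ}} = ∅ := by
      ext P
      simp only [Set.mem_ofPred_eq, Set.mem_empty_iff_false, iff_false]
      rintro ⟨A, hA, _⟩
      exact he ⟨_, hA⟩
    rw [h1]
    simp

/-- a triangle of a middle level lies in a plane with at most half of the points on each side -/
theorem exists_plane {x : Fin n × Fin 3 → ℝ} (hx : GenPos x) (hn : 4 ≤ n) {k : ℕ} (hk1 : n ≤ 2 * k + 6)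
    (hk2 : 2 * k ≤ n) {a p q : Fin n} (hp : p ≠ a) (hq : q ≠ a) (hpq : p ≠ q)
    (h : Ty x k a p q) : ∃ u : Fin 3 → ℝ, u ≠ 0 ∧ ev u x p = ev u x q ∧ ev u x a = ev u x p ∧
      2 * (univ.filter fun i => ev u x p < ev u x i).card ≤ n ∧
      2 * (univ.filter fun i => ev u x i < ev u x p).card ≤ n := by
  have hc := count_three hx hp hq hpq
  let u : Fin 3 → ℝ := ![df x a p 1 * df x a q 2 - df x a p 2 * df x a q 1,
    df x a p 2 * df x a q 0 - df x a p 0 * df x a q 2,
    df x a p 0 * df x a q 1 - df x a p 1 * df x a q 0]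
  have hu : ∀ i, ev u x i - ev u x a = dt x a p q i := by
    intro i
    rw [← dot_df]
    unfold dot dt det3
    simp only [u, Matrix.cons_val_zero, Matrix.cons_val_one, Matrix.cons_val]
    ring
  have hpa : ev u x p = ev u x a := by
    have := hu p
    rw [dt_mid] at this
    linarith
  have hqa : ev u x q = ev u x a := by
    have := hu q
    rw [dt_right] at this
    linarith
  have e1 : (univ.filter fun i => ev u x p < ev u x i) =
      univ.filter fun i => 0 < dt x a p q i := by
    apply filter_congr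
    intro i _
    rw [← hu, hpa, sub_pos]
  have e2 : (univ.filter fun i => ev u x i < ev u x p) =
      univ.filter fun i => dt x a p q i < 0 := by
    apply filter_congr
    intro i _
    rw [← hu, hpa, sub_neg]
  refine ⟨u, ?_, hpa.trans hqa.symm, hpa.symm, ?_, ?_⟩
  · intro h0
    have h1 : ∀ i, dt x a p q i = 0 := by
      intro i
      rw [← hu, h0]
      unfold ev
      simp
    simp only [h1, lt_irrefl, filter_false, card_empty] at hc
    omega
  · rw [e1]
    rcases h with h | h <;> omega
  · rw [e2]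
    rcases h with h | h <;> omega

end Pool.Agent.HpE
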