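import Pool.Agent.HpE.Chain

/-!
# Counting pairs of valleys by crossings
-/

namespace Pool.Agent.HpE

open Finset Classical

variable {ι : Type*} {Q : Finset ι} {W : ι → ℝ × ℝ} {Z : ι → ℝ} {T : ι → ι → Prop}

/-- The crossings, for a general relation. -/
noncomputable def CrT (Q : Finset ι) (W : ι → ℝ × ℝ) (Z : ι → ℝ) (T : ι → ι → Prop) :
    Finset ((ι × ι) × (ι × ι)) :=
  ((Q ×ˢ Q) ×ˢ (Q ×ˢ Q)).filter fun c =>
    T c.1.1 c.1.2 ∧ T c.2.1 c.2.2 ∧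
    0 < dd (W c.1.1) (W c.1.2) ∧ 0 < dd (W c.2.1) (W c.2.2) ∧
    c.1.1 ≠ c.2.1 ∧ c.1.1 ≠ c.2.2 ∧ c.1.2 ≠ c.2.1 ∧ c.1.2 ≠ c.2.2 ∧
    ∃ α β γ δ : ℝ, 0 < α ∧ 0 < β ∧ 0 < γ ∧ 0 < δ ∧
      α * (W c.1.1).1 + β * (W c.1.2).1 = γ * (W c.2.1).1 + δ * (W c.2.2).1 ∧
      α * (W c.1.1).2 + β * (W c.1.2).2 = γ * (W c.2.1).2 + δ * (W c.2.2).2 ∧
      α * Z c.1.1 + β * Z c.1.2 = γ * Z c.2.1 + δ * Z c.2.2

/-- pairs of pairs with a common entry -/
noncomputable def Sh (Q : Finset ι) : Finset ((ι × ι) × (ι × ι)) :=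
  ((Q ×ˢ Q) ×ˢ (Q ×ˢ Q)).filter fun c =>
    c.1.1 = c.2.1 ∨ c.1.1 = c.2.2 ∨ c.1.2 = c.2.1 ∨ c.1.2 = c.2.2

theorem card_Sh (Q : Finset ι) : (Sh Q).card ≤ 4 * Q.card ^ 3 := by
  have h1 : Sh Q ⊆ (((Q ×ˢ (Q ×ˢ Q)).image fun t => ((t.1, t.2.1), (t.1, t.2.2))) ∪
      ((Q ×ˢ (Q ×ˢ Q)).image fun t => ((t.1, t.2.1), (t.2.2, t.1)))) ∪
      (((Q ×ˢ (Q ×ˢ Q)).image fun t => ((t.2.1, t.1), (t.1, t.2.2))) ∪
      ((Q ×ˢ (Q ×ˢ Q)).image fun t => ((t.2.1, t.1), (t.2.2, t.1)))) := by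
    rintro ⟨⟨a, b⟩, ⟨c, d⟩⟩ h
    simp only [Sh, mem_filter, mem_product] at h
    obtain ⟨⟨⟨ha, hb⟩, hc, hd⟩, h⟩ := h
    simp only [mem_union, mem_image, mem_product, Prod.exists, Prod.mk.injEq]
    rcases h with h | h | h | h
    · subst h
      exact Or.inl (Or.inl ⟨a, b, d, ⟨ha, hb, hd⟩, ⟨rfl, rfl⟩, rfl, rfl⟩)
    · subst h
      exact Or.inl (Or.inr ⟨a, b, c, ⟨ha, hb, hc⟩, ⟨rfl, rfl⟩, rfl, rfl⟩)
    · subst h
      exact Or.inr (Or.inl ⟨b, a, d, ⟨hb, ha, hd⟩, ⟨rfl, rfl⟩, rfl, rfl⟩)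
    · subst h
      exact Or.inr (Or.inr ⟨b, a, c, ⟨hb, ha, hc⟩, ⟨rfl, rfl⟩, rfl, rfl⟩)
  have h2 : (Q ×ˢ (Q ×ˢ Q)).card = Q.card ^ 3 := by
    rw [card_product, card_product]
    ring
  calc (Sh Q).card ≤ _ := card_le_card h1
    _ ≤ _ := card_union_le _ _
    _ ≤ _ := add_le_add (card_union_le _ _) (card_union_le _ _)
    _ ≤ (Q.card ^ 3 + Q.card ^ 3) + (Q.card ^ 3 + Q.card ^ 3) :=
        add_le_add (add_le_add (card_image_le.trans h2.le) (card_image_le.trans h2.le))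
          (add_le_add (card_image_le.trans h2.le) (card_image_le.trans h2.le))
    _ = _ := by ring

theorem off (hS : Sys Q W Z T) {a : ι} {k : ι × ι} (ha : a ∈ Q) (hk : Arc Q W T k)
    (h1 : a ≠ k.1) (h2 : a ≠ k.2) {β γ δ : ℝ}
    (e1 : β * (W a).1 = γ * (W k.1).1 + δ * (W k.2).1)
    (e2 : β * (W a).2 = γ * (W k.1).2 + δ * (W k.2).2)
    (e3 : β * Z a = γ * Z k.1 + δ * Z k.2) : β = 0 := by
  have h3 : β * E3 W Z a k.1 k.2 = 0 := by
    unfold E3 dd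
    linear_combination ((W k.1).1 * (W k.2).2 - (W k.1).2 * (W k.2).1) * e3 +
      (-Z k.1 * (W k.2).2 + Z k.2 * (W k.1).2) * e1 +
      (Z k.1 * (W k.2).1 - Z k.2 * (W k.1).1) * e2
  exact (mul_eq_zero.1 h3).resolve_right
    (hS.g.hE a ha k.1 hk.m1 k.2 hk.m2 h1 h2 hk.ne)

theorem meet_class (hS : Sys Q W Z T) {c : ℝ × ℝ} {g k : ι × ι} (ag : Arc Q W T g)
    (ak : Arc Q W T k) (m : Meet W Z c g k) : (g, k) ∈ CrT Q W Z T ∪ Sh Q := by
  rw [mem_union]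
  have hmem : (g, k) ∈ ((Q ×ˢ Q) ×ˢ (Q ×ˢ Q)) :=
    mem_product.2 ⟨mem_product.2 ⟨ag.m1, ag.m2⟩, mem_product.2 ⟨ak.m1, ak.m2⟩⟩
  by_cases hsh : g.1 = k.1 ∨ g.1 = k.2 ∨ g.2 = k.1 ∨ g.2 = k.2
  · right
    exact mem_filter.2 ⟨hmem, hsh⟩
  left
  push Not at hsh
  obtain ⟨n1, n2, n3, n4⟩ := hsh
  obtain ⟨v, hc, g1, g2, k1, k2, hL⟩ := m
  have gp := ag.pos
  have kp := ak.pos
  set α := dd v (W g.2) / dd (W g.1) (W g.2) with hα
  set β := dd (W g.1) v / dd (W g.1) (W g.2) with hβ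
  set γ := dd v (W k.2) / dd (W k.1) (W k.2) with hγ
  set δ := dd (W k.1) v / dd (W k.1) (W k.2) with hδ
  have a1 : α * (W g.1).1 + β * (W g.2).1 = v.1 := by
    rw [hα, hβ]
    field_simp
    unfold dd
    ring
  have a2 : α * (W g.1).2 + β * (W g.2).2 = v.2 := by
    rw [hα, hβ]
    field_simp
    unfold dd
    ring
  have a3 : γ * (W k.1).1 + δ * (W k.2).1 = v.1 := by
    rw [hγ, hδ]
    field_simp
    unfold dd
    ring
  have a4 : γ * (W k.1).2 + δ * (W k.2).2 = v.2 := by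
    rw [hγ, hδ]
    field_simp
    unfold dd
    ring
  have a5 : α * Z g.1 + β * Z g.2 = γ * Z k.1 + δ * Z k.2 := by
    have b1 : La W Z g v = α * Z g.1 + β * Z g.2 := by
      rw [hα, hβ]
      unfold La
      ring
    have b2 : La W Z k v = γ * Z k.1 + δ * Z k.2 := by
      rw [hγ, hδ]
      unfold La
      ring
    rw [← b1, ← b2, hL]
  have hα0 : 0 ≤ α := div_nonneg g2 gp.le
  have hβ0 : 0 ≤ β := div_nonneg g1 gp.le
  have hγ0 : 0 ≤ γ := div_nonneg k2 kp.le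
  have hδ0 : 0 ≤ δ := div_nonneg k1 kp.le
  have hv : ¬ (v.1 = 0 ∧ v.2 = 0) := by
    rintro ⟨h1, h2⟩
    unfold dd at hc
    rw [h1, h2] at hc
    simp at hc
  have hα1 : α ≠ 0 := by
    intro h
    rw [h, zero_mul, zero_add] at a1 a2 a5
    have := off hS ag.m2 ak n3 n4 (a1.trans a3.symm) (a2.trans a4.symm) a5
    rw [this, zero_mul] at a1 a2
    exact hv ⟨a1.symm, a2.symm⟩
  have hβ1 : β ≠ 0 := by
    intro h
    rw [h, zero_mul, add_zero] at a1 a2 a5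
    have := off hS ag.m1 ak n1 n2 (a1.trans a3.symm) (a2.trans a4.symm) a5
    rw [this, zero_mul] at a1 a2
    exact hv ⟨a1.symm, a2.symm⟩
  have hγ1 : γ ≠ 0 := by
    intro h
    rw [h, zero_mul, zero_add] at a3 a4 a5
    have := off hS ak.m2 ag n2.symm n4.symm (a3.trans a1.symm) (a4.trans a2.symm) a5.symm
    rw [this, zero_mul] at a3 a4
    exact hv ⟨a3.symm, a4.symm⟩
  have hδ1 : δ ≠ 0 := by
    intro h
    rw [h, zero_mul, add_zero] at a3 a4 a5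
    have := off hS ak.m1 ag n1.symm n3.symm (a3.trans a1.symm) (a4.trans a2.symm) a5.symm
    rw [this, zero_mul] at a3 a4
    exact hv ⟨a3.symm, a4.symm⟩
  exact mem_filter.2 ⟨hmem, ag.lv, ak.lv, gp, kp, n1, n2, n3, n4, α, β, γ, δ,
    lt_of_le_of_ne hα0 hα1.symm, lt_of_le_of_ne hβ0 hβ1.symm, lt_of_le_of_ne hγ0 hγ1.symm,
    lt_of_le_of_ne hδ0 hδ1.symm, a1.trans a3.symm, a2.trans a4.symm, a5⟩

/-- the descending arcs -/
noncomputable def Dn (Q : Finset ι) (W : ι → ℝ × ℝ) (Z : ι → ℝ) (T : ι → ι → Prop) :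
    Finset (ι × ι) := (Q ×ˢ Q).filter fun g => Arc Q W T g ∧ Down Z g

/-- the ascending arcs -/
noncomputable def Un (Q : Finset ι) (W : ι → ℝ × ℝ) (Z : ι → ℝ) (T : ι → ι → Prop) :
    Finset (ι × ι) := (Q ×ˢ Q).filter fun g => Arc Q W T g ∧ Up Z g

theorem card_Dn (Q : Finset ι) (W : ι → ℝ × ℝ) (Z : ι → ℝ) (T : ι → ι → Prop) :
    (Dn Q W Z T).card ≤ Q.card ^ 2 := by
  refine (card_filter_le _ _).trans ?_
  rw [card_product]
  exact (sq _).symm.le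

theorem card_Un (Q : Finset ι) (W : ι → ℝ × ℝ) (Z : ι → ℝ) (T : ι → ι → Prop) :
    (Un Q W Z T).card ≤ Q.card ^ 2 := by
  refine (card_filter_le _ _).trans ?_
  rw [card_product]
  exact (sq _).symm.le

theorem pairs_le (hS : Sys Q W Z T) :
    (((Dn Q W Z T) ×ˢ (Un Q W Z T)).filter fun c =>
      0 < dd (cf W Z c.1) (ce W Z c.2)).card ≤ (CrT Q W Z T).card + 6 * Q.card ^ 3 := by
  set BF := (Dn Q W Z T).filter fun f => ∃ g, Fwd Q W Z T f g ∧ 0 < dd (cf W Z f) (W g.2) ∧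
    Low Q W Z T g with hBF
  set BE := (Un Q W Z T).filter fun e => ∃ k, Bwd Q W Z T e k ∧ 0 < dd (W k.1) (ce W Z e) ∧
    High Q W Z T k with hBE
  set G := ((Dn Q W Z T) ×ˢ (Un Q W Z T)).filter fun c =>
    0 < dd (cf W Z c.1) (ce W Z c.2) ∧ c.1 ∉ BF ∧ c.2 ∉ BE with hG
  have h1 : (((Dn Q W Z T) ×ˢ (Un Q W Z T)).filter fun c =>
      0 < dd (cf W Z c.1) (ce W Z c.2)) ⊆ (BF ×ˢ (Un Q W Z T) ∪ (Dn Q W Z T) ×ˢ BE) ∪ G := by
    rintro ⟨f, e⟩ h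
    rw [mem_filter, mem_product] at h
    obtain ⟨⟨hf, he⟩, h⟩ := h
    rw [mem_union, mem_union, mem_product, mem_product]
    by_cases c1 : f ∈ BF
    · exact Or.inl (Or.inl ⟨c1, he⟩)
    by_cases c2 : e ∈ BE
    · exact Or.inl (Or.inr ⟨hf, c2⟩)
    · exact Or.inr (mem_filter.2 ⟨mem_product.2 ⟨hf, he⟩, h, c1, c2⟩)
  have h2 : BF.card ≤ Q.card := by
    refine card_le_card_of_forall_subsingleton (fun f q => ∃ g, Fwd Q W Z T f g ∧
      0 < dd (cf W Z f) (W g.2) ∧ Low Q W Z T g ∧ g.2 = q) ?_ ?_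
    · intro f hf
      obtain ⟨hf1, g, c1, c2, c3⟩ := mem_filter.1 hf
      have hfa := (mem_filter.1 hf1).2.1
      exact ⟨g.2, (c1.arc hfa).m2, g, c1, c2, c3, rfl⟩
    · intro q _ f hf f' hf'
      obtain ⟨hf1, g, c1, c2, c3, c4⟩ := hf
      obtain ⟨hf1', g', c1', c2', c3', c4'⟩ := hf'
      have hfa := (mem_filter.1 (mem_filter.1 (mem_coe.1 hf1)).1).2
      have hfa' := (mem_filter.1 (mem_filter.1 (mem_coe.1 hf1')).1).2
      have hgg := Low.unique hS (c1.arc hfa.1) (c1'.arc hfa'.1) c3 c3' (c4.trans c4'.symm)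
      subst hgg
      exact Fwd.unique hS hfa.2 hfa'.2 c1 c1'
  have h3 : BE.card ≤ Q.card := by
    refine card_le_card_of_forall_subsingleton (fun e q => ∃ k, Bwd Q W Z T e k ∧
      0 < dd (W k.1) (ce W Z e) ∧ High Q W Z T k ∧ k.1 = q) ?_ ?_
    · intro f hf
      obtain ⟨hf1, g, c1, c2, c3⟩ := mem_filter.1 hf
      have hfa := (mem_filter.1 hf1).2.1
      exact ⟨g.1, (c1.arc hfa).m1, g, c1, c2, c3, rfl⟩
    · intro q _ f hf f' hf'
      obtain ⟨hf1, g, c1, c2, c3, c4⟩ := hf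
      obtain ⟨hf1', g', c1', c2', c3', c4'⟩ := hf'
      have hfa := (mem_filter.1 (mem_filter.1 (mem_coe.1 hf1)).1).2
      have hfa' := (mem_filter.1 (mem_filter.1 (mem_coe.1 hf1')).1).2
      have hgg := High.unique hS (c1.arc hfa.1) (c1'.arc hfa'.1) c3 c3' (c4.trans c4'.symm)
      subst hgg
      exact Bwd.unique hS hfa.2 hfa'.2 c1 c1'
  have h4 : G.card ≤ (CrT Q W Z T ∪ Sh Q).card := by
    refine card_le_card_of_forall_subsingleton (fun c d => Fwd Q W Z T c.1 d.1 ∧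
      Bwd Q W Z T c.2 d.2) ?_ ?_
    · rintro ⟨f, e⟩ h
      rw [hG, mem_filter, mem_product] at h
      obtain ⟨⟨hf, he⟩, hfe, hnf, hne⟩ := h
      have hf' := (mem_filter.1 hf).2
      have he' := (mem_filter.1 he).2
      obtain ⟨g, k, c1, c2, c3⟩ := meeting hS hf'.1 he'.1 hf'.2 he'.2 hfe
        (fun g c1 c2 c3 => hnf (mem_filter.2 ⟨hf, g, c1, c2, c3⟩))
        (fun k c1 c2 c3 => hne (mem_filter.2 ⟨he, k, c1, c2, c3⟩))
      exact ⟨(g, k), meet_class hS (c1.arc hf'.1) (c2.arc he'.1) c3, c1, c2⟩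
    · rintro ⟨g, k⟩ _ ⟨f, e⟩ h ⟨f', e'⟩ h'
      obtain ⟨hm, c1, c2⟩ := h
      obtain ⟨hm', c1', c2'⟩ := h'
      rw [hG, mem_filter, mem_product] at hm hm'
      have hf := (mem_filter.1 hm.1.1).2
      have he := (mem_filter.1 hm.1.2).2
      have hf' := (mem_filter.1 hm'.1.1).2
      have he' := (mem_filter.1 hm'.1.2).2
      exact Prod.ext (Fwd.unique hS hf.2 hf'.2 c1 c1') (Bwd.unique hS he.2 he'.2 c2 c2')
  have h5 := card_Sh Q
  have h6 : (BF ×ˢ (Un Q W Z T)).card ≤ Q.card ^ 3 := by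
    rw [card_product]
    calc _ ≤ Q.card * Q.card ^ 2 := Nat.mul_le_mul h2 (card_Un Q W Z T)
      _ = _ := by ring
  have h7 : ((Dn Q W Z T) ×ˢ BE).card ≤ Q.card ^ 3 := by
    rw [card_product]
    calc _ ≤ Q.card ^ 2 * Q.card := Nat.mul_le_mul (card_Dn Q W Z T) h3
      _ = _ := by ring
  calc _ ≤ _ := card_le_card h1
    _ ≤ _ := card_union_le _ _
    _ ≤ ((BF ×ˢ (Un Q W Z T)).card + ((Dn Q W Z T) ×ˢ BE).card) +
        ((CrT Q W Z T).card + (Sh Q).card) :=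
        add_le_add (card_union_le _ _) (h4.trans (card_union_le _ _))
    _ ≤ _ := by omega

theorem CrT_mirror (Q : Finset ι) (W : ι → ℝ × ℝ) (Z : ι → ℝ) (T : ι → ι → Prop) :
    CrT Q W (fun p => -Z p) T = CrT Q W Z T := by
  unfold CrT
  apply filter_congr
  intro c _
  constructor
  · rintro ⟨h1, h2, h3, h4, h5, h6, h7, h8, α, β, γ, δ, b1, b2, b3, b4, b5, b6, b7⟩
    exact ⟨h1, h2, h3, h4, h5, h6, h7, h8, α, β, γ, δ, b1, b2, b3, b4, b5, b6,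
      by linear_combination -b7⟩
  · rintro ⟨h1, h2, h3, h4, h5, h6, h7, h8, α, β, γ, δ, b1, b2, b3, b4, b5, b6, b7⟩
    exact ⟨h1, h2, h3, h4, h5, h6, h7, h8, α, β, γ, δ, b1, b2, b3, b4, b5, b6,
      by linear_combination -b7⟩

theorem cf_mirror (g : ι × ι) : cf W (fun p => -Z p) g = ce W Z g := by
  unfold cf ce
  ext <;> ring

theorem ce_mirror (g : ι × ι) : ce W (fun p => -Z p) g = cf W Z g := by
  unfold cf ce
  ext <;> ring

theorem Dn_mirror (Q : Finset ι) (W : ι → ℝ × ℝ) (Z : ι → ℝ) (T : ι → ι → Prop) :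
    Dn Q W (fun p => -Z p) T = Un Q W Z T := by
  unfold Dn Un
  apply filter_congr
  intro g _
  unfold Down Up
  constructor
  · rintro ⟨h1, h2, h3⟩
    exact ⟨h1, by linarith, by linarith⟩
  · rintro ⟨h1, h2, h3⟩
    exact ⟨h1, by linarith, by linarith⟩

theorem Un_mirror (Q : Finset ι) (W : ι → ℝ × ℝ) (Z : ι → ℝ) (T : ι → ι → Prop) :
    Un Q W (fun p => -Z p) T = Dn Q W Z T := by
  unfold Dn Un
  apply filter_congr
  intro g _
  unfold Down Up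
  constructor
  · rintro ⟨h1, h2, h3⟩
    exact ⟨h1, by linarith, by linarith⟩
  · rintro ⟨h1, h2, h3⟩
    exact ⟨h1, by linarith, by linarith⟩

/-- the product of the numbers of descending and ascending arcs -/
theorem mul_le (hS : Sys Q W Z T) :
    (Dn Q W Z T).card * (Un Q W Z T).card ≤ 2 * (CrT Q W Z T).card + 16 * Q.card ^ 3 := by
  have h1 := pairs_le hS
  have h2 := pairs_le hS.mirror
  rw [CrT_mirror, Dn_mirror, Un_mirror] at h2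
  have h3 : (((Un Q W Z T) ×ˢ (Dn Q W Z T)).filter fun c =>
      0 < dd (cf W (fun p => -Z p) c.1) (ce W (fun p => -Z p) c.2)).card =
      (((Dn Q W Z T) ×ˢ (Un Q W Z T)).filter fun c =>
      dd (cf W Z c.1) (ce W Z c.2) < 0).card := by
    refine card_bij' (fun c _ => (c.2, c.1)) (fun c _ => (c.2, c.1)) ?_ ?_ ?_ ?_
    · rintro ⟨e, f⟩ h
      rw [mem_filter, mem_product, cf_mirror, ce_mirror, dd_swap] at h
      rw [mem_filter, mem_product]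
      exact ⟨⟨h.1.2, h.1.1⟩, by have := h.2; change dd (cf W Z f) (ce W Z e) < 0; linarith⟩
    · rintro ⟨f, e⟩ h
      rw [mem_filter, mem_product] at h
      rw [mem_filter, mem_product, cf_mirror, ce_mirror, dd_swap]
      exact ⟨⟨h.1.2, h.1.1⟩, by have := h.2; change 0 < -dd (cf W Z f) (ce W Z e); linarith⟩
    · rintro ⟨e, f⟩ _; rfl
    · rintro ⟨e, f⟩ _; rfl
  rw [h3] at h2
  have h4 : (((Dn Q W Z T) ×ˢ (Un Q W Z T)).filter fun c =>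
      dd (cf W Z c.1) (ce W Z c.2) = 0) ⊆ Sh Q := by
    rintro ⟨f, e⟩ h
    rw [mem_filter, mem_product] at h
    obtain ⟨⟨hf, he⟩, h⟩ := h
    have hf' := (mem_filter.1 hf).2.1
    have he' := (mem_filter.1 he).2.1
    refine mem_filter.2 ⟨mem_product.2 ⟨mem_product.2 ⟨hf'.m1, hf'.m2⟩,
      mem_product.2 ⟨he'.m1, he'.m2⟩⟩, ?_⟩
    by_contra hsh
    push Not at hsh
    obtain ⟨n1, n2, n3, n4⟩ := hsh
    apply hS.g.h4 f.1 hf'.m1 f.2 hf'.m2 e.1 he'.m1 e.2 he'.m2 hf'.ne n1 n2 n3 n4 he'.ne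
    have h5 : dd (cf W Z f) (ce W Z e) = 0 := h
    have h6 : E3 W Z f.1 e.1 e.2 * Z f.2 - E3 W Z f.2 e.1 e.2 * Z f.1 =
        -dd (cf W Z f) (ce W Z e) := by
      unfold E3 cf ce dd
      ring
    rw [h6, h5, neg_zero]
  have h5 : (Dn Q W Z T) ×ˢ (Un Q W Z T) ⊆
      (((Dn Q W Z T) ×ˢ (Un Q W Z T)).filter fun c => 0 < dd (cf W Z c.1) (ce W Z c.2)) ∪
      ((((Dn Q W Z T) ×ˢ (Un Q W Z T)).filter fun c => dd (cf W Z c.1) (ce W Z c.2) < 0) ∪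
      (((Dn Q W Z T) ×ˢ (Un Q W Z T)).filter fun c => dd (cf W Z c.1) (ce W Z c.2) = 0)) := by
    intro c hc
    rw [mem_union, mem_union, mem_filter, mem_filter, mem_filter]
    rcases lt_trichotomy (dd (cf W Z c.1) (ce W Z c.2)) 0 with h | h | h
    · exact Or.inr (Or.inl ⟨hc, h⟩)
    · exact Or.inr (Or.inr ⟨hc, h⟩)
    · exact Or.inl ⟨hc, h⟩
  have h6 := (card_le_card h4).trans (card_Sh Q)
  have h7 := card_le_card h5
  rw [card_product] at h7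
  have h8 := h7.trans ((card_union_le _ _).trans (add_le_add le_rfl (card_union_le _ _)))
  omega

end Pool.Agent.HpE
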