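import Pool.Agent.HpE.Count

/-!
# The counts of `Pairs.lean` and `Count.lean` in terms of the number of arcs
-/

namespace Pool.Agent.HpE

open Finset Classical HpD

variable {ι : Type*} {Q : Finset ι} {W : ι → ℝ × ℝ} {Z : ι → ℝ} {T : ι → ι → Prop}

/-- all forward arcs of the relation -/
noncomputable def AA (Q : Finset ι) (W : ι → ℝ × ℝ) (T : ι → ι → Prop) : Finset (ι × ι) :=
  (Q ×ˢ Q).filter fun g => Arc Q W T g

theorem mem_AA {g : ι × ι} : g ∈ AA Q W T ↔ Arc Q W T g := by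
  rw [AA, mem_filter, mem_product]
  exact ⟨fun h => h.2, fun h => ⟨⟨h.m1, h.m2⟩, h⟩⟩

/-- pairs of arcs with a common end -/
noncomputable def ShA (Q : Finset ι) (W : ι → ℝ × ℝ) (T : ι → ι → Prop) :
    Finset ((ι × ι) × (ι × ι)) :=
  ((AA Q W T) ×ˢ (AA Q W T)).filter fun c =>
    c.1.1 = c.2.1 ∨ c.1.1 = c.2.2 ∨ c.1.2 = c.2.1 ∨ c.1.2 = c.2.2

theorem card_ShA : (ShA Q W T).card ≤ 4 * (Q.card * (AA Q W T).card) := by
  have h1 : ShA Q W T ⊆ ((((AA Q W T) ×ˢ Q).image fun t => (t.1, (t.1.1, t.2))) ∪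
      (((AA Q W T) ×ˢ Q).image fun t => (t.1, (t.2, t.1.1)))) ∪
      ((((AA Q W T) ×ˢ Q).image fun t => (t.1, (t.1.2, t.2))) ∪
      (((AA Q W T) ×ˢ Q).image fun t => (t.1, (t.2, t.1.2)))) := by
    rintro ⟨⟨a, b⟩, ⟨c, d⟩⟩ h
    rw [ShA, mem_filter, mem_product] at h
    obtain ⟨⟨h1, h2⟩, h⟩ := h
    have hc : c ∈ Q := (mem_AA.1 h2).m1
    have hd : d ∈ Q := (mem_AA.1 h2).m2
    simp only [mem_union, mem_image, mem_product]
    dsimp only at h
    rcases h with h | h | h | h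
    · subst h
      exact Or.inl (Or.inl ⟨((a, b), d), ⟨h1, hd⟩, rfl⟩)
    · subst h
      exact Or.inl (Or.inr ⟨((a, b), c), ⟨h1, hc⟩, rfl⟩)
    · subst h
      exact Or.inr (Or.inl ⟨((a, b), d), ⟨h1, hd⟩, rfl⟩)
    · subst h
      exact Or.inr (Or.inr ⟨((a, b), c), ⟨h1, hc⟩, rfl⟩)
  have h2 : ((AA Q W T) ×ˢ Q).card = Q.card * (AA Q W T).card := by
    rw [card_product]
    ring
  calc (ShA Q W T).card ≤ _ := card_le_card h1
    _ ≤ _ := card_union_le _ _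
    _ ≤ _ := add_le_add (card_union_le _ _) (card_union_le _ _)
    _ ≤ (Q.card * (AA Q W T).card + Q.card * (AA Q W T).card) +
        (Q.card * (AA Q W T).card + Q.card * (AA Q W T).card) :=
        add_le_add (add_le_add (card_image_le.trans h2.le) (card_image_le.trans h2.le))
          (add_le_add (card_image_le.trans h2.le) (card_image_le.trans h2.le))
    _ = _ := by ring

theorem meet_classA (hS : Sys Q W Z T) {c : ℝ × ℝ} {g k : ι × ι} (ag : Arc Q W T g)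
    (ak : Arc Q W T k) (m : Meet W Z c g k) : (g, k) ∈ CrT Q W Z T ∪ ShA Q W T := by
  have h := meet_class hS ag ak m
  rw [mem_union] at h ⊢
  rcases h with h | h
  · exact Or.inl h
  · right
    rw [Sh, mem_filter] at h
    exact mem_filter.2 ⟨mem_product.2 ⟨mem_AA.2 ag, mem_AA.2 ak⟩, h.2⟩

theorem card_DnA : (Dn Q W Z T).card ≤ (AA Q W T).card := by
  apply card_le_card
  intro g hg
  exact mem_AA.2 (mem_filter.1 hg).2.1

theorem card_UnA : (Un Q W Z T).card ≤ (AA Q W T).card := by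
  apply card_le_card
  intro g hg
  exact mem_AA.2 (mem_filter.1 hg).2.1

theorem pairs_leA (hS : Sys Q W Z T) :
    (((Dn Q W Z T) ×ˢ (Un Q W Z T)).filter fun c =>
      0 < dd (cf W Z c.1) (ce W Z c.2)).card ≤
      (CrT Q W Z T).card + 6 * (Q.card * (AA Q W T).card) := by
  set BF := (Dn Q W Z T).filter fun f => ∃ g, Fwd Q W Z T f g ∧ 0 < dd (cf W Z f) (W g.2) ∧
    Low Q W Z T g with hBF
  set BE := (Un Q W Z T).filter fun e => ∃ k, Bwd Q W Z T e k ∧ 0 < dd (W k.1) (ce W Z e) ∧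
    High Q W Z T k with hBE
  set G := ((Dn Q W Z T) ×ˢ (Un Q W Z T)).filter fun c =>
    0 < dd (cf W Z c.1) (ce W Z c.2) ∧ c.1 ∉ BF ∧ c.2 ∉ BE with hG
  have h1 : (((Dn Q W Z T) ×ˢ (Un Q W Z T)).filter fun c =>
      0 < dd (cf W Z c.1) (ce W Z c.2)) ⊆ (BF ×ˢ (Un Q W Z T) ∪ (Dn Q W Z T) ×ˢ BE) ∪ G := by
    rintro ⟨f, e⟩ h
    rw [mem_filter, mem_product] at h
    obtain ⟨⟨hf, he⟩, h⟩ := h
    rw [mem_union, mem_union, mem_product, mem_product]
    by_cases c1 : f ∈ BF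
    · exact Or.inl (Or.inl ⟨c1, he⟩)
    by_cases c2 : e ∈ BE
    · exact Or.inl (Or.inr ⟨hf, c2⟩)
    · exact Or.inr (mem_filter.2 ⟨mem_product.2 ⟨hf, he⟩, h, c1, c2⟩)
  have h2 : BF.card ≤ Q.card := by
    refine card_le_card_of_forall_subsingleton (fun f q => ∃ g, Fwd Q W Z T f g ∧
      0 < dd (cf W Z f) (W g.2) ∧ Low Q W Z T g ∧ g.2 = q) ?_ ?_
    · intro f hf
      obtain ⟨hf1, g, c1, c2, c3⟩ := mem_filter.1 hf
      have hfa := (mem_filter.1 hf1).2.1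
      exact ⟨g.2, (c1.arc hfa).m2, g, c1, c2, c3, rfl⟩
    · intro q _ f hf f' hf'
      obtain ⟨hf1, g, c1, c2, c3, c4⟩ := hf
      obtain ⟨hf1', g', c1', c2', c3', c4'⟩ := hf'
      have hfa := (mem_filter.1 (mem_filter.1 (mem_coe.1 hf1)).1).2
      have hfa' := (mem_filter.1 (mem_filter.1 (mem_coe.1 hf1')).1).2
      have hgg := Low.unique hS (c1.arc hfa.1) (c1'.arc hfa'.1) c3 c3' (c4.trans c4'.symm)
      subst hgg
      exact Fwd.unique hS hfa.2 hfa'.2 c1 c1'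
  have h3 : BE.card ≤ Q.card := by
    refine card_le_card_of_forall_subsingleton (fun e q => ∃ k, Bwd Q W Z T e k ∧
      0 < dd (W k.1) (ce W Z e) ∧ High Q W Z T k ∧ k.1 = q) ?_ ?_
    · intro f hf
      obtain ⟨hf1, g, c1, c2, c3⟩ := mem_filter.1 hf
      have hfa := (mem_filter.1 hf1).2.1
      exact ⟨g.1, (c1.arc hfa).m1, g, c1, c2, c3, rfl⟩
    · intro q _ f hf f' hf'
      obtain ⟨hf1, g, c1, c2, c3, c4⟩ := hf
      obtain ⟨hf1', g', c1', c2', c3', c4'⟩ := hf'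
      have hfa := (mem_filter.1 (mem_filter.1 (mem_coe.1 hf1)).1).2
      have hfa' := (mem_filter.1 (mem_filter.1 (mem_coe.1 hf1')).1).2
      have hgg := High.unique hS (c1.arc hfa.1) (c1'.arc hfa'.1) c3 c3' (c4.trans c4'.symm)
      subst hgg
      exact Bwd.unique hS hfa.2 hfa'.2 c1 c1'
  have h4 : G.card ≤ (CrT Q W Z T ∪ ShA Q W T).card := by
    refine card_le_card_of_forall_subsingleton (fun c d => Fwd Q W Z T c.1 d.1 ∧
      Bwd Q W Z T c.2 d.2) ?_ ?_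
    · rintro ⟨f, e⟩ h
      rw [hG, mem_filter, mem_product] at h
      obtain ⟨⟨hf, he⟩, hfe, hnf, hne⟩ := h
      have hf' := (mem_filter.1 hf).2
      have he' := (mem_filter.1 he).2
      obtain ⟨g, k, c1, c2, c3⟩ := meeting hS hf'.1 he'.1 hf'.2 he'.2 hfe
        (fun g c1 c2 c3 => hnf (mem_filter.2 ⟨hf, g, c1, c2, c3⟩))
        (fun k c1 c2 c3 => hne (mem_filter.2 ⟨he, k, c1, c2, c3⟩))
      exact ⟨(g, k), meet_classA hS (c1.arc hf'.1) (c2.arc he'.1) c3, c1, c2⟩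
    · rintro ⟨g, k⟩ _ ⟨f, e⟩ h ⟨f', e'⟩ h'
      obtain ⟨hm, c1, c2⟩ := h
      obtain ⟨hm', c1', c2'⟩ := h'
      rw [hG, mem_filter, mem_product] at hm hm'
      have hf := (mem_filter.1 hm.1.1).2
      have he := (mem_filter.1 hm.1.2).2
      have hf' := (mem_filter.1 hm'.1.1).2
      have he' := (mem_filter.1 hm'.1.2).2
      exact Prod.ext (Fwd.unique hS hf.2 hf'.2 c1 c1') (Bwd.unique hS he.2 he'.2 c2 c2')
  have h5 := card_ShA (Q := Q) (W := W) (T := T)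
  have h6 : (BF ×ˢ (Un Q W Z T)).card ≤ Q.card * (AA Q W T).card := by
    rw [card_product]
    exact Nat.mul_le_mul h2 card_UnA
  have h7 : ((Dn Q W Z T) ×ˢ BE).card ≤ Q.card * (AA Q W T).card := by
    rw [card_product]
    calc _ ≤ (AA Q W T).card * Q.card := Nat.mul_le_mul card_DnA h3
      _ = _ := by ring
  calc _ ≤ _ := card_le_card h1
    _ ≤ _ := card_union_le _ _
    _ ≤ ((BF ×ˢ (Un Q W Z T)).card + ((Dn Q W Z T) ×ˢ BE).card) +
        ((CrT Q W Z T).card + (ShA Q W T).card) :=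
        add_le_add (card_union_le _ _) (h4.trans (card_union_le _ _))
    _ ≤ _ := by omega

/-- the product of the numbers of descending and ascending arcs -/
theorem mul_leA (hS : Sys Q W Z T) :
    (Dn Q W Z T).card * (Un Q W Z T).card ≤
      2 * (CrT Q W Z T).card + 16 * (Q.card * (AA Q W T).card) := by
  have h1 := pairs_leA hS
  have h2 := pairs_leA hS.mirror
  rw [CrT_mirror, Dn_mirror, Un_mirror] at h2
  have h3 : (((Un Q W Z T) ×ˢ (Dn Q W Z T)).filter fun c =>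
      0 < dd (cf W (fun p => -Z p) c.1) (ce W (fun p => -Z p) c.2)).card =
      (((Dn Q W Z T) ×ˢ (Un Q W Z T)).filter fun c =>
      dd (cf W Z c.1) (ce W Z c.2) < 0).card := by
    refine card_bij' (fun c _ => (c.2, c.1)) (fun c _ => (c.2, c.1)) ?_ ?_ ?_ ?_
    · rintro ⟨e, f⟩ h
      rw [mem_filter, mem_product, cf_mirror, ce_mirror, dd_swap] at h
      rw [mem_filter, mem_product]
      exact ⟨⟨h.1.2, h.1.1⟩, by have := h.2; change dd (cf W Z f) (ce W Z e) < 0; linarith⟩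
    · rintro ⟨f, e⟩ h
      rw [mem_filter, mem_product] at h
      rw [mem_filter, mem_product, cf_mirror, ce_mirror, dd_swap]
      exact ⟨⟨h.1.2, h.1.1⟩, by have := h.2; change 0 < -dd (cf W Z f) (ce W Z e); linarith⟩
    · rintro ⟨e, f⟩ _; rfl
    · rintro ⟨e, f⟩ _; rfl
  rw [h3] at h2
  have h4 : (((Dn Q W Z T) ×ˢ (Un Q W Z T)).filter fun c =>
      dd (cf W Z c.1) (ce W Z c.2) = 0) ⊆ ShA Q W T := by
    rintro ⟨f, e⟩ h
    rw [mem_filter, mem_product] at h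
    obtain ⟨⟨hf, he⟩, h⟩ := h
    have hf' := (mem_filter.1 hf).2.1
    have he' := (mem_filter.1 he).2.1
    refine mem_filter.2 ⟨mem_product.2 ⟨mem_AA.2 hf', mem_AA.2 he'⟩, ?_⟩
    by_contra hsh
    push Not at hsh
    obtain ⟨n1, n2, n3, n4⟩ := hsh
    apply hS.g.h4 f.1 hf'.m1 f.2 hf'.m2 e.1 he'.m1 e.2 he'.m2 hf'.ne n1 n2 n3 n4 he'.ne
    have h5 : dd (cf W Z f) (ce W Z e) = 0 := h
    have h6 : E3 W Z f.1 e.1 e.2 * Z f.2 - E3 W Z f.2 e.1 e.2 * Z f.1 =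
        -dd (cf W Z f) (ce W Z e) := by
      unfold E3 cf ce dd
      ring
    rw [h6, h5, neg_zero]
  have h5 : (Dn Q W Z T) ×ˢ (Un Q W Z T) ⊆
      (((Dn Q W Z T) ×ˢ (Un Q W Z T)).filter fun c => 0 < dd (cf W Z c.1) (ce W Z c.2)) ∪
      ((((Dn Q W Z T) ×ˢ (Un Q W Z T)).filter fun c => dd (cf W Z c.1) (ce W Z c.2) < 0) ∪
      (((Dn Q W Z T) ×ˢ (Un Q W Z T)).filter fun c => dd (cf W Z c.1) (ce W Z c.2) = 0)) := by
    intro c hc
    rw [mem_union, mem_union, mem_filter, mem_filter, mem_filter]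
    rcases lt_trichotomy (dd (cf W Z c.1) (ce W Z c.2)) 0 with h | h | h
    · exact Or.inr (Or.inl ⟨hc, h⟩)
    · exact Or.inr (Or.inr ⟨hc, h⟩)
    · exact Or.inl ⟨hc, h⟩
  have h6 := (card_le_card h4).trans card_ShA
  have h7 := card_le_card h5
  rw [card_product] at h7
  have h8 := h7.trans ((card_union_le _ _).trans (add_le_add le_rfl (card_union_le _ _)))
  omega

theorem flat_countA {Q : Finset ι} {W : ι → ℝ × ℝ} {Z : ι → ℝ} (hg : Gen Q W Z) (u : ℕ) :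
    (Eq0 Q W Z u).card ^ 2 ≤ 8 * (CrF Q W Z u).card +
      64 * (Q.card * (AA Q W (Tt Q W Z u)).card) + Q.card ^ 2 := by
  have h1 := Eq0_le hg u
  have h2 := diff_le hg u
  have h3 := mul_leA (sys_Tt hg u)
  have h4 : CrT Q W Z (Tt Q W Z u) = CrF Q W Z u := rfl
  rw [h4] at h3
  set a := (Un Q W Z (Tt Q W Z u)).card
  set b := (Dn Q W Z (Tt Q W Z u)).card
  set N := Q.card
  have h5 : (a + b) ^ 2 ≤ N ^ 2 + 4 * (b * a) := by
    rcases le_total a b with h | h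
    · obtain ⟨c, hc⟩ := Nat.exists_eq_add_of_le h
      have h6 : c ≤ N := by omega
      rw [hc]
      nlinarith [Nat.mul_le_mul h6 h6]
    · obtain ⟨c, hc⟩ := Nat.exists_eq_add_of_le h
      have h6 : c ≤ N := by omega
      rw [hc]
      nlinarith [Nat.mul_le_mul h6 h6]
  have h7 : (Eq0 Q W Z u).card ^ 2 ≤ (a + b) ^ 2 := Nat.pow_le_pow_left h1 2
  omega

end Pool.Agent.HpE
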