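import Pool.Agent.HpE.Defs

/-!
# A line through two points meets few triangles of type `k`

Paper proof. Only the triples `(r, s, t)` with `r, s, t ∉ {p, q}`, pairwise distinct, matter (else
one of the determinants in `Prc` vanishes). Write `d = q - p = df x p q`, and
`D r s = det3 d' (df x p r) (df x p s)`, where `d' = d + ε w`, `w` generic
(`HpD.exists_functional` applied to finitely many nonzero cross products), `ε > 0` small and
outside a finite set, such that
 (i) `D r s` has the sign of `dt x p q r s` for `r ≠ s`, `r, s ∉ {p, q}`;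
 (ii) `A r s t := D r s + D s t + D t r = det3 d' (df x r s) (df x r t) ≠ 0` for pairwise distinct
      `r, s, t` (all of `Fin n` allowed, also `p` and `q`).
Take a functional `g` with `dot g d' = 0` and `dot g (df x p r) ≠ 0` for `r ∉ {p, q}` (for instance
the functional `v ↦ det3 d' w' v`, `w'` generic); write `g r = dot g (df x p r)`. By `HpD.four`
 (iii) `g r * D s t + g s * D t r + g t * D r s = 0`.
Let `E` be the set of the pairs `(r, s)`, `r, s ∉ {p, q}`, with `g r > 0 > g s` and `D r s > 0`.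
For a triple with `A r s t > 0` (entries not `p`, `q`) the signs and (iii) give
 (iv) `∑_{cyclic} ([(r, s) ∈ E] - [(s, r) ∈ E]) = [D r s, D s t, D t r > 0]`.
Sum (iv) over the triples of type `k` with `A > 0`: with
`Near = #{(r,s,t) : Ty, (r,s) ∈ E, A r s t > 0}`, `Far = #{... A r s t < 0}` it gives
`#{(r,s,t) : Ty, all three D > 0} = 3 (Near - Far)`. For fixed `(r, s) ∈ E` use `HpD.alt` at the
edge `r s` with the functional `u = v ↦ det3 d' (df x r s) v`, which vanishes on `df x r s`, and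
whose value at `df x r t` is `A r s t`: it gives `near ≤ far + 2` over all `t ∉ {r, s}`, so
`near ≤ far + 4` over `t ∉ {p, q}`. Hence `#{(r,s,t) : Ty, all three D > 0} ≤ 12 n²`, and the
triples with all three `D < 0` are obtained by exchanging two entries.
(`Ty` is symmetric in all three points: `Ty_symm` and one more transposition.)
-/

namespace Pool.Agent.HpE

private theorem bl : ∀ a b c x y z : Bool, ¬ (a = y ∧ b = z ∧ c = x) → ¬ (a = !y ∧ b = !z ∧ c = !x) →
    ¬ (x = false ∧ y = false ∧ z = false) →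
    ((if (a && !b && x) = true then (1 : ℤ) else 0) - (if (b && !a && !x) = true then 1 else 0)) +
    ((if (b && !c && y) = true then 1 else 0) - (if (c && !b && !y) = true then 1 else 0)) +
    ((if (c && !a && z) = true then 1 else 0) - (if (a && !c && !z) = true then 1 else 0)) =
    if (x && y && z) = true then 1 else 0 := by
  intro a b c x y z
  cases a <;> cases b <;> cases c <;> cases x <;> cases y <;> cases z <;> simp

open Finset Classical SmH HpD

variable {n : ℕ}

private theorem four_signs {ι : Type*} {D : ι → ι → ℝ} (hD : ∀ r s, D s r = -D r s) {g : ι → ℝ} {r s t : ι}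
    (h1 : g r ≠ 0) (h2 : g s ≠ 0) (h3 : g t ≠ 0) (d1 : D r s ≠ 0) (d2 : D s t ≠ 0) (d3 : D t r ≠ 0)
    (h : g r * D s t + g s * D t r + g t * D r s = 0) (hA : 0 < D r s + D s t + D t r) :
    ((if 0 < g r ∧ g s < 0 ∧ 0 < D r s then (1 : ℤ) else 0) - (if 0 < g s ∧ g r < 0 ∧ 0 < D s r then 1 else 0)) +
    ((if 0 < g s ∧ g t < 0 ∧ 0 < D s t then (1 : ℤ) else 0) - (if 0 < g t ∧ g s < 0 ∧ 0 < D t s then 1 else 0)) +
    ((if 0 < g t ∧ g r < 0 ∧ 0 < D t r then (1 : ℤ) else 0) - (if 0 < g r ∧ g t < 0 ∧ 0 < D r t then 1 else 0)) =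
    if 0 < D r s ∧ 0 < D s t ∧ 0 < D t r then 1 else 0 := by
  have n1 : ∀ y : ℝ, y ≠ 0 → (y < 0 ↔ ¬ 0 < y) := fun y hy =>
    ⟨fun h => by linarith, fun h => lt_of_le_of_ne (not_lt.mp h) hy⟩
  rw [hD r s, hD s t, hD t r]
  simp only [neg_pos, n1 _ h1, n1 _ h2, n1 _ h3, n1 _ d1, n1 _ d2, n1 _ d3]
  have key := bl (decide (0 < g r)) (decide (0 < g s)) (decide (0 < g t)) (decide (0 < D r s))
    (decide (0 < D s t)) (decide (0 < D t r)) ?_ ?_ ?_
  · simp only [Bool.and_eq_true, decide_eq_true_eq, Bool.not_eq_true', decide_eq_false_iff_not, and_assoc] at key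
    exact key
  · simp only [decide_eq_decide]
    rintro ⟨k1, k2, k3⟩
    have m1 : 0 < g r * D s t := by
      rcases lt_or_gt_of_ne d2 with k | k
      · have : g r < 0 := (n1 _ h1).mpr (fun hh => by linarith [k1.mp hh])
        exact mul_pos_of_neg_of_neg this k
      · exact mul_pos (k1.mpr k) k
    have m2 : 0 < g s * D t r := by
      rcases lt_or_gt_of_ne d3 with k | k
      · have : g s < 0 := (n1 _ h2).mpr (fun hh => by linarith [k2.mp hh])
        exact mul_pos_of_neg_of_neg this k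
      · exact mul_pos (k2.mpr k) k
    have m3 : 0 < g t * D r s := by
      rcases lt_or_gt_of_ne d1 with k | k
      · have : g t < 0 := (n1 _ h3).mpr (fun hh => by linarith [k3.mp hh])
        exact mul_pos_of_neg_of_neg this k
      · exact mul_pos (k3.mpr k) k
    linarith
  · simp only [← decide_not, decide_eq_decide]
    rintro ⟨k1, k2, k3⟩
    have m1 : g r * D s t < 0 := by
      rcases lt_or_gt_of_ne d2 with k | k
      · exact mul_neg_of_pos_of_neg (k1.mpr (by linarith)) k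
      · exact mul_neg_of_neg_of_pos ((n1 _ h1).mpr (fun hh => (k1.mp hh) k)) k
    have m2 : g s * D t r < 0 := by
      rcases lt_or_gt_of_ne d3 with k | k
      · exact mul_neg_of_pos_of_neg (k2.mpr (by linarith)) k
      · exact mul_neg_of_neg_of_pos ((n1 _ h2).mpr (fun hh => (k2.mp hh) k)) k
    have m3 : g t * D r s < 0 := by
      rcases lt_or_gt_of_ne d1 with k | k
      · exact mul_neg_of_pos_of_neg (k3.mpr (by linarith)) k
      · exact mul_neg_of_neg_of_pos ((n1 _ h3).mpr (fun hh => (k3.mp hh) k)) k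
    linarith
  · simp only [decide_eq_false_iff_not]
    rintro ⟨k1, k2, k3⟩
    linarith

private theorem comb (O : Finset (Fin n)) (T : Fin n → Fin n → Fin n → Prop) (hT1 : ∀ r s t, T r s t → T s t r)
    (hT2 : ∀ r s t, T r s t → T s r t) (D : Fin n → Fin n → ℝ) (hD : ∀ r s, D s r = -D r s)
    (hD0 : ∀ r ∈ O, ∀ s ∈ O, r ≠ s → D r s ≠ 0) (g : Fin n → ℝ) (hg : ∀ r ∈ O, g r ≠ 0)
    (h3 : ∀ r s t, g r * D s t + g s * D t r + g t * D r s = 0)
    (h4 : ∀ r ∈ O, ∀ s ∈ O, r ≠ s →
      (O.filter fun t => t ≠ r ∧ t ≠ s ∧ T r s t ∧ 0 < D r s + D s t + D t r).card ≤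
      (O.filter fun t => t ≠ r ∧ t ≠ s ∧ T r s t ∧ D r s + D s t + D t r < 0).card + 4) :
    ((O ×ˢ O ×ˢ O).filter fun c : Fin n × Fin n × Fin n => T c.1 c.2.1 c.2.2 ∧ 0 < D c.1 c.2.1 ∧ 0 < D c.2.1 c.2.2 ∧
      0 < D c.2.2 c.1).card ≤ 12 * (O.card * O.card) := by
  have hDr : ∀ r, D r r = 0 := fun r => by linarith [hD r r]
  set e : Fin n → Fin n → ℤ := fun r s => if 0 < g r ∧ g s < 0 ∧ 0 < D r s then 1 else 0 with he
  set F : Fin n → Fin n → Fin n → ℤ := fun r s t =>
    if r ≠ s ∧ r ≠ t ∧ s ≠ t ∧ T r s t ∧ 0 < D r s + D s t + D t r then 1 else 0 with hF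
  have hFc : ∀ r s t, F r s t = F s t r := by
    intro r s t
    simp only [hF]
    refine if_congr ?_ rfl rfl
    constructor
    · rintro ⟨k1, k2, k3, k4, k5⟩
      exact ⟨k3, k1.symm, k2.symm, hT1 _ _ _ k4, by linarith⟩
    · rintro ⟨k1, k2, k3, k4, k5⟩
      exact ⟨k2.symm, k3.symm, k1, hT1 _ _ _ (hT1 _ _ _ k4), by linarith⟩
  have hiv : ∀ r ∈ O, ∀ s ∈ O, ∀ t ∈ O,
      (if T r s t ∧ 0 < D r s ∧ 0 < D s t ∧ 0 < D t r then (1 : ℤ) else 0) =
      F r s t * (e r s - e s r) + F r s t * (e s t - e t s) + F r s t * (e t r - e r t) := by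
    intro r hr s hs t ht
    by_cases hc : r ≠ s ∧ r ≠ t ∧ s ≠ t ∧ T r s t ∧ 0 < D r s + D s t + D t r
    · have hF1 : F r s t = 1 := if_pos hc
      obtain ⟨k1, k2, k3, k4, k5⟩ := hc
      have := four_signs hD (hg r hr) (hg s hs) (hg t ht) (hD0 r hr s hs k1) (hD0 s hs t ht k3)
        (hD0 t ht r hr k2.symm) (h3 r s t) k5
      rw [hF1, one_mul, one_mul, one_mul]
      simp only [he]
      rw [this]
      refine if_congr ?_ rfl rfl
      exact ⟨fun h => h.2, fun h => ⟨k4, h⟩⟩
    · have hF0 : F r s t = 0 := if_neg hc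
      rw [hF0, zero_mul, zero_mul, zero_mul, if_neg]
      · rfl
      · rintro ⟨k1, k2, k3, k4⟩
        apply hc
        refine ⟨?_, ?_, ?_, k1, by linarith⟩
        · rintro rfl
          rw [hDr] at k2
          exact lt_irrefl _ k2
        · rintro rfl
          rw [hDr] at k4
          exact lt_irrefl _ k4
        · rintro rfl
          rw [hDr] at k3
          exact lt_irrefl _ k3
  have hcount : ((((O ×ˢ O ×ˢ O).filter fun c : Fin n × Fin n × Fin n => T c.1 c.2.1 c.2.2 ∧ 0 < D c.1 c.2.1 ∧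
      0 < D c.2.1 c.2.2 ∧ 0 < D c.2.2 c.1).card : ℕ) : ℤ) = ∑ r ∈ O, ∑ s ∈ O, ∑ t ∈ O,
      (if T r s t ∧ 0 < D r s ∧ 0 < D s t ∧ 0 < D t r then (1 : ℤ) else 0) := by
    rw [Finset.card_filter, Finset.sum_product]
    push_cast
    refine Finset.sum_congr rfl fun r _ => ?_
    rw [Finset.sum_product]
  set S : ℤ := ∑ r ∈ O, ∑ s ∈ O, ∑ t ∈ O, F r s t * (e r s - e s r) with hS
  have hS2 : ∑ r ∈ O, ∑ s ∈ O, ∑ t ∈ O, F r s t * (e s t - e t s) = S := by
    calc ∑ r ∈ O, ∑ s ∈ O, ∑ t ∈ O, F r s t * (e s t - e t s)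
        = ∑ r ∈ O, ∑ s ∈ O, ∑ t ∈ O, F s t r * (e s t - e t s) := by
          refine Finset.sum_congr rfl fun r _ => Finset.sum_congr rfl fun s _ =>
            Finset.sum_congr rfl fun t _ => ?_
          rw [hFc]
      _ = ∑ s ∈ O, ∑ r ∈ O, ∑ t ∈ O, F s t r * (e s t - e t s) := Finset.sum_comm
      _ = ∑ s ∈ O, ∑ t ∈ O, ∑ r ∈ O, F s t r * (e s t - e t s) :=
          Finset.sum_congr rfl fun s _ => Finset.sum_comm
  have hS3 : ∑ r ∈ O, ∑ s ∈ O, ∑ t ∈ O, F r s t * (e t r - e r t) = S := by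
    calc ∑ r ∈ O, ∑ s ∈ O, ∑ t ∈ O, F r s t * (e t r - e r t)
        = ∑ r ∈ O, ∑ s ∈ O, ∑ t ∈ O, F t r s * (e t r - e r t) := by
          refine Finset.sum_congr rfl fun r _ => Finset.sum_congr rfl fun s _ =>
            Finset.sum_congr rfl fun t _ => ?_
          rw [hFc, hFc]
      _ = ∑ r ∈ O, ∑ t ∈ O, ∑ s ∈ O, F t r s * (e t r - e r t) :=
          Finset.sum_congr rfl fun r _ => Finset.sum_comm
      _ = ∑ t ∈ O, ∑ r ∈ O, ∑ s ∈ O, F t r s * (e t r - e r t) := Finset.sum_comm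
  have htot : ((((O ×ˢ O ×ˢ O).filter fun c : Fin n × Fin n × Fin n => T c.1 c.2.1 c.2.2 ∧ 0 < D c.1 c.2.1 ∧
      0 < D c.2.1 c.2.2 ∧ 0 < D c.2.2 c.1).card : ℕ) : ℤ) = 3 * S := by
    rw [hcount]
    calc _ = ∑ r ∈ O, ∑ s ∈ O, ∑ t ∈ O,
          (F r s t * (e r s - e s r) + F r s t * (e s t - e t s) + F r s t * (e t r - e r t)) :=
          Finset.sum_congr rfl fun r hr => Finset.sum_congr rfl fun s hs =>
            Finset.sum_congr rfl fun t ht => hiv r hr s hs t ht
      _ = S + S + S := by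
          simp only [Finset.sum_add_distrib]
          rw [hS2, hS3]
      _ = 3 * S := by ring
  -- the bound of `S`
  have hN : ∀ r ∈ O, ∀ s ∈ O, r ≠ s → (∑ t ∈ O, F r s t) - (∑ t ∈ O, F s r t) ≤ 4 := by
    intro r hr s hs hrs
    have c1 : ∑ t ∈ O, F r s t =
        ((O.filter fun t => t ≠ r ∧ t ≠ s ∧ T r s t ∧ 0 < D r s + D s t + D t r).card : ℤ) := by
      rw [Finset.card_filter]
      push_cast
      refine Finset.sum_congr rfl fun t _ => ?_
      simp only [hF]
      refine if_congr ?_ rfl rfl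
      constructor
      · rintro ⟨-, k2, k3, k4, k5⟩
        exact ⟨k2.symm, k3.symm, k4, k5⟩
      · rintro ⟨k2, k3, k4, k5⟩
        exact ⟨hrs, k2.symm, k3.symm, k4, k5⟩
    have c2 : ∑ t ∈ O, F s r t =
        ((O.filter fun t => t ≠ r ∧ t ≠ s ∧ T r s t ∧ D r s + D s t + D t r < 0).card : ℤ) := by
      rw [Finset.card_filter]
      push_cast
      refine Finset.sum_congr rfl fun t _ => ?_
      simp only [hF]
      refine if_congr ?_ rfl rfl
      have k0 : D s r + D r t + D t s = -(D r s + D s t + D t r) := by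
        rw [hD r s, hD t r, hD s t]
        ring
      rw [k0, neg_pos]
      constructor
      · rintro ⟨-, k2, k3, k4, k5⟩
        exact ⟨k3.symm, k2.symm, hT2 _ _ _ k4, k5⟩
      · rintro ⟨k2, k3, k4, k5⟩
        exact ⟨hrs.symm, k3.symm, k2.symm, hT2 _ _ _ k4, k5⟩
    rw [c1, c2]
    have := h4 r hr s hs hrs
    omega
  have hSle : S ≤ 4 * (O.card * O.card : ℕ) := by
    have e1 : S = ∑ r ∈ O, ∑ s ∈ O, e r s * ((∑ t ∈ O, F r s t) - (∑ t ∈ O, F s r t)) := by
      calc S = ∑ r ∈ O, ∑ s ∈ O, (e r s * (∑ t ∈ O, F r s t) - e s r * (∑ t ∈ O, F r s t)) := by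
            rw [hS]
            refine Finset.sum_congr rfl fun r _ => Finset.sum_congr rfl fun s _ => ?_
            rw [← Finset.sum_mul]
            ring
        _ = (∑ r ∈ O, ∑ s ∈ O, e r s * (∑ t ∈ O, F r s t)) -
            ∑ r ∈ O, ∑ s ∈ O, e s r * (∑ t ∈ O, F r s t) := by
            simp only [Finset.sum_sub_distrib]
        _ = (∑ r ∈ O, ∑ s ∈ O, e r s * (∑ t ∈ O, F r s t)) -
            ∑ s ∈ O, ∑ r ∈ O, e s r * (∑ t ∈ O, F r s t) := by
            rw [Finset.sum_comm (s := O) (t := O) (f := fun r s => e s r * (∑ t ∈ O, F r s t))]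
        _ = _ := by
            rw [← Finset.sum_sub_distrib]
            refine Finset.sum_congr rfl fun r _ => ?_
            rw [← Finset.sum_sub_distrib]
            refine Finset.sum_congr rfl fun s _ => ?_
            ring
    rw [e1]
    calc ∑ r ∈ O, ∑ s ∈ O, e r s * ((∑ t ∈ O, F r s t) - (∑ t ∈ O, F s r t))
        ≤ ∑ r ∈ O, ∑ s ∈ O, (4 : ℤ) := by
          refine Finset.sum_le_sum fun r hr => Finset.sum_le_sum fun s hs => ?_
          by_cases hc : 0 < g r ∧ g s < 0 ∧ 0 < D r s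
          · have : e r s = 1 := if_pos hc
            rw [this, one_mul]
            refine hN r hr s hs ?_
            rintro rfl
            rw [hDr] at hc
            exact lt_irrefl _ hc.2.2
          · have : e r s = 0 := if_neg hc
            rw [this, zero_mul]
            norm_num
      _ = 4 * (O.card * O.card : ℕ) := by
          rw [Finset.sum_const, Finset.sum_const]
          push_cast
          rw [nsmul_eq_mul, nsmul_eq_mul]
          ring
  have : ((((O ×ˢ O ×ˢ O).filter fun c : Fin n × Fin n × Fin n => T c.1 c.2.1 c.2.2 ∧ 0 < D c.1 c.2.1 ∧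
      0 < D c.2.1 c.2.2 ∧ 0 < D c.2.2 c.1).card : ℕ) : ℤ) ≤ ((12 * (O.card * O.card) : ℕ) : ℤ) := by
    rw [htot]
    push_cast at hSle ⊢
    linarith
  exact_mod_cast this

/-- The cross product. -/
private def cr (u v : Fin 3 → ℝ) : Fin 3 → ℝ :=
  ![u 1 * v 2 - u 2 * v 1, u 2 * v 0 - u 0 * v 2, u 0 * v 1 - u 1 * v 0]

private theorem dot_cr (u v w : Fin 3 → ℝ) : dot (cr u v) w = det3 u v w := by
  unfold dot cr det3
  simp only [Matrix.cons_val_zero, Matrix.cons_val_one, Matrix.cons_val]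
  ring

private theorem dot_cr' (u v w : Fin 3 → ℝ) : dot w (cr u v) = det3 w u v := by
  unfold dot cr det3
  simp only [Matrix.cons_val_zero, Matrix.cons_val_one, Matrix.cons_val]
  ring

private theorem cr_ne {u v w : Fin 3 → ℝ} (h : det3 u v w ≠ 0) : cr u v ≠ 0 := by
  intro h0
  apply h
  rw [← dot_cr, h0]
  unfold dot
  simp

private theorem dt_swap1 (x : Fin n × Fin 3 → ℝ) (b p q r : Fin n) : dt x p b q r = -dt x b p q r := by
  unfold dt det3 df
  ring

private theorem Ty_swap1 {x : Fin n × Fin 3 → ℝ} {k : ℕ} {b p q : Fin n} (h : Ty x k b p q) :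
    Ty x k p b q := by
  have h1 : (univ.filter fun r => 0 < dt x p b q r) = univ.filter fun r => dt x b p q r < 0 := by
    apply filter_congr
    intro r _
    rw [dt_swap1]
    constructor <;> intro h <;> linarith
  have h2 : (univ.filter fun r => dt x p b q r < 0) = univ.filter fun r => 0 < dt x b p q r := by
    apply filter_congr
    intro r _
    rw [dt_swap1]
    constructor <;> intro h <;> linarith
  unfold Ty at h ⊢
  rw [h1, h2]
  exact h.symm

private theorem dt_distinct {x : Fin n × Fin 3 → ℝ} {p q r s : Fin n} (h : dt x p q r s ≠ 0) :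
    r ≠ p ∧ r ≠ q ∧ s ≠ p ∧ s ≠ q ∧ r ≠ s := by
  refine ⟨?_, ?_, ?_, ?_, ?_⟩
  · rintro rfl
    apply h
    unfold dt det3 df
    ring
  · rintro rfl
    apply h
    unfold dt det3 df
    ring
  · rintro rfl
    exact h (dt_left _ _ _ _)
  · rintro rfl
    exact h (dt_mid _ _ _ _)
  · rintro rfl
    exact h (dt_right _ _ _ _)

open Filter Topology in
private theorem ev_pos {a : ℝ} (b : ℝ) (h : 0 < a) : ∀ᶠ ε in 𝓝[>] (0 : ℝ), 0 < a + ε * b := by
  have h1 : Tendsto (fun ε : ℝ => a + ε * b) (𝓝 0) (𝓝 (a + 0 * b)) := by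
    apply Continuous.tendsto
    fun_prop
  rw [zero_mul, add_zero] at h1
  exact (h1.mono_left nhdsWithin_le_nhds).eventually (lt_mem_nhds h)

open Filter Topology in
private theorem ev_ne (a : ℝ) {b : ℝ} (h : b ≠ 0) : ∀ᶠ ε in 𝓝[>] (0 : ℝ), a + ε * b ≠ 0 := by
  rcases lt_trichotomy a 0 with ha | ha | ha
  · filter_upwards [ev_pos (-b) (neg_pos.mpr ha)] with ε hε
    intro h1
    linarith
  · filter_upwards [self_mem_nhdsWithin] with ε hε
    rw [ha, zero_add]
    exact mul_ne_zero (ne_of_gt hε) h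
  · filter_upwards [ev_pos b ha] with ε hε
    exact hε.ne'

open Filter Topology in
private theorem exists_dir {x : Fin n × Fin 3 → ℝ} (hx : GenPos x) (hn : 4 ≤ n) (p q : Fin n) :
    ∃ d : Fin 3 → ℝ, (∀ r s : Fin n, (0 < dt x p q r s → 0 < det3 d (df x p r) (df x p s)) ∧
      (dt x p q r s < 0 → det3 d (df x p r) (df x p s) < 0)) ∧
      ∀ r s t : Fin n, r ≠ s → r ≠ t → s ≠ t → det3 d (df x r s) (df x r t) ≠ 0 := by
  obtain ⟨w, hw⟩ := exists_functional
    ((univ.filter fun c : Fin n × Fin n × Fin n => c.1 ≠ c.2.1 ∧ c.1 ≠ c.2.2 ∧ c.2.1 ≠ c.2.2).image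
      fun c => cr (df x c.1 c.2.1) (df x c.1 c.2.2)) (by
    intro y hy
    obtain ⟨c, hc, rfl⟩ := mem_image.1 hy
    obtain ⟨-, h1, h2, h3⟩ := mem_filter.1 hc
    obtain ⟨e, k1, k2, k3⟩ := exists_fourth hn c.1 c.2.1 c.2.2
    exact cr_ne (dt_ne hx h1 h2 k1.symm h3 k2.symm k3.symm))
  have hw' : ∀ r s t : Fin n, r ≠ s → r ≠ t → s ≠ t → det3 w (df x r s) (df x r t) ≠ 0 := by
    intro r s t h1 h2 h3
    rw [← dot_cr']
    exact hw _ (mem_image.2 ⟨(r, s, t), mem_filter.2 ⟨mem_univ _, h1, h2, h3⟩, rfl⟩)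
  have hlin : ∀ (ε : ℝ) (X Y : Fin 3 → ℝ), det3 (fun c => df x p q c + ε * w c) X Y =
      det3 (df x p q) X Y + ε * det3 w X Y := by
    intro ε X Y
    unfold det3
    ring
  have e1 : ∀ᶠ ε in 𝓝[>] (0 : ℝ), ∀ r s : Fin n,
      (0 < dt x p q r s → 0 < det3 (fun c => df x p q c + ε * w c) (df x p r) (df x p s)) ∧
      (dt x p q r s < 0 → det3 (fun c => df x p q c + ε * w c) (df x p r) (df x p s) < 0) := by
    refine Filter.eventually_all.mpr fun r => Filter.eventually_all.mpr fun s => ?_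
    rcases lt_trichotomy (dt x p q r s) 0 with h | h | h
    · filter_upwards [ev_pos (-det3 w (df x p r) (df x p s)) (neg_pos.mpr h)] with ε hε
      refine ⟨fun h1 => by linarith, fun _ => ?_⟩
      rw [hlin]
      change dt x p q r s + _ < 0
      linarith
    · exact Filter.Eventually.of_forall fun ε => ⟨fun h1 => by linarith, fun h1 => by linarith⟩
    · filter_upwards [ev_pos (det3 w (df x p r) (df x p s)) h] with ε hε
      refine ⟨fun _ => ?_, fun h1 => by linarith⟩
      rw [hlin]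
      exact hε
  have e2 : ∀ᶠ ε in 𝓝[>] (0 : ℝ), ∀ r s t : Fin n, r ≠ s → r ≠ t → s ≠ t →
      det3 (fun c => df x p q c + ε * w c) (df x r s) (df x r t) ≠ 0 := by
    refine Filter.eventually_all.mpr fun r => Filter.eventually_all.mpr fun s =>
      Filter.eventually_all.mpr fun t => ?_
    by_cases h : r ≠ s ∧ r ≠ t ∧ s ≠ t
    · filter_upwards [ev_ne (det3 (df x p q) (df x r s) (df x r t)) (hw' r s t h.1 h.2.1 h.2.2)] with ε hε
      intro _ _ _
      rw [hlin]
      exact hε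
    · exact Filter.Eventually.of_forall fun ε h1 h2 h3 => absurd ⟨h1, h2, h3⟩ h
  obtain ⟨ε, h1, h2⟩ := (e1.and e2).exists
  exact ⟨_, h1, h2⟩

private theorem first_type {x : Fin n × Fin 3 → ℝ} (hx : GenPos x) (hn : 4 ≤ n) {p q : Fin n} (hpq : p ≠ q) (k : ℕ)
    {d : Fin 3 → ℝ} (hd1 : ∀ r s : Fin n, (0 < dt x p q r s → 0 < det3 d (df x p r) (df x p s)) ∧
      (dt x p q r s < 0 → det3 d (df x p r) (df x p s) < 0))
    (hd2 : ∀ r s t : Fin n, r ≠ s → r ≠ t → s ≠ t → det3 d (df x r s) (df x r t) ≠ 0) :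
    (((others p q) ×ˢ (others p q) ×ˢ (others p q)).filter fun c : Fin n × Fin n × Fin n =>
      Ty x k c.1 c.2.1 c.2.2 ∧ 0 < det3 d (df x p c.1) (df x p c.2.1) ∧
      0 < det3 d (df x p c.2.1) (df x p c.2.2) ∧ 0 < det3 d (df x p c.2.2) (df x p c.1)).card ≤
      12 * (n * n) := by
  set O := others p q with hO
  have hOm : ∀ r, r ∈ O ↔ r ≠ p ∧ r ≠ q := fun r => by simp [hO, others]
  have hD : ∀ r s : Fin n, det3 d (df x p s) (df x p r) = -det3 d (df x p r) (df x p s) := by
    intro r s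
    unfold det3
    ring
  have hD0 : ∀ r ∈ O, ∀ s ∈ O, r ≠ s → det3 d (df x p r) (df x p s) ≠ 0 := by
    intro r hr s hs hrs
    rw [hOm] at hr hs
    have h1 := dt_ne hx hpq hr.1.symm hs.1.symm hr.2.symm hs.2.symm hrs
    rcases lt_or_gt_of_ne h1 with h2 | h2
    · exact ((hd1 r s).2 h2).ne
    · exact ((hd1 r s).1 h2).ne'
  obtain ⟨w, hw⟩ := exists_functional (O.image fun r => cr d (df x p r)) (by
    intro y hy
    obtain ⟨r, hr, rfl⟩ := mem_image.1 hy
    obtain ⟨s, k1, k2, k3⟩ := exists_fourth hn p q r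
    exact cr_ne (hD0 r hr s ((hOm s).2 ⟨k1, k2⟩) k3.symm))
  have hAeq : ∀ r s t : Fin n, det3 d (df x p r) (df x p s) + det3 d (df x p s) (df x p t) +
      det3 d (df x p t) (df x p r) = det3 d (df x r s) (df x r t) := by
    intro r s t
    unfold det3 df
    ring
  have main := comb O (fun r s t => Ty x k r s t) (fun r s t h => Ty_symm (Ty_swap1 h))
    (fun r s t h => Ty_swap1 h) (fun r s => det3 d (df x p r) (df x p s)) hD hD0
    (fun r => dot (cr w d) (df x p r)) ?_ ?_ ?_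
  · refine main.trans ?_
    have : O.card ≤ n := by
      have := card_le_univ O
      rwa [Fintype.card_fin] at this
    exact Nat.mul_le_mul_left _ (Nat.mul_le_mul this this)
  · intro r hr
    have := hw _ (mem_image.2 ⟨r, hr, rfl⟩)
    rw [dot_cr'] at this
    rw [dot_cr]
    exact this
  · intro r s t
    have h0 : dot (cr w d) d = 0 := by
      rw [dot_cr]
      unfold det3
      ring
    have h1 := four (cr w d) d (df x p r) (df x p s) (df x p t)
    rw [h0, hD t r] at h1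
    linear_combination -h1
  · intro r hr s hs hrs
    have hr' := (hOm r).1 hr
    have hs' := (hOm s).1 hs
    have h1 := (alt hx (b := r) (p := s) hrs.symm (cr d (df x r s)) (by
      rw [dot_cr]
      unfold det3
      ring) (fun t h1 h2 => by
      rw [dot_cr]
      exact hd2 r s t hrs h1.symm h2.symm) k).1
    have hA' : ∀ t, det3 d (df x r s) (df x r t) = det3 d (df x p r) (df x p s) + det3 d (df x p s) (df x p t) +
        det3 d (df x p t) (df x p r) := fun t => (hAeq r s t).symm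
    simp only [dot_cr, hA'] at h1
    have hom : ∀ t, t ∈ others r s ↔ t ≠ r ∧ t ≠ s := fun t => by simp [others]
    have h2 : (O.filter fun t => t ≠ r ∧ t ≠ s ∧ Ty x k r s t ∧ 0 < det3 d (df x p r) (df x p s) +
        det3 d (df x p s) (df x p t) + det3 d (df x p t) (df x p r)) ⊆
        ((others r s).filter fun t => 0 < det3 d (df x p r) (df x p s) +
        det3 d (df x p s) (df x p t) + det3 d (df x p t) (df x p r) ∧ Ty x k r s t) := by
      intro t ht
      obtain ⟨-, k1, k2, k3, k4⟩ := mem_filter.1 ht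
      exact mem_filter.2 ⟨(hom t).2 ⟨k1, k2⟩, k4, k3⟩
    have h3 : ((others r s).filter fun t => ¬ 0 < det3 d (df x p r) (df x p s) +
        det3 d (df x p s) (df x p t) + det3 d (df x p t) (df x p r) ∧ Ty x k r s t) ⊆
        (O.filter fun t => t ≠ r ∧ t ≠ s ∧ Ty x k r s t ∧ det3 d (df x p r) (df x p s) +
        det3 d (df x p s) (df x p t) + det3 d (df x p t) (df x p r) < 0) ∪ {p, q} := by
      intro t ht
      obtain ⟨k1, k2, k3⟩ := mem_filter.1 ht
      rw [hom] at k1
      rw [mem_union]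
      by_cases hO : t ∈ O
      · left
        refine mem_filter.2 ⟨hO, k1.1, k1.2, k3, lt_of_le_of_ne (not_lt.mp k2) ?_⟩
        rw [hAeq]
        exact hd2 r s t hrs k1.1.symm k1.2.symm
      · right
        rw [hOm, not_and_or, not_not, not_not] at hO
        rw [mem_insert, mem_singleton]
        exact hO
    have h4 := card_le_card h2
    have h5 := card_le_card h3
    have h6 := card_union_le (O.filter fun t => t ≠ r ∧ t ≠ s ∧ Ty x k r s t ∧ det3 d (df x p r) (df x p s) +
        det3 d (df x p s) (df x p t) + det3 d (df x p t) (df x p r) < 0) {p, q}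
    have h7 : ({p, q} : Finset (Fin n)).card ≤ 2 := card_le_two
    calc _ ≤ _ := h4
      _ ≤ _ := h1
      _ ≤ _ := Nat.add_le_add_right (h5.trans h6) 2
      _ ≤ _ := by omega

theorem pierce_card {x : Fin n × Fin 3 → ℝ} (hx : GenPos x) {p q : Fin n} (hpq : p ≠ q) (k : ℕ) :
    (univ.filter fun c : Fin n × Fin n × Fin n =>
      Ty x k c.1 c.2.1 c.2.2 ∧ Prc x p q c.1 c.2.1 c.2.2).card ≤ 24 * (n * n) := by
  by_cases hn : 4 ≤ n
  swap
  · have : (univ.filter fun c : Fin n × Fin n × Fin n =>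
        Ty x k c.1 c.2.1 c.2.2 ∧ Prc x p q c.1 c.2.1 c.2.2) = ∅ := by
      rw [filter_eq_empty_iff]
      rintro ⟨r, s, t⟩ - ⟨-, h⟩
      have h1 : dt x p q r s ≠ 0 := by
        rcases h with ⟨h, -, -⟩ | ⟨h, -, -⟩
        · exact h.ne'
        · exact h.ne
      obtain ⟨k1, k2, k3, k4, k5⟩ := dt_distinct h1
      have h8 : ({p, q, r, s} : Finset (Fin n)).card = 4 := by
        rw [card_insert_of_notMem (by simp [hpq, k1.symm, k3.symm]),
          card_insert_of_notMem (by simp [k2.symm, k4.symm]),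
          card_insert_of_notMem (by simp [k5]), card_singleton]
      have h9 := card_le_univ ({p, q, r, s} : Finset (Fin n))
      rw [h8, Fintype.card_fin] at h9
      exact hn h9
    rw [this, card_empty]
    exact Nat.zero_le _
  obtain ⟨d, hd1, hd2⟩ := exists_dir hx hn p q
  have hfirst := first_type hx hn hpq k hd1 hd2
  set A := (((others p q) ×ˢ (others p q) ×ˢ (others p q)).filter fun c : Fin n × Fin n × Fin n =>
      Ty x k c.1 c.2.1 c.2.2 ∧ 0 < det3 d (df x p c.1) (df x p c.2.1) ∧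
      0 < det3 d (df x p c.2.1) (df x p c.2.2) ∧ 0 < det3 d (df x p c.2.2) (df x p c.1)) with hA
  have hD : ∀ r s : Fin n, det3 d (df x p s) (df x p r) = -det3 d (df x p r) (df x p s) := by
    intro r s
    unfold det3
    ring
  have hom : ∀ t, t ∈ others p q ↔ t ≠ p ∧ t ≠ q := fun t => by simp [others]
  have hsub : (univ.filter fun c : Fin n × Fin n × Fin n =>
      Ty x k c.1 c.2.1 c.2.2 ∧ Prc x p q c.1 c.2.1 c.2.2) ⊆
      A ∪ A.image fun c => (c.2.1, c.1, c.2.2) := by
    rintro ⟨r, s, t⟩ h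
    obtain ⟨-, hT, hP⟩ := mem_filter.1 h
    rw [mem_union]
    rcases hP with ⟨h1, h2, h3⟩ | ⟨h1, h2, h3⟩
    · left
      obtain ⟨a1, a2, a3, a4, a5⟩ := dt_distinct h1.ne'
      obtain ⟨b1, b2, b3, b4, b5⟩ := dt_distinct h2.ne'
      refine mem_filter.2 ⟨?_, hT, (hd1 _ _).1 h1, (hd1 _ _).1 h2, (hd1 _ _).1 h3⟩
      rw [mem_product, mem_product]
      exact ⟨(hom _).2 ⟨a1, a2⟩, (hom _).2 ⟨a3, a4⟩, (hom _).2 ⟨b3, b4⟩⟩
    · right
      obtain ⟨a1, a2, a3, a4, a5⟩ := dt_distinct h1.ne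
      obtain ⟨b1, b2, b3, b4, b5⟩ := dt_distinct h2.ne
      refine mem_image.2 ⟨(s, r, t), mem_filter.2 ⟨?_, Ty_swap1 hT, ?_, ?_, ?_⟩, rfl⟩
      · rw [mem_product, mem_product]
        exact ⟨(hom _).2 ⟨a3, a4⟩, (hom _).2 ⟨a1, a2⟩, (hom _).2 ⟨b3, b4⟩⟩
      · have := (hd1 _ _).2 h1
        change 0 < det3 d (df x p s) (df x p r)
        rw [hD]
        linarith
      · have := (hd1 _ _).2 h3
        change 0 < det3 d (df x p r) (df x p t)
        rw [hD]
        linarith
      · have := (hd1 _ _).2 h2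
        change 0 < det3 d (df x p t) (df x p s)
        rw [hD]
        linarith
  calc _ ≤ _ := card_le_card hsub
    _ ≤ A.card + (A.image fun c => (c.2.1, c.1, c.2.2)).card := card_union_le _ _
    _ ≤ 12 * (n * n) + 12 * (n * n) := Nat.add_le_add hfirst (card_image_le.trans hfirst)
    _ = 24 * (n * n) := by ring

end Pool.Agent.HpE
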