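import Pool.Agent.HpE.Defs

/-!
# A line through two points meets few triangles of type `k`: bound through the number of edges

The proof of `Pierce.lean` (helper57); only pairs that are edges of triangles of type `k`
contribute to the sum over the edges that cross the ray.
-/

namespace Pool.Agent.HpE.PE

private theorem bl : ∀ a b c x y z : Bool, ¬ (a = y ∧ b = z ∧ c = x) → ¬ (a = !y ∧ b = !z ∧ c = !x) →
    ¬ (x = false ∧ y = false ∧ z = false) →
    ((if (a && !b && x) = true then (1 : ℤ) else 0) - (if (b && !a && !x) = true then 1 else 0)) +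
    ((if (b && !c && y) = true then 1 else 0) - (if (c && !b && !y) = true then 1 else 0)) +
    ((if (c && !a && z) = true then 1 else 0) - (if (a && !c && !z) = true then 1 else 0)) =
    if (x && y && z) = true then 1 else 0 := by
  intro a b c x y z
  cases a <;> cases b <;> cases c <;> cases x <;> cases y <;> cases z <;> simp

open Finset Classical SmH HpD

variable {n : ℕ}

private theorem four_signs {ι : Type*} {D : ι → ι → ℝ} (hD : ∀ r s, D s r = -D r s) {g : ι → ℝ} {r s t : ι}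
    (h1 : g r ≠ 0) (h2 : g s ≠ 0) (h3 : g t ≠ 0) (d1 : D r s ≠ 0) (d2 : D s t ≠ 0) (d3 : D t r ≠ 0)
    (h : g r * D s t + g s * D t r + g t * D r s = 0) (hA : 0 < D r s + D s t + D t r) :
    ((if 0 < g r ∧ g s < 0 ∧ 0 < D r s then (1 : ℤ) else 0) - (if 0 < g s ∧ g r < 0 ∧ 0 < D s r then 1 else 0)) +
    ((if 0 < g s ∧ g t < 0 ∧ 0 < D s t then (1 : ℤ) else 0) - (if 0 < g t ∧ g s < 0 ∧ 0 < D t s then 1 else 0)) +
    ((if 0 < g t ∧ g r < 0 ∧ 0 < D t r then (1 : ℤ) else 0) - (if 0 < g r ∧ g t < 0 ∧ 0 < D r t then 1 else 0)) =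
    if 0 < D r s ∧ 0 < D s t ∧ 0 < D t r then 1 else 0 := by
  have n1 : ∀ y : ℝ, y ≠ 0 → (y < 0 ↔ ¬ 0 < y) := fun y hy =>
    ⟨fun h => by linarith, fun h => lt_of_le_of_ne (not_lt.mp h) hy⟩
  rw [hD r s, hD s t, hD t r]
  simp only [neg_pos, n1 _ h1, n1 _ h2, n1 _ h3, n1 _ d1, n1 _ d2, n1 _ d3]
  have key := bl (decide (0 < g r)) (decide (0 < g s)) (decide (0 < g t)) (decide (0 < D r s))
    (decide (0 < D s t)) (decide (0 < D t r)) ?_ ?_ ?_
  · simp only [Bool.and_eq_true, decide_eq_true_eq, Bool.not_eq_true', decide_eq_false_iff_not, and_assoc] at key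
    exact key
  · simp only [decide_eq_decide]
    rintro ⟨k1, k2, k3⟩
    have m1 : 0 < g r * D s t := by
      rcases lt_or_gt_of_ne d2 with k | k
      · have : g r < 0 := (n1 _ h1).mpr (fun hh => by linarith [k1.mp hh])
        exact mul_pos_of_neg_of_neg this k
      · exact mul_pos (k1.mpr k) k
    have m2 : 0 < g s * D t r := by
      rcases lt_or_gt_of_ne d3 with k | k
      · have : g s < 0 := (n1 _ h2).mpr (fun hh => by linarith [k2.mp hh])
        exact mul_pos_of_neg_of_neg this k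
      · exact mul_pos (k2.mpr k) k
    have m3 : 0 < g t * D r s := by
      rcases lt_or_gt_of_ne d1 with k | k
      · have : g t < 0 := (n1 _ h3).mpr (fun hh => by linarith [k3.mp hh])
        exact mul_pos_of_neg_of_neg this k
      · exact mul_pos (k3.mpr k) k
    linarith
  · simp only [← decide_not, decide_eq_decide]
    rintro ⟨k1, k2, k3⟩
    have m1 : g r * D s t < 0 := by
      rcases lt_or_gt_of_ne d2 with k | k
      · exact mul_neg_of_pos_of_neg (k1.mpr (by linarith)) k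
      · exact mul_neg_of_neg_of_pos ((n1 _ h1).mpr (fun hh => (k1.mp hh) k)) k
    have m2 : g s * D t r < 0 := by
      rcases lt_or_gt_of_ne d3 with k | k
      · exact mul_neg_of_pos_of_neg (k2.mpr (by linarith)) k
      · exact mul_neg_of_neg_of_pos ((n1 _ h2).mpr (fun hh => (k2.mp hh) k)) k
    have m3 : g t * D r s < 0 := by
      rcases lt_or_gt_of_ne d1 with k | k
      · exact mul_neg_of_pos_of_neg (k3.mpr (by linarith)) k
      · exact mul_neg_of_neg_of_pos ((n1 _ h3).mpr (fun hh => (k3.mp hh) k)) k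
    linarith
  · simp only [decide_eq_false_iff_not]
    rintro ⟨k1, k2, k3⟩
    linarith

private theorem comb (O : Finset (Fin n)) (T : Fin n → Fin n → Fin n → Prop)
    (Ed : Fin n → Fin n → Prop)
    (hEd : ∀ r s t, r ≠ s → r ≠ t → s ≠ t → T r s t → Ed r s) (hT1 : ∀ r s t, T r s t → T s t r)
    (hT2 : ∀ r s t, T r s t → T s r t) (D : Fin n → Fin n → ℝ) (hD : ∀ r s, D s r = -D r s)
    (hD0 : ∀ r ∈ O, ∀ s ∈ O, r ≠ s → D r s ≠ 0) (g : Fin n → ℝ) (hg : ∀ r ∈ O, g r ≠ 0)
    (h3 : ∀ r s t, g r * D s t + g s * D t r + g t * D r s = 0)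
    (h4 : ∀ r ∈ O, ∀ s ∈ O, r ≠ s →
      (O.filter fun t => t ≠ r ∧ t ≠ s ∧ T r s t ∧ 0 < D r s + D s t + D t r).card ≤
      (O.filter fun t => t ≠ r ∧ t ≠ s ∧ T r s t ∧ D r s + D s t + D t r < 0).card + 4) :
    ((O ×ˢ O ×ˢ O).filter fun c : Fin n × Fin n × Fin n => T c.1 c.2.1 c.2.2 ∧ 0 < D c.1 c.2.1 ∧ 0 < D c.2.1 c.2.2 ∧
      0 < D c.2.2 c.1).card ≤
      12 * ((O ×ˢ O).filter fun c => 0 < g c.1 ∧ g c.2 < 0 ∧ Ed c.1 c.2).card := by
  have hDr : ∀ r, D r r = 0 := fun r => by linarith [hD r r]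
  set e : Fin n → Fin n → ℤ := fun r s => if 0 < g r ∧ g s < 0 ∧ 0 < D r s then 1 else 0 with he
  set F : Fin n → Fin n → Fin n → ℤ := fun r s t =>
    if r ≠ s ∧ r ≠ t ∧ s ≠ t ∧ T r s t ∧ 0 < D r s + D s t + D t r then 1 else 0 with hF
  have hFc : ∀ r s t, F r s t = F s t r := by
    intro r s t
    simp only [hF]
    refine if_congr ?_ rfl rfl
    constructor
    · rintro ⟨k1, k2, k3, k4, k5⟩
      exact ⟨k3, k1.symm, k2.symm, hT1 _ _ _ k4, by linarith⟩
    · rintro ⟨k1, k2, k3, k4, k5⟩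
      exact ⟨k2.symm, k3.symm, k1, hT1 _ _ _ (hT1 _ _ _ k4), by linarith⟩
  have hiv : ∀ r ∈ O, ∀ s ∈ O, ∀ t ∈ O,
      (if T r s t ∧ 0 < D r s ∧ 0 < D s t ∧ 0 < D t r then (1 : ℤ) else 0) =
      F r s t * (e r s - e s r) + F r s t * (e s t - e t s) + F r s t * (e t r - e r t) := by
    intro r hr s hs t ht
    by_cases hc : r ≠ s ∧ r ≠ t ∧ s ≠ t ∧ T r s t ∧ 0 < D r s + D s t + D t r
    · have hF1 : F r s t = 1 := if_pos hc
      obtain ⟨k1, k2, k3, k4, k5⟩ := hc
      have := four_signs hD (hg r hr) (hg s hs) (hg t ht) (hD0 r hr s hs k1) (hD0 s hs t ht k3)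
        (hD0 t ht r hr k2.symm) (h3 r s t) k5
      rw [hF1, one_mul, one_mul, one_mul]
      simp only [he]
      rw [this]
      refine if_congr ?_ rfl rfl
      exact ⟨fun h => h.2, fun h => ⟨k4, h⟩⟩
    · have hF0 : F r s t = 0 := if_neg hc
      rw [hF0, zero_mul, zero_mul, zero_mul, if_neg]
      · rfl
      · rintro ⟨k1, k2, k3, k4⟩
        apply hc
        refine ⟨?_, ?_, ?_, k1, by linarith⟩
        · rintro rfl
          rw [hDr] at k2
          exact lt_irrefl _ k2
        · rintro rfl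
          rw [hDr] at k4
          exact lt_irrefl _ k4
        · rintro rfl
          rw [hDr] at k3
          exact lt_irrefl _ k3
  have hcount : ((((O ×ˢ O ×ˢ O).filter fun c : Fin n × Fin n × Fin n => T c.1 c.2.1 c.2.2 ∧ 0 < D c.1 c.2.1 ∧
      0 < D c.2.1 c.2.2 ∧ 0 < D c.2.2 c.1).card : ℕ) : ℤ) = ∑ r ∈ O, ∑ s ∈ O, ∑ t ∈ O,
      (if T r s t ∧ 0 < D r s ∧ 0 < D s t ∧ 0 < D t r then (1 : ℤ) else 0) := by
    rw [Finset.card_filter, Finset.sum_product]
    push_cast
    refine Finset.sum_congr rfl fun r _ => ?_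
    rw [Finset.sum_product]
  set S : ℤ := ∑ r ∈ O, ∑ s ∈ O, ∑ t ∈ O, F r s t * (e r s - e s r) with hS
  have hS2 : ∑ r ∈ O, ∑ s ∈ O, ∑ t ∈ O, F r s t * (e s t - e t s) = S := by
    calc ∑ r ∈ O, ∑ s ∈ O, ∑ t ∈ O, F r s t * (e s t - e t s)
        = ∑ r ∈ O, ∑ s ∈ O, ∑ t ∈ O, F s t r * (e s t - e t s) := by
          refine Finset.sum_congr rfl fun r _ => Finset.sum_congr rfl fun s _ =>
            Finset.sum_congr rfl fun t _ => ?_
          rw [hFc]
      _ = ∑ s ∈ O, ∑ r ∈ O, ∑ t ∈ O, F s t r * (e s t - e t s) := Finset.sum_comm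
      _ = ∑ s ∈ O, ∑ t ∈ O, ∑ r ∈ O, F s t r * (e s t - e t s) :=
          Finset.sum_congr rfl fun s _ => Finset.sum_comm
  have hS3 : ∑ r ∈ O, ∑ s ∈ O, ∑ t ∈ O, F r s t * (e t r - e r t) = S := by
    calc ∑ r ∈ O, ∑ s ∈ O, ∑ t ∈ O, F r s t * (e t r - e r t)
        = ∑ r ∈ O, ∑ s ∈ O, ∑ t ∈ O, F t r s * (e t r - e r t) := by
          refine Finset.sum_congr rfl fun r _ => Finset.sum_congr rfl fun s _ =>
            Finset.sum_congr rfl fun t _ => ?_
          rw [hFc, hFc]
      _ = ∑ r ∈ O, ∑ t ∈ O, ∑ s ∈ O, F t r s * (e t r - e r t) :=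
          Finset.sum_congr rfl fun r _ => Finset.sum_comm
      _ = ∑ t ∈ O, ∑ r ∈ O, ∑ s ∈ O, F t r s * (e t r - e r t) := Finset.sum_comm
  have htot : ((((O ×ˢ O ×ˢ O).filter fun c : Fin n × Fin n × Fin n => T c.1 c.2.1 c.2.2 ∧ 0 < D c.1 c.2.1 ∧
      0 < D c.2.1 c.2.2 ∧ 0 < D c.2.2 c.1).card : ℕ) : ℤ) = 3 * S := by
    rw [hcount]
    calc _ = ∑ r ∈ O, ∑ s ∈ O, ∑ t ∈ O,
          (F r s t * (e r s - e s r) + F r s t * (e s t - e t s) + F r s t * (e t r - e r t)) :=
          Finset.sum_congr rfl fun r hr => Finset.sum_congr rfl fun s hs =>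
            Finset.sum_congr rfl fun t ht => hiv r hr s hs t ht
      _ = S + S + S := by
          simp only [Finset.sum_add_distrib]
          rw [hS2, hS3]
      _ = 3 * S := by ring
  -- the bound of `S`
  have hN : ∀ r ∈ O, ∀ s ∈ O, r ≠ s → (∑ t ∈ O, F r s t) - (∑ t ∈ O, F s r t) ≤ 4 := by
    intro r hr s hs hrs
    have c1 : ∑ t ∈ O, F r s t =
        ((O.filter fun t => t ≠ r ∧ t ≠ s ∧ T r s t ∧ 0 < D r s + D s t + D t r).card : ℤ) := by
      rw [Finset.card_filter]
      push_cast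
      refine Finset.sum_congr rfl fun t _ => ?_
      simp only [hF]
      refine if_congr ?_ rfl rfl
      constructor
      · rintro ⟨-, k2, k3, k4, k5⟩
        exact ⟨k2.symm, k3.symm, k4, k5⟩
      · rintro ⟨k2, k3, k4, k5⟩
        exact ⟨hrs, k2.symm, k3.symm, k4, k5⟩
    have c2 : ∑ t ∈ O, F s r t =
        ((O.filter fun t => t ≠ r ∧ t ≠ s ∧ T r s t ∧ D r s + D s t + D t r < 0).card : ℤ) := by
      rw [Finset.card_filter]
      push_cast
      refine Finset.sum_congr rfl fun t _ => ?_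
      simp only [hF]
      refine if_congr ?_ rfl rfl
      have k0 : D s r + D r t + D t s = -(D r s + D s t + D t r) := by
        rw [hD r s, hD t r, hD s t]
        ring
      rw [k0, neg_pos]
      constructor
      · rintro ⟨-, k2, k3, k4, k5⟩
        exact ⟨k3.symm, k2.symm, hT2 _ _ _ k4, k5⟩
      · rintro ⟨k2, k3, k4, k5⟩
        exact ⟨hrs.symm, k3.symm, k2.symm, hT2 _ _ _ k4, k5⟩
    rw [c1, c2]
    have := h4 r hr s hs hrs
    omega
  have hSle : S ≤ 4 * (((O ×ˢ O).filter fun c => 0 < g c.1 ∧ g c.2 < 0 ∧ Ed c.1 c.2).card : ℕ) := by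
    have e1 : S = ∑ r ∈ O, ∑ s ∈ O, e r s * ((∑ t ∈ O, F r s t) - (∑ t ∈ O, F s r t)) := by
      calc S = ∑ r ∈ O, ∑ s ∈ O, (e r s * (∑ t ∈ O, F r s t) - e s r * (∑ t ∈ O, F r s t)) := by
            rw [hS]
            refine Finset.sum_congr rfl fun r _ => Finset.sum_congr rfl fun s _ => ?_
            rw [← Finset.sum_mul]
            ring
        _ = (∑ r ∈ O, ∑ s ∈ O, e r s * (∑ t ∈ O, F r s t)) -
            ∑ r ∈ O, ∑ s ∈ O, e s r * (∑ t ∈ O, F r s t) := by
            simp only [Finset.sum_sub_distrib]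
        _ = (∑ r ∈ O, ∑ s ∈ O, e r s * (∑ t ∈ O, F r s t)) -
            ∑ s ∈ O, ∑ r ∈ O, e s r * (∑ t ∈ O, F r s t) := by
            rw [Finset.sum_comm (s := O) (t := O) (f := fun r s => e s r * (∑ t ∈ O, F r s t))]
        _ = _ := by
            rw [← Finset.sum_sub_distrib]
            refine Finset.sum_congr rfl fun r _ => ?_
            rw [← Finset.sum_sub_distrib]
            refine Finset.sum_congr rfl fun s _ => ?_
            ring
    rw [e1]
    calc ∑ r ∈ O, ∑ s ∈ O, e r s * ((∑ t ∈ O, F r s t) - (∑ t ∈ O, F s r t))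
        ≤ ∑ r ∈ O, ∑ s ∈ O, (if 0 < g r ∧ g s < 0 ∧ Ed r s then (4 : ℤ) else 0) := by
          refine Finset.sum_le_sum fun r hr => Finset.sum_le_sum fun s hs => ?_
          by_cases hc : 0 < g r ∧ g s < 0 ∧ 0 < D r s
          · have h1 : e r s = 1 := if_pos hc
            have hrs : r ≠ s := by
              rintro rfl
              rw [hDr] at hc
              exact lt_irrefl _ hc.2.2
            rw [h1, one_mul]
            by_cases hE : Ed r s
            · rw [if_pos ⟨hc.1, hc.2.1, hE⟩]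
              exact hN r hr s hs hrs
            · have h2 : ∀ t, F r s t = 0 := by
                intro t
                simp only [hF]
                refine if_neg ?_
                rintro ⟨k1, k2, k3, k4, _⟩
                exact hE (hEd r s t k1 k2 k3 k4)
              have h3 : ∀ t, F s r t = 0 := by
                intro t
                simp only [hF]
                refine if_neg ?_
                rintro ⟨k1, k2, k3, k4, _⟩
                exact hE (hEd r s t k1.symm k3 k2 (hT2 _ _ _ k4))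
              simp only [h2, h3, Finset.sum_const_zero, sub_zero]
              split_ifs <;> norm_num
          · have : e r s = 0 := if_neg hc
            rw [this, zero_mul]
            split_ifs <;> norm_num
      _ = 4 * (((O ×ˢ O).filter fun c => 0 < g c.1 ∧ g c.2 < 0 ∧ Ed c.1 c.2).card : ℕ) := by
          rw [Finset.card_filter, Finset.sum_product]
          push_cast
          rw [Finset.mul_sum]
          refine Finset.sum_congr rfl fun r _ => ?_
          rw [Finset.mul_sum]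
          refine Finset.sum_congr rfl fun s _ => ?_
          split_ifs <;> simp
  have : ((((O ×ˢ O ×ˢ O).filter fun c : Fin n × Fin n × Fin n => T c.1 c.2.1 c.2.2 ∧ 0 < D c.1 c.2.1 ∧
      0 < D c.2.1 c.2.2 ∧ 0 < D c.2.2 c.1).card : ℕ) : ℤ) ≤ ((12 * ((O ×ˢ O).filter fun c => 0 < g c.1 ∧ g c.2 < 0 ∧ Ed c.1 c.2).card : ℕ) : ℤ) := by
    rw [htot]
    push_cast at hSle ⊢
    linarith
  exact_mod_cast this

/-- The cross product. -/
private def cr (u v : Fin 3 → ℝ) : Fin 3 → ℝ :=
  ![u 1 * v 2 - u 2 * v 1, u 2 * v 0 - u 0 * v 2, u 0 * v 1 - u 1 * v 0]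

private theorem dot_cr (u v w : Fin 3 → ℝ) : dot (cr u v) w = det3 u v w := by
  unfold dot cr det3
  simp only [Matrix.cons_val_zero, Matrix.cons_val_one, Matrix.cons_val]
  ring

private theorem dot_cr' (u v w : Fin 3 → ℝ) : dot w (cr u v) = det3 w u v := by
  unfold dot cr det3
  simp only [Matrix.cons_val_zero, Matrix.cons_val_one, Matrix.cons_val]
  ring

private theorem cr_ne {u v w : Fin 3 → ℝ} (h : det3 u v w ≠ 0) : cr u v ≠ 0 := by
  intro h0
  apply h
  rw [← dot_cr, h0]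
  unfold dot
  simp

private theorem dt_swap1 (x : Fin n × Fin 3 → ℝ) (b p q r : Fin n) : dt x p b q r = -dt x b p q r := by
  unfold dt det3 df
  ring

private theorem Ty_swap1 {x : Fin n × Fin 3 → ℝ} {k : ℕ} {b p q : Fin n} (h : Ty x k b p q) :
    Ty x k p b q := by
  have h1 : (univ.filter fun r => 0 < dt x p b q r) = univ.filter fun r => dt x b p q r < 0 := by
    apply filter_congr
    intro r _
    rw [dt_swap1]
    constructor <;> intro h <;> linarith
  have h2 : (univ.filter fun r => dt x p b q r < 0) = univ.filter fun r => 0 < dt x b p q r := by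
    apply filter_congr
    intro r _
    rw [dt_swap1]
    constructor <;> intro h <;> linarith
  unfold Ty at h ⊢
  rw [h1, h2]
  exact h.symm

private theorem dt_distinct {x : Fin n × Fin 3 → ℝ} {p q r s : Fin n} (h : dt x p q r s ≠ 0) :
    r ≠ p ∧ r ≠ q ∧ s ≠ p ∧ s ≠ q ∧ r ≠ s := by
  refine ⟨?_, ?_, ?_, ?_, ?_⟩
  · rintro rfl
    apply h
    unfold dt det3 df
    ring
  · rintro rfl
    apply h
    unfold dt det3 df
    ring
  · rintro rfl
    exact h (dt_left _ _ _ _)
  · rintro rfl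
    exact h (dt_mid _ _ _ _)
  · rintro rfl
    exact h (dt_right _ _ _ _)

open Filter Topology in
private theorem ev_pos {a : ℝ} (b : ℝ) (h : 0 < a) : ∀ᶠ ε in 𝓝[>] (0 : ℝ), 0 < a + ε * b := by
  have h1 : Tendsto (fun ε : ℝ => a + ε * b) (𝓝 0) (𝓝 (a + 0 * b)) := by
    apply Continuous.tendsto
    fun_prop
  rw [zero_mul, add_zero] at h1
  exact (h1.mono_left nhdsWithin_le_nhds).eventually (lt_mem_nhds h)

open Filter Topology in
private theorem ev_ne (a : ℝ) {b : ℝ} (h : b ≠ 0) : ∀ᶠ ε in 𝓝[>] (0 : ℝ), a + ε * b ≠ 0 := by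
  rcases lt_trichotomy a 0 with ha | ha | ha
  · filter_upwards [ev_pos (-b) (neg_pos.mpr ha)] with ε hε
    intro h1
    linarith
  · filter_upwards [self_mem_nhdsWithin] with ε hε
    rw [ha, zero_add]
    exact mul_ne_zero (ne_of_gt hε) h
  · filter_upwards [ev_pos b ha] with ε hε
    exact hε.ne'

open Filter Topology in
private theorem exists_dir {x : Fin n × Fin 3 → ℝ} (hx : GenPos x) (hn : 4 ≤ n) {p q : Fin n}
    (hpq : p ≠ q) (u : Fin 3 → ℝ) (hu : dot u (df x p q) = 0) :
    ∃ d w0 : Fin 3 → ℝ, (∀ r s : Fin n, (0 < dt x p q r s → 0 < det3 d (df x p r) (df x p s)) ∧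
      (dt x p q r s < 0 → det3 d (df x p r) (df x p s) < 0)) ∧
      (∀ r s t : Fin n, r ≠ s → r ≠ t → s ≠ t → det3 d (df x r s) (df x r t) ≠ 0) ∧
      ∀ r : Fin n, dot u (df x p r) < 0 → dot (cr w0 d) (df x p r) < 0 := by
  have hd0 := df_ne hx hn (Ne.symm hpq)
  set N : ℝ := df x p q 0 ^ 2 + df x p q 1 ^ 2 + df x p q 2 ^ 2 with hN
  have hN0 : N ≠ 0 := by
    intro h
    apply hd0
    have h0 : df x p q 0 = 0 := by nlinarith [sq_nonneg (df x p q 0), sq_nonneg (df x p q 1), sq_nonneg (df x p q 2)]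
    have h1 : df x p q 1 = 0 := by nlinarith [sq_nonneg (df x p q 0), sq_nonneg (df x p q 1), sq_nonneg (df x p q 2)]
    have h2 : df x p q 2 = 0 := by nlinarith [sq_nonneg (df x p q 0), sq_nonneg (df x p q 1), sq_nonneg (df x p q 2)]
    funext c
    fin_cases c
    · exact h0
    · exact h1
    · exact h2
  let w0 : Fin 3 → ℝ := fun c => cr (df x p q) u c / N
  have hw0 : ∀ v : Fin 3 → ℝ, dot (cr w0 (df x p q)) v = dot u v := by
    intro v
    have h1 : dot (cr w0 (df x p q)) v * N = dot u v * N := by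
      have h2 : dot (cr w0 (df x p q)) v * N = dot (cr (cr (df x p q) u) (df x p q)) v := by
        simp only [w0, dot_cr]
        unfold det3
        field_simp
      rw [h2, hN]
      have h3 : dot (cr (cr (df x p q) u) (df x p q)) v =
          dot u v * (df x p q 0 ^ 2 + df x p q 1 ^ 2 + df x p q 2 ^ 2) -
          dot u (df x p q) * dot (df x p q) v := by
        unfold dot cr
        simp only [Matrix.cons_val_zero, Matrix.cons_val_one, Matrix.cons_val]
        ring
      rw [h3, hu, zero_mul, sub_zero]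
    exact mul_right_cancel₀ hN0 h1
  obtain ⟨w, hw⟩ := exists_functional
    ((univ.filter fun c : Fin n × Fin n × Fin n => c.1 ≠ c.2.1 ∧ c.1 ≠ c.2.2 ∧ c.2.1 ≠ c.2.2).image
      fun c => cr (df x c.1 c.2.1) (df x c.1 c.2.2)) (by
    intro y hy
    obtain ⟨c, hc, rfl⟩ := mem_image.1 hy
    obtain ⟨-, h1, h2, h3⟩ := mem_filter.1 hc
    obtain ⟨e, k1, k2, k3⟩ := exists_fourth hn c.1 c.2.1 c.2.2
    exact cr_ne (dt_ne hx h1 h2 k1.symm h3 k2.symm k3.symm))
  have hw' : ∀ r s t : Fin n, r ≠ s → r ≠ t → s ≠ t → det3 w (df x r s) (df x r t) ≠ 0 := by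
    intro r s t h1 h2 h3
    rw [← dot_cr']
    exact hw _ (mem_image.2 ⟨(r, s, t), mem_filter.2 ⟨mem_univ _, h1, h2, h3⟩, rfl⟩)
  have hlin : ∀ (ε : ℝ) (X Y : Fin 3 → ℝ), det3 (fun c => df x p q c + ε * w c) X Y =
      det3 (df x p q) X Y + ε * det3 w X Y := by
    intro ε X Y
    unfold det3
    ring
  have e1 : ∀ᶠ ε in 𝓝[>] (0 : ℝ), ∀ r s : Fin n,
      (0 < dt x p q r s → 0 < det3 (fun c => df x p q c + ε * w c) (df x p r) (df x p s)) ∧
      (dt x p q r s < 0 → det3 (fun c => df x p q c + ε * w c) (df x p r) (df x p s) < 0) := by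
    refine Filter.eventually_all.mpr fun r => Filter.eventually_all.mpr fun s => ?_
    rcases lt_trichotomy (dt x p q r s) 0 with h | h | h
    · filter_upwards [ev_pos (-det3 w (df x p r) (df x p s)) (neg_pos.mpr h)] with ε hε
      refine ⟨fun h1 => by linarith, fun _ => ?_⟩
      rw [hlin]
      change dt x p q r s + _ < 0
      linarith
    · exact Filter.Eventually.of_forall fun ε => ⟨fun h1 => by linarith, fun h1 => by linarith⟩
    · filter_upwards [ev_pos (det3 w (df x p r) (df x p s)) h] with ε hε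
      refine ⟨fun _ => ?_, fun h1 => by linarith⟩
      rw [hlin]
      exact hε
  have e2 : ∀ᶠ ε in 𝓝[>] (0 : ℝ), ∀ r s t : Fin n, r ≠ s → r ≠ t → s ≠ t →
      det3 (fun c => df x p q c + ε * w c) (df x r s) (df x r t) ≠ 0 := by
    refine Filter.eventually_all.mpr fun r => Filter.eventually_all.mpr fun s =>
      Filter.eventually_all.mpr fun t => ?_
    by_cases h : r ≠ s ∧ r ≠ t ∧ s ≠ t
    · filter_upwards [ev_ne (det3 (df x p q) (df x r s) (df x r t)) (hw' r s t h.1 h.2.1 h.2.2)] with ε hε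
      intro _ _ _
      rw [hlin]
      exact hε
    · exact Filter.Eventually.of_forall fun ε h1 h2 h3 => absurd ⟨h1, h2, h3⟩ h
  have e3 : ∀ᶠ ε in 𝓝[>] (0 : ℝ), ∀ r : Fin n, dot u (df x p r) < 0 →
      dot (cr w0 (fun c => df x p q c + ε * w c)) (df x p r) < 0 := by
    refine Filter.eventually_all.mpr fun r => ?_
    by_cases h : dot u (df x p r) < 0
    · filter_upwards [ev_pos (-dot (cr w0 w) (df x p r)) (neg_pos.mpr h)] with ε hε
      intro _
      have h1 : dot (cr w0 (fun c => df x p q c + ε * w c)) (df x p r) =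
          dot (cr w0 (df x p q)) (df x p r) + ε * dot (cr w0 w) (df x p r) := by
        simp only [dot_cr]
        unfold det3
        ring
      rw [h1, hw0]
      linarith
    · exact Filter.Eventually.of_forall fun ε h1 => absurd h1 h
  obtain ⟨ε, ⟨h1, h2⟩, h3⟩ := ((e1.and e2).and e3).exists
  exact ⟨_, w0, h1, h2, h3⟩

open Filter Topology in
private theorem first_type {x : Fin n × Fin 3 → ℝ} (hx : GenPos x) (hn : 4 ≤ n) {p q : Fin n} (hpq : p ≠ q) (k : ℕ)
    (Ed : Fin n → Fin n → Prop)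
    (hEd : ∀ r s t, r ≠ s → r ≠ t → s ≠ t → Ty x k r s t → Ed r s)
    (hEs : ∀ r s, Ed r s → Ed s r)
    (u : Fin 3 → ℝ) {d w0 : Fin 3 → ℝ}
    (hd3 : ∀ r : Fin n, dot u (df x p r) < 0 → dot (cr w0 d) (df x p r) < 0) (hd1 : ∀ r s : Fin n, (0 < dt x p q r s → 0 < det3 d (df x p r) (df x p s)) ∧
      (dt x p q r s < 0 → det3 d (df x p r) (df x p s) < 0))
    (hd2 : ∀ r s t : Fin n, r ≠ s → r ≠ t → s ≠ t → det3 d (df x r s) (df x r t) ≠ 0) :
    (((others p q) ×ˢ (others p q) ×ˢ (others p q)).filter fun c : Fin n × Fin n × Fin n =>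
      Ty x k c.1 c.2.1 c.2.2 ∧ 0 < det3 d (df x p c.1) (df x p c.2.1) ∧
      0 < det3 d (df x p c.2.1) (df x p c.2.2) ∧ 0 < det3 d (df x p c.2.2) (df x p c.1)).card ≤
      12 * (univ.filter fun c : Fin n × Fin n => c.1 < c.2 ∧ Ed c.1 c.2).card := by
  set O := others p q with hO
  have hOm : ∀ r, r ∈ O ↔ r ≠ p ∧ r ≠ q := fun r => by simp [hO, others]
  have hD : ∀ r s : Fin n, det3 d (df x p s) (df x p r) = -det3 d (df x p r) (df x p s) := by
    intro r s
    unfold det3
    ring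
  have hD0 : ∀ r ∈ O, ∀ s ∈ O, r ≠ s → det3 d (df x p r) (df x p s) ≠ 0 := by
    intro r hr s hs hrs
    rw [hOm] at hr hs
    have h1 := dt_ne hx hpq hr.1.symm hs.1.symm hr.2.symm hs.2.symm hrs
    rcases lt_or_gt_of_ne h1 with h2 | h2
    · exact ((hd1 r s).2 h2).ne
    · exact ((hd1 r s).1 h2).ne'
  obtain ⟨w', hw'⟩ := exists_functional (O.image fun r => cr d (df x p r)) (by
    intro y hy
    obtain ⟨r, hr, rfl⟩ := mem_image.1 hy
    obtain ⟨s, k1, k2, k3⟩ := exists_fourth hn p q r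
    exact cr_ne (hD0 r hr s ((hOm s).2 ⟨k1, k2⟩) k3.symm))
  obtain ⟨w, hw, hwu⟩ : ∃ w : Fin 3 → ℝ, (∀ r ∈ O, dot (cr w d) (df x p r) ≠ 0) ∧
      ∀ r, dot u (df x p r) < 0 → dot (cr w d) (df x p r) < 0 := by
    have hlin : ∀ (ε : ℝ) (v : Fin 3 → ℝ), dot (cr (fun c => w0 c + ε * w' c) d) v =
        dot (cr w0 d) v + ε * dot (cr w' d) v := by
      intro ε v
      simp only [dot_cr]
      unfold det3
      ring
    have e1 : ∀ᶠ ε in 𝓝[>] (0 : ℝ), ∀ r : Fin n, r ∈ O →
        dot (cr (fun c => w0 c + ε * w' c) d) (df x p r) ≠ 0 := by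
      refine Filter.eventually_all.mpr fun r => ?_
      by_cases h : r ∈ O
      · have h1 : dot (cr w' d) (df x p r) ≠ 0 := by
          have := hw' _ (mem_image.2 ⟨r, h, rfl⟩)
          rw [dot_cr'] at this
          rw [dot_cr]
          exact this
        filter_upwards [ev_ne (dot (cr w0 d) (df x p r)) h1] with ε hε
        intro _
        rw [hlin]
        exact hε
      · exact Filter.Eventually.of_forall fun ε h1 => absurd h1 h
    have e2 : ∀ᶠ ε in 𝓝[>] (0 : ℝ), ∀ r : Fin n, dot u (df x p r) < 0 →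
        dot (cr (fun c => w0 c + ε * w' c) d) (df x p r) < 0 := by
      refine Filter.eventually_all.mpr fun r => ?_
      by_cases h : dot u (df x p r) < 0
      · filter_upwards [ev_pos (-dot (cr w' d) (df x p r)) (neg_pos.mpr (hd3 r h))] with ε hε
        intro _
        rw [hlin]
        linarith
      · exact Filter.Eventually.of_forall fun ε h1 => absurd h1 h
    obtain ⟨ε, h1, h2⟩ := (e1.and e2).exists
    exact ⟨_, h1, h2⟩
  have hAeq : ∀ r s t : Fin n, det3 d (df x p r) (df x p s) + det3 d (df x p s) (df x p t) +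
      det3 d (df x p t) (df x p r) = det3 d (df x r s) (df x r t) := by
    intro r s t
    unfold det3 df
    ring
  have main := comb O (fun r s t => Ty x k r s t) Ed hEd (fun r s t h => Ty_symm (Ty_swap1 h))
    (fun r s t h => Ty_swap1 h) (fun r s => det3 d (df x p r) (df x p s)) hD hD0
    (fun r => dot (cr w d) (df x p r)) ?_ ?_ ?_
  · refine main.trans ?_
    refine Nat.mul_le_mul_left _ ?_
    refine card_le_card_of_injOn (fun c => if c.1 < c.2 then c else (c.2, c.1)) ?_ ?_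
    · intro c hc
      obtain ⟨h1, h2, h3, h4⟩ := mem_filter.1 (mem_coe.1 hc)
      have hne : c.1 ≠ c.2 := by
        intro h
        rw [h] at h2
        exact lt_asymm h2 h3
      rw [mem_coe, mem_filter]
      refine ⟨mem_univ _, ?_⟩
      dsimp only
      split_ifs with h5
      · exact ⟨h5, h4⟩
      · exact ⟨lt_of_le_of_ne (not_lt.1 h5) hne.symm, hEs _ _ h4⟩
    · intro c hc c' hc' h
      obtain ⟨h1, h2, h3, h4⟩ := mem_filter.1 (mem_coe.1 hc)
      obtain ⟨h1', h2', h3', h4'⟩ := mem_filter.1 (mem_coe.1 hc')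
      dsimp only at h
      split_ifs at h with h5 h6 h6
      · exact h
      · exfalso
        have e1 : c.1 = c'.2 := congrArg Prod.fst h
        rw [e1] at h2
        exact lt_asymm h2 h3'
      · exfalso
        have e1 : c.2 = c'.1 := congrArg Prod.fst h
        rw [e1] at h3
        exact lt_asymm h2' h3
      · exact Prod.ext (congrArg Prod.snd h) (congrArg Prod.fst h)
  · intro r hr
    exact hw r hr
  · intro r s t
    have h0 : dot (cr w d) d = 0 := by
      rw [dot_cr]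
      unfold det3
      ring
    have h1 := four (cr w d) d (df x p r) (df x p s) (df x p t)
    rw [h0, hD t r] at h1
    linear_combination -h1
  · intro r hr s hs hrs
    have hr' := (hOm r).1 hr
    have hs' := (hOm s).1 hs
    have h1 := (alt hx (b := r) (p := s) hrs.symm (cr d (df x r s)) (by
      rw [dot_cr]
      unfold det3
      ring) (fun t h1 h2 => by
      rw [dot_cr]
      exact hd2 r s t hrs h1.symm h2.symm) k).1
    have hA' : ∀ t, det3 d (df x r s) (df x r t) = det3 d (df x p r) (df x p s) + det3 d (df x p s) (df x p t) +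
        det3 d (df x p t) (df x p r) := fun t => (hAeq r s t).symm
    simp only [dot_cr, hA'] at h1
    have hom : ∀ t, t ∈ others r s ↔ t ≠ r ∧ t ≠ s := fun t => by simp [others]
    have h2 : (O.filter fun t => t ≠ r ∧ t ≠ s ∧ Ty x k r s t ∧ 0 < det3 d (df x p r) (df x p s) +
        det3 d (df x p s) (df x p t) + det3 d (df x p t) (df x p r)) ⊆
        ((others r s).filter fun t => 0 < det3 d (df x p r) (df x p s) +
        det3 d (df x p s) (df x p t) + det3 d (df x p t) (df x p r) ∧ Ty x k r s t) := by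
      intro t ht
      obtain ⟨-, k1, k2, k3, k4⟩ := mem_filter.1 ht
      exact mem_filter.2 ⟨(hom t).2 ⟨k1, k2⟩, k4, k3⟩
    have h3 : ((others r s).filter fun t => ¬ 0 < det3 d (df x p r) (df x p s) +
        det3 d (df x p s) (df x p t) + det3 d (df x p t) (df x p r) ∧ Ty x k r s t) ⊆
        (O.filter fun t => t ≠ r ∧ t ≠ s ∧ Ty x k r s t ∧ det3 d (df x p r) (df x p s) +
        det3 d (df x p s) (df x p t) + det3 d (df x p t) (df x p r) < 0) ∪ {p, q} := by
      intro t ht
      obtain ⟨k1, k2, k3⟩ := mem_filter.1 ht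
      rw [hom] at k1
      rw [mem_union]
      by_cases hO : t ∈ O
      · left
        refine mem_filter.2 ⟨hO, k1.1, k1.2, k3, lt_of_le_of_ne (not_lt.mp k2) ?_⟩
        rw [hAeq]
        exact hd2 r s t hrs k1.1.symm k1.2.symm
      · right
        rw [hOm, not_and_or, not_not, not_not] at hO
        rw [mem_insert, mem_singleton]
        exact hO
    have h4 := card_le_card h2
    have h5 := card_le_card h3
    have h6 := card_union_le (O.filter fun t => t ≠ r ∧ t ≠ s ∧ Ty x k r s t ∧ det3 d (df x p r) (df x p s) +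
        det3 d (df x p s) (df x p t) + det3 d (df x p t) (df x p r) < 0) {p, q}
    have h7 : ({p, q} : Finset (Fin n)).card ≤ 2 := card_le_two
    calc _ ≤ _ := h4
      _ ≤ _ := h1
      _ ≤ _ := Nat.add_le_add_right (h5.trans h6) 2
      _ ≤ _ := by omega

/-- A line through two points meets at most `24 e` triangles of type `k`, `e` the number of their
edges. -/
theorem pierce_card_edges {x : Fin n × Fin 3 → ℝ} (hx : GenPos x) (hn : 4 ≤ n) {p q : Fin n}
    (hpq : p ≠ q) (k : ℕ) (Ed : Fin n → Fin n → Prop)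
    (hEd : ∀ r s t, r ≠ s → r ≠ t → s ≠ t → Ty x k r s t → Ed r s)
    (hEs : ∀ r s, Ed r s → Ed s r) :
    (univ.filter fun c : Fin n × Fin n × Fin n =>
      Ty x k c.1 c.2.1 c.2.2 ∧ Prc x p q c.1 c.2.1 c.2.2).card ≤
      24 * (univ.filter fun c : Fin n × Fin n => c.1 < c.2 ∧ Ed c.1 c.2).card := by
  obtain ⟨d, w0, hd1, hd2, hd3⟩ := exists_dir hx hn hpq (fun _ => 0) (by unfold dot; ring)
  have hfirst := first_type hx hn hpq k Ed hEd hEs (fun _ => 0) hd3 hd1 hd2
  set A := (((others p q) ×ˢ (others p q) ×ˢ (others p q)).filter fun c : Fin n × Fin n × Fin n =>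
      Ty x k c.1 c.2.1 c.2.2 ∧ 0 < det3 d (df x p c.1) (df x p c.2.1) ∧
      0 < det3 d (df x p c.2.1) (df x p c.2.2) ∧ 0 < det3 d (df x p c.2.2) (df x p c.1)) with hA
  have hD : ∀ r s : Fin n, det3 d (df x p s) (df x p r) = -det3 d (df x p r) (df x p s) := by
    intro r s
    unfold det3
    ring
  have hom : ∀ t, t ∈ others p q ↔ t ≠ p ∧ t ≠ q := fun t => by simp [others]
  have hsub : (univ.filter fun c : Fin n × Fin n × Fin n =>
      Ty x k c.1 c.2.1 c.2.2 ∧ Prc x p q c.1 c.2.1 c.2.2) ⊆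
      A ∪ A.image fun c => (c.2.1, c.1, c.2.2) := by
    rintro ⟨r, s, t⟩ h
    obtain ⟨-, hT, hP⟩ := mem_filter.1 h
    rw [mem_union]
    rcases hP with ⟨h1, h2, h3⟩ | ⟨h1, h2, h3⟩
    · left
      obtain ⟨a1, a2, a3, a4, a5⟩ := dt_distinct h1.ne'
      obtain ⟨b1, b2, b3, b4, b5⟩ := dt_distinct h2.ne'
      refine mem_filter.2 ⟨?_, hT, (hd1 _ _).1 h1, (hd1 _ _).1 h2, (hd1 _ _).1 h3⟩
      rw [mem_product, mem_product]
      exact ⟨(hom _).2 ⟨a1, a2⟩, (hom _).2 ⟨a3, a4⟩, (hom _).2 ⟨b3, b4⟩⟩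
    · right
      obtain ⟨a1, a2, a3, a4, a5⟩ := dt_distinct h1.ne
      obtain ⟨b1, b2, b3, b4, b5⟩ := dt_distinct h2.ne
      refine mem_image.2 ⟨(s, r, t), mem_filter.2 ⟨?_, Ty_swap1 hT, ?_, ?_, ?_⟩, rfl⟩
      · rw [mem_product, mem_product]
        exact ⟨(hom _).2 ⟨a3, a4⟩, (hom _).2 ⟨a1, a2⟩, (hom _).2 ⟨b3, b4⟩⟩
      · have := (hd1 _ _).2 h1
        change 0 < det3 d (df x p s) (df x p r)
        rw [hD]
        linarith
      · have := (hd1 _ _).2 h3
        change 0 < det3 d (df x p r) (df x p t)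
        rw [hD]
        linarith
      · have := (hd1 _ _).2 h2
        change 0 < det3 d (df x p t) (df x p s)
        rw [hD]
        linarith
  calc _ ≤ _ := card_le_card hsub
    _ ≤ A.card + (A.image fun c => (c.2.1, c.1, c.2.2)).card := card_union_le _ _
    _ ≤ _ := Nat.add_le_add hfirst (card_image_le.trans hfirst)
    _ = _ := by ring

end Pool.Agent.HpE.PE
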