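import Pool.Agent.HpE.Sum
import Pool.Agent.HpD.Part

/-!
# The number of triples, split into two sets of middle points
-/

namespace Pool.Agent.HpE

open Finset Classical SmH HpD

variable {n : ℕ}

/-- the number of triples with middle point `b` -/
noncomputable def mid (x : Fin n × Fin 3 → ℝ) (z : Fin 3 → ℝ) (k : ℕ) (b : Fin n) : ℕ :=
  (((univ.erase b) ×ˢ (univ.erase b)).filter fun c : Fin n × Fin n =>
      Ty x k b c.1 c.2 ∧ dot z (df x b c.1) < 0 ∧ 0 < dot z (df x b c.2)).card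

theorem tri_card (x : Fin n × Fin 3 → ℝ) (z : Fin 3 → ℝ) (k : ℕ) :
    (tri x z k).card = ∑ b : Fin n, mid x z k b := by
  unfold mid
  rw [← card_sigma]
  refine card_bij' (fun c _ => ⟨c.1, c.2⟩) (fun c _ => (c.1, c.2)) ?_ ?_ ?_ ?_
  · rintro ⟨b, p, q⟩ h
    rw [tri, mem_filter] at h
    obtain ⟨_, h2, h3, h4⟩ := h
    rw [mem_sigma]
    refine ⟨mem_univ _, ?_⟩
    rw [mem_filter, mem_product]
    refine ⟨⟨mem_erase.2 ⟨?_, mem_univ _⟩, mem_erase.2 ⟨?_, mem_univ _⟩⟩, h4, ?_, ?_⟩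
    · intro h5
      change p = b at h5
      rw [h5] at h2
      exact lt_irrefl _ h2
    · intro h5
      change q = b at h5
      rw [h5] at h3
      exact lt_irrefl _ h3
    · rw [dot_df]
      exact sub_neg.2 h2
    · rw [dot_df]
      exact sub_pos.2 h3
  · rintro ⟨b, p, q⟩ h
    rw [mem_sigma, mem_filter] at h
    obtain ⟨_, _, h4, h2, h3⟩ := h
    rw [dot_df] at h2 h3
    rw [tri, mem_filter]
    exact ⟨mem_univ _, sub_neg.1 h2, sub_pos.1 h3, h4⟩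
  · rintro ⟨b, p, q⟩ _
    rfl
  · rintro ⟨b, p, q⟩ _
    rfl

/-- a functional in general position, with the condition on four points -/
theorem exists_generic4 {x : Fin n × Fin 3 → ℝ} (hx : GenPos x) (hn : 4 ≤ n)
    (w : Fin n → Fin 3 → ℝ) : ∃ z : Fin 3 → ℝ,
      (∀ b q, q ≠ b → dot z (df x b q) ≠ 0) ∧
      (∀ b p q, p ≠ b → q ≠ b → p ≠ q → dot (w b) (df x b p) ≠ 0 →
        dot z (df x b p) * dot (w b) (df x b q) - dot z (df x b q) * dot (w b) (df x b p) ≠ 0) ∧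
      (∀ a p q r s, p ≠ a → q ≠ a → r ≠ a → s ≠ a → p ≠ q → p ≠ r → p ≠ s → q ≠ r → q ≠ s →
        r ≠ s → dt x a p r s * dot z (df x a q) - dt x a q r s * dot z (df x a p) ≠ 0) := by
  let Y1 : Finset (Fin 3 → ℝ) := (univ.filter fun c : Fin n × Fin n => c.2 ≠ c.1).image
    fun c => df x c.1 c.2
  let g : Fin n × Fin n × Fin n → Fin 3 → ℝ := fun c i =>
    dot (w c.1) (df x c.1 c.2.2) * df x c.1 c.2.1 i +
      (-dot (w c.1) (df x c.1 c.2.1)) * df x c.1 c.2.2 i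
  let Y2 : Finset (Fin 3 → ℝ) := (univ.filter fun c : Fin n × Fin n × Fin n =>
    c.2.1 ≠ c.1 ∧ c.2.2 ≠ c.1 ∧ c.2.1 ≠ c.2.2 ∧ dot (w c.1) (df x c.1 c.2.1) ≠ 0).image g
  let g4 : Fin n × Fin n × Fin n × Fin n × Fin n → Fin 3 → ℝ := fun c i =>
    (-dt x c.1 c.2.2.1 c.2.2.2.1 c.2.2.2.2) * df x c.1 c.2.1 i +
      dt x c.1 c.2.1 c.2.2.2.1 c.2.2.2.2 * df x c.1 c.2.2.1 i
  let Y3 : Finset (Fin 3 → ℝ) := (univ.filter fun c : Fin n × Fin n × Fin n × Fin n × Fin n =>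
    c.2.1 ≠ c.1 ∧ c.2.2.1 ≠ c.1 ∧ c.2.1 ≠ c.2.2.1 ∧
      dt x c.1 c.2.1 c.2.2.2.1 c.2.2.2.2 ≠ 0).image g4
  obtain ⟨z, hz⟩ := exists_functional (Y1 ∪ (Y2 ∪ Y3)) (by
    intro y hy
    rw [mem_union, mem_union] at hy
    rcases hy with hy | hy | hy
    · obtain ⟨c, hc, rfl⟩ := mem_image.1 hy
      exact df_ne hx hn (mem_filter.1 hc).2
    · obtain ⟨c, hc, rfl⟩ := mem_image.1 hy
      obtain ⟨_, h1, h2, h3, h4⟩ := mem_filter.1 hc
      exact comb_ne hx hn h1 h2 h3 (Or.inr (neg_ne_zero.2 h4))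
    · obtain ⟨c, hc, rfl⟩ := mem_image.1 hy
      obtain ⟨_, h1, h2, h3, h4⟩ := mem_filter.1 hc
      exact comb_ne hx hn h1 h2 h3 (Or.inr h4))
  refine ⟨z, fun b q hq => ?_, fun b p q hp hq hpq hw => ?_, ?_⟩
  · exact hz _ (mem_union_left _ (mem_image.2 ⟨(b, q), mem_filter.2 ⟨mem_univ _, hq⟩, rfl⟩))
  · have h1 := hz _ (mem_union_right _ (mem_union_left _ (mem_image.2 ⟨(b, p, q),
      mem_filter.2 ⟨mem_univ _, hp, hq, hpq, hw⟩, rfl⟩)))
    intro h2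
    apply h1
    simp only [g]
    unfold dot at h2 ⊢
    linear_combination h2
  · intro a p q r s hp hq hr hs hpq hpr hps hqr hqs hrs
    have h1 := hz _ (mem_union_right _ (mem_union_right _ (mem_image.2 ⟨(a, p, q, r, s),
      mem_filter.2 ⟨mem_univ _, hp, hq, hpq, dt_ne hx hp.symm hr.symm hs.symm hpr hps hrs⟩, rfl⟩)))
    intro h2
    apply h1
    simp only [g4]
    unfold dot at h2 ⊢
    linear_combination h2

/-- the points of `S` as middle points -/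
theorem sum_mid_le {x : Fin n × Fin 3 → ℝ} (hx : GenPos x) (hn : 4 ≤ n) (z : Fin 3 → ℝ)
    (hz : ∀ a q, q ≠ a → dot z (df x a q) ≠ 0)
    (hz4 : ∀ a p q r s, p ≠ a → q ≠ a → r ≠ a → s ≠ a → p ≠ q → p ≠ r → p ≠ s → q ≠ r → q ≠ s →
      r ≠ s → dt x a p r s * dot z (df x a q) - dt x a q r s * dot z (df x a p) ≠ 0) (k : ℕ)
    (S : Finset (Fin n)) :
    (∑ b ∈ S, (mid x z k b : ℝ)) ≤ 43.1 * n ^ 2 * Real.sqrt S.card := by
  have h1 : (∑ b ∈ S, (mid x z k b : ℝ)) ^ 2 ≤ S.card * ∑ b ∈ S, (mid x z k b : ℝ) ^ 2 :=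
    sq_sum_le_card_mul_sum_sq
  have h2 : ∑ b ∈ S, (mid x z k b : ℝ) ^ 2 ≤ 1856 * (n : ℝ) ^ 4 := by
    have h3 := sum_sq hx hn z hz hz4 k
    have h4 : ∑ b ∈ S, (mid x z k b : ℝ) ^ 2 ≤ ∑ b : Fin n, (mid x z k b : ℝ) ^ 2 :=
      sum_le_sum_of_subset_of_nonneg (subset_univ _) (fun _ _ _ => by positivity)
    refine h4.trans ?_
    exact_mod_cast h3
  have h3 : (∑ b ∈ S, (mid x z k b : ℝ)) ^ 2 ≤ (43.1 * n ^ 2 * Real.sqrt S.card) ^ 2 := by
    rw [mul_pow, Real.sq_sqrt (Nat.cast_nonneg _)]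
    refine h1.trans ?_
    have h5 : (S.card : ℝ) * ∑ b ∈ S, (mid x z k b : ℝ) ^ 2 ≤ S.card * (1856 * (n : ℝ) ^ 4) :=
      mul_le_mul_of_nonneg_left h2 (Nat.cast_nonneg _)
    refine h5.trans ?_
    have h6 : (0 : ℝ) ≤ S.card * (n : ℝ) ^ 4 := by positivity
    nlinarith
  exact le_of_sq_le_sq h3 (by positivity)

/-- the other points as middle points -/
theorem mid_le {x : Fin n × Fin 3 → ℝ} (hx : GenPos x) (z w : Fin 3 → ℝ) (b : Fin n)
    (hz : ∀ q, q ≠ b → dot z (df x b q) ≠ 0)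
    (hgen : ∀ p q, p ≠ b → q ≠ b → p ≠ q → dot w (df x b p) ≠ 0 →
      dot z (df x b p) * dot w (df x b q) - dot z (df x b q) * dot w (df x b p) ≠ 0) (k : ℕ) :
    mid x z k b ≤ n * (((univ.erase b).filter fun q => 0 ≤ dot w (df x b q)).card + 2) := by
  have h2 := link_bound hx b z w k hz hgen
  have h3 : (univ.erase b : Finset (Fin n)).card ≤ n := by
    calc _ ≤ (univ : Finset (Fin n)).card := card_le_card (erase_subset _ _)
      _ = n := by rw [card_univ, Fintype.card_fin]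
  calc _ ≤ _ := h2
    _ = (univ.erase b : Finset (Fin n)).card *
        (((univ.erase b).filter fun q => 0 ≤ dot w (df x b q)).card + 2) := by ring
    _ ≤ _ := Nat.mul_le_mul_right _ h3

end Pool.Agent.HpE
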