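import Pool.Agent.HpE.Cross
import Pool.Agent.HpE.Count

/-!
# The sum of the squares over the middle points

Paper proof. Choose with `HpD.exists_functional` a vector
`e` with `det3 (df x a p) (df x a q) e ≠ 0` for `p ≠ q`, `p, q ≠ a`, with `dot z e ≠ 0` and
`e 2 ≠ 0`. For each `a` let `Q = univ.erase a`,
`Z q = dot z (df x a q)` and `W q = (e 2 * v 0 - e 0 * v 2, e 2 * v 1 - e 1 * v 2)`, `v = df x a q`.
Then `E3 W Z p q r = κ * dt x a p q r` with the constant `κ = e 2 * dot z e`, and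
`dd (W p) (W q) = e 2 * det3 (df x a p) (df x a q) e`. So `Gen Q W Z` holds
(`h4` is the last hypothesis on `z`), each of `Tt Q W Z u` with `u = k` and `u = n - 3 - k` implies
`Ty x k a`, and `Ty x k a p q` implies one of them (the numbers of `r` with `dt > 0` and `dt < 0`
add up to `n - 3`). So the middle set of `a` is contained in the union of `Eq0` for two values of
`u`; `(m₁ + m₂)² ≤ 2 m₁² + 2 m₂²`, `flat_count` for both, `cross_prc` maps `CrF` into the set of
`sum_cross`, whose sum is at most `48 n⁴`. Total: `4 (8 · 48 + 80) n⁴ = 1856 n⁴`.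
-/

namespace Pool.Agent.HpE

open Finset Classical SmH HpD

variable {n : ℕ}

theorem mem_CrF {ι : Type*} {Q : Finset ι} {W : ι → ℝ × ℝ} {Z : ι → ℝ} {u : ℕ} {p q r s : ι}
    (h : ((p, q), (r, s)) ∈ CrF Q W Z u) :
    (p ∈ Q ∧ q ∈ Q ∧ r ∈ Q ∧ s ∈ Q) ∧ Tt Q W Z u p q ∧ Tt Q W Z u r s ∧
    0 < dd (W p) (W q) ∧ 0 < dd (W r) (W s) ∧
    p ≠ r ∧ p ≠ s ∧ q ≠ r ∧ q ≠ s ∧
    ∃ α β γ δ : ℝ, 0 < α ∧ 0 < β ∧ 0 < γ ∧ 0 < δ ∧
      α * (W p).1 + β * (W q).1 = γ * (W r).1 + δ * (W s).1 ∧
      α * (W p).2 + β * (W q).2 = γ * (W r).2 + δ * (W s).2 ∧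
      α * Z p + β * Z q = γ * Z r + δ * Z s := by
  unfold CrF at h
  rw [mem_filter, mem_product, mem_product, mem_product] at h
  obtain ⟨⟨⟨hp, hq⟩, ⟨hr, hs⟩⟩, h1⟩ := h
  exact ⟨⟨hp, hq, hr, hs⟩, h1⟩

theorem mem_Eq0 {ι : Type*} {Q : Finset ι} {W : ι → ℝ × ℝ} {Z : ι → ℝ} {u : ℕ} {p q : ι}
    (hp : p ∈ Q) (hq : q ∈ Q) (h : Tt Q W Z u p q) (h1 : Z p < 0) (h2 : 0 < Z q) :
    (p, q) ∈ Eq0 Q W Z u := by
  unfold Eq0
  rw [mem_filter, mem_product]
  exact ⟨⟨hp, hq⟩, h, h1, h2⟩

/-- The projection along `e`. -/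
def WW (e v : Fin 3 → ℝ) : ℝ × ℝ := (e 2 * v 0 - e 0 * v 2, e 2 * v 1 - e 1 * v 2)

theorem dd_WW (e P Q : Fin 3 → ℝ) : dd (WW e P) (WW e Q) = e 2 * det3 P Q e := by
  unfold dd WW det3
  ring

theorem E3_WW (x : Fin n × Fin 3 → ℝ) (z e : Fin 3 → ℝ) (a p q r : Fin n) :
    E3 (fun q => WW e (df x a q)) (fun q => dot z (df x a q)) p q r =
      e 2 * dot z e * dt x a p q r := by
  unfold E3
  simp only [dd_WW]
  unfold dt det3 dot
  ring

theorem exists_e {x : Fin n × Fin 3 → ℝ} (hx : GenPos x) (hn : 4 ≤ n) (z : Fin 3 → ℝ)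
    (a : Fin n) (hz : ∀ q, q ≠ a → dot z (df x a q) ≠ 0) :
    ∃ e : Fin 3 → ℝ, e 2 ≠ 0 ∧ dot z e ≠ 0 ∧
      ∀ p q, p ≠ a → q ≠ a → p ≠ q → det3 (df x a p) (df x a q) e ≠ 0 := by
  let cr : Fin n × Fin n → Fin 3 → ℝ := fun c =>
    ![df x a c.1 1 * df x a c.2 2 - df x a c.1 2 * df x a c.2 1,
      df x a c.1 2 * df x a c.2 0 - df x a c.1 0 * df x a c.2 2,
      df x a c.1 0 * df x a c.2 1 - df x a c.1 1 * df x a c.2 0]
  have hcr : ∀ c : Fin n × Fin n, ∀ v : Fin 3 → ℝ,
      dot v (cr c) = det3 (df x a c.1) (df x a c.2) v := by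
    intro c v
    unfold dot det3
    simp only [cr, Matrix.cons_val_zero, Matrix.cons_val_one, Matrix.cons_val]
    ring
  let Y1 : Finset (Fin 3 → ℝ) :=
    (univ.filter fun c : Fin n × Fin n => c.1 ≠ a ∧ c.2 ≠ a ∧ c.1 ≠ c.2).image cr
  obtain ⟨e, he⟩ := exists_functional (insert z (insert ![0, 0, 1] Y1)) (by
    intro y hy
    rw [mem_insert, mem_insert] at hy
    rcases hy with rfl | rfl | hy
    · obtain ⟨q, hq, _⟩ := exists_fourth hn a a a
      intro h
      apply hz q hq
      rw [h]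
      unfold dot
      simp
    · intro h
      have h1 := congrFun h 2
      simp at h1
    · obtain ⟨c, hc, rfl⟩ := mem_image.1 hy
      obtain ⟨_, h1, h2, h3⟩ := mem_filter.1 hc
      obtain ⟨r, h4, h5, h6⟩ := exists_fourth hn a c.1 c.2
      have hd := dt_ne hx h1.symm h2.symm h4.symm h3 h5.symm h6.symm
      intro h
      apply hd
      unfold dt
      rw [← hcr, h]
      unfold dot
      simp)
  refine ⟨e, ?_, ?_, ?_⟩
  · have h1 := he ![0, 0, 1] (mem_insert_of_mem (mem_insert_self _ _))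
    intro h2
    apply h1
    unfold dot
    simp [h2]
  · have h1 := he z (mem_insert_self _ _)
    intro h2
    apply h1
    rw [← h2]
    unfold dot
    ring
  · intro p q hp hq hpq h2
    have h1 := he (cr (p, q)) (mem_insert_of_mem (mem_insert_of_mem
      (mem_image.2 ⟨(p, q), mem_filter.2 ⟨mem_univ _, hp, hq, hpq⟩, rfl⟩)))
    apply h1
    rw [hcr]
    exact h2

theorem count_three {x : Fin n × Fin 3 → ℝ} (hx : GenPos x) {a p q : Fin n} (hpa : p ≠ a)
    (hqa : q ≠ a) (hpq : p ≠ q) :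
    (univ.filter fun r => 0 < dt x a p q r).card + (univ.filter fun r => dt x a p q r < 0).card +
      3 = n := by
  have h0 : (univ.filter fun r => dt x a p q r = 0) = {a, p, q} := by
    ext r
    simp only [mem_filter, mem_univ, true_and, mem_insert, mem_singleton]
    constructor
    · intro h
      by_contra h2
      push Not at h2
      exact dt_ne hx hpa.symm hqa.symm (Ne.symm h2.1) hpq (Ne.symm h2.2.1) (Ne.symm h2.2.2) h
    · intro h
      rcases h with h | h | h
      · rw [h]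
        exact dt_left x a p q
      · rw [h]
        exact dt_mid x a p q
      · rw [h]
        exact dt_right x a p q
  have h3 : ({a, p, q} : Finset (Fin n)).card = 3 := by
    rw [card_insert_of_notMem (by simp [hpa.symm, hqa.symm]), card_insert_of_notMem (by simp [hpq]),
      card_singleton]
  have h4 : (univ.filter fun r => 0 < dt x a p q r) ∪ (univ.filter fun r => dt x a p q r < 0) ∪
      {a, p, q} = univ := by
    rw [← h0]
    ext r
    simp only [mem_union, mem_filter, mem_univ, true_and, iff_true]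
    rcases lt_trichotomy (dt x a p q r) 0 with h | h | h
    · exact Or.inl (Or.inr h)
    · exact Or.inr h
    · exact Or.inl (Or.inl h)
  have h5 : Disjoint (univ.filter fun r => 0 < dt x a p q r)
      (univ.filter fun r => dt x a p q r < 0) := by
    rw [disjoint_left]
    intro r h1 h2
    exact lt_asymm (mem_filter.1 h1).2 (mem_filter.1 h2).2
  have h6 : Disjoint ((univ.filter fun r => 0 < dt x a p q r) ∪
      (univ.filter fun r => dt x a p q r < 0)) {a, p, q} := by
    rw [← h0, disjoint_left]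
    intro r h1 h2
    have h7 := (mem_filter.1 h2).2
    rcases mem_union.1 h1 with h | h
    · exact absurd h7 (ne_of_gt (mem_filter.1 h).2)
    · exact absurd h7 (ne_of_lt (mem_filter.1 h).2)
  have h7 := congrArg card h4
  rw [card_union_of_disjoint h6, card_union_of_disjoint h5, h3, card_univ, Fintype.card_fin] at h7
  exact h7

/-- The two possible meanings of `Tt`. -/
theorem Tt_count_iff (x : Fin n × Fin 3 → ℝ) (z e : Fin 3 → ℝ) (he : e 2 ≠ 0) (hze : dot z e ≠ 0)
    {a p q : Fin n} (hd : det3 (df x a p) (df x a q) e ≠ 0) :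
    (∀ u, Tt (univ.erase a) (fun q => WW e (df x a q)) (fun q => dot z (df x a q)) u p q ↔
      (univ.filter fun r => 0 < dt x a p q r).card = u) ∨
    (∀ u, Tt (univ.erase a) (fun q => WW e (df x a q)) (fun q => dot z (df x a q)) u p q ↔
      (univ.filter fun r => dt x a p q r < 0).card = u) := by
  have hsq : 0 < e 2 ^ 2 := by positivity
  have h0 : ∀ s, dd (WW e (df x a p)) (WW e (df x a q)) *
      E3 (fun q => WW e (df x a q)) (fun q => dot z (df x a q)) p q s =
      e 2 ^ 2 * (dot z e * det3 (df x a p) (df x a q) e) * dt x a p q s := by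
    intro s
    rw [dd_WW, E3_WW]
    ring
  have hne : dot z e * det3 (df x a p) (df x a q) e ≠ 0 := mul_ne_zero hze hd
  rcases lt_or_gt_of_ne hne with h | h
  · right
    intro u
    unfold Tt
    have h1 : ((univ.erase a).filter fun s => 0 < dd (WW e (df x a p)) (WW e (df x a q)) *
        E3 (fun q => WW e (df x a q)) (fun q => dot z (df x a q)) p q s) =
        univ.filter fun r => dt x a p q r < 0 := by
      ext s
      simp only [mem_filter, mem_erase, mem_univ, and_true, true_and]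
      rw [h0]
      have hneg : e 2 ^ 2 * (dot z e * det3 (df x a p) (df x a q) e) < 0 :=
        mul_neg_of_pos_of_neg hsq h
      constructor
      · rintro ⟨_, h2⟩
        by_contra h3
        exact absurd h2 (not_lt.2 (mul_nonpos_of_nonpos_of_nonneg hneg.le (not_lt.1 h3)))
      · intro h2
        refine ⟨?_, mul_pos_of_neg_of_neg hneg h2⟩
        rintro rfl
        rw [dt_left] at h2
        exact lt_irrefl _ h2
    rw [h1]
  · left
    intro u
    unfold Tt
    have h1 : ((univ.erase a).filter fun s => 0 < dd (WW e (df x a p)) (WW e (df x a q)) *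
        E3 (fun q => WW e (df x a q)) (fun q => dot z (df x a q)) p q s) =
        univ.filter fun r => 0 < dt x a p q r := by
      ext s
      simp only [mem_filter, mem_erase, mem_univ, and_true, true_and]
      rw [h0]
      have hpos : 0 < e 2 ^ 2 * (dot z e * det3 (df x a p) (df x a q) e) :=
        mul_pos hsq h
      constructor
      · rintro ⟨_, h2⟩
        exact pos_of_mul_pos_right h2 hpos.le
      · intro h2
        refine ⟨?_, mul_pos hpos h2⟩
        rintro rfl
        rw [dt_left] at h2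
        exact lt_irrefl _ h2
    rw [h1]

theorem sum_one {x : Fin n × Fin 3 → ℝ} (hx : GenPos x) (hn : 4 ≤ n) (z : Fin 3 → ℝ)
    (a : Fin n) (hz : ∀ q, q ≠ a → dot z (df x a q) ≠ 0)
    (hz4 : ∀ p q r s, p ≠ a → q ≠ a → r ≠ a → s ≠ a → p ≠ q → p ≠ r → p ≠ s → q ≠ r → q ≠ s →
      r ≠ s → dt x a p r s * dot z (df x a q) - dt x a q r s * dot z (df x a p) ≠ 0) (k : ℕ)
    (hk : k + 3 ≤ n) :
    (((univ.erase a) ×ˢ (univ.erase a)).filter fun c : Fin n × Fin n =>
      Ty x k a c.1 c.2 ∧ dot z (df x a c.1) < 0 ∧ 0 < dot z (df x a c.2)).card ^ 2 ≤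
      32 * (univ.filter fun c : (Fin n × Fin n) × (Fin n × Fin n) =>
        Ty x k a c.1.1 c.1.2 ∧ Ty x k a c.2.1 c.2.2 ∧ c.1.1 ≠ c.1.2 ∧ c.2.1 ≠ c.2.2 ∧
        (Prc x c.1.1 c.1.2 a c.2.1 c.2.2 ∨ Prc x c.2.1 c.2.2 a c.1.1 c.1.2)).card +
      320 * n ^ 3 := by
  obtain ⟨e, he, hze, hd⟩ := exists_e hx hn z a hz
  let W : Fin n → ℝ × ℝ := fun q => WW e (df x a q)
  let Z : Fin n → ℝ := fun q => dot z (df x a q)
  have hE : ∀ p q r, E3 W Z p q r = e 2 * dot z e * dt x a p q r := fun p q r =>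
    E3_WW x z e a p q r
  have hκ : e 2 * dot z e ≠ 0 := mul_ne_zero he hze
  have hgen : Gen (univ.erase a) W Z := by
    refine ⟨?_, ?_, ?_, ?_⟩
    · intro p hp q hq hpq
      change dd (WW e (df x a p)) (WW e (df x a q)) ≠ 0
      rw [dd_WW]
      exact mul_ne_zero he (hd p q (ne_of_mem_erase hp) (ne_of_mem_erase hq) hpq)
    · intro p hp q hq r hr hpq hpr hqr
      rw [hE]
      exact mul_ne_zero hκ (dt_ne hx (ne_of_mem_erase hp).symm (ne_of_mem_erase hq).symm
        (ne_of_mem_erase hr).symm hpq hpr hqr)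
    · intro p hp
      exact hz p (ne_of_mem_erase hp)
    · intro p hp q hq r hr s hs h1 h2 h3 h4 h5 h6
      rw [hE, hE]
      have h7 := hz4 p q r s (ne_of_mem_erase hp) (ne_of_mem_erase hq) (ne_of_mem_erase hr)
        (ne_of_mem_erase hs) h1 h2 h3 h4 h5 h6
      intro h8
      apply h7
      have h9 : e 2 * dot z e *
          (dt x a p r s * dot z (df x a q) - dt x a q r s * dot z (df x a p)) = 0 := by
        linear_combination h8
      exact (mul_eq_zero.1 h9).resolve_left hκ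
  -- the types
  have hT1 : ∀ p q, p ≠ a → q ≠ a → p ≠ q → Ty x k a p q →
      Tt (univ.erase a) W Z k p q ∨ Tt (univ.erase a) W Z (n - 3 - k) p q := by
    intro p q hp hq hpq h
    have h1 := count_three hx hp hq hpq
    rcases Tt_count_iff x z e he hze (hd p q hp hq hpq) with h2 | h2
    · rcases h with h | h
      · exact Or.inl ((h2 k).2 h)
      · exact Or.inr ((h2 _).2 (by omega))
    · rcases h with h | h
      · exact Or.inr ((h2 _).2 (by omega))
      · exact Or.inl ((h2 k).2 h)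
  have hT2 : ∀ u, (u = k ∨ u = n - 3 - k) → ∀ p q, p ≠ a → q ≠ a → p ≠ q →
      Tt (univ.erase a) W Z u p q → Ty x k a p q := by
    intro u hu p q hp hq hpq h
    have h1 := count_three hx hp hq hpq
    rcases Tt_count_iff x z e he hze (hd p q hp hq hpq) with h2 | h2
    · have h3 := (h2 u).1 h
      rcases hu with rfl | hu
      · exact Or.inl h3
      · exact Or.inr (by omega)
    · have h3 := (h2 u).1 h
      rcases hu with rfl | hu
      · exact Or.inr h3
      · exact Or.inl (by omega)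
  -- crossings
  have hC : ∀ u, (u = k ∨ u = n - 3 - k) → (CrF (univ.erase a) W Z u).card ≤
      (univ.filter fun c : (Fin n × Fin n) × (Fin n × Fin n) =>
        Ty x k a c.1.1 c.1.2 ∧ Ty x k a c.2.1 c.2.2 ∧ c.1.1 ≠ c.1.2 ∧ c.2.1 ≠ c.2.2 ∧
        (Prc x c.1.1 c.1.2 a c.2.1 c.2.2 ∨ Prc x c.2.1 c.2.2 a c.1.1 c.1.2)).card := by
    intro u hu
    apply card_le_card
    rintro ⟨⟨p, q⟩, ⟨r, s⟩⟩ hc
    obtain ⟨⟨hp, hq, hr, hs⟩, t1, t2, d1, d2, n1, n2, n3, n4, α, β, γ, δ, hα, hβ, hγ, hδ,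
      e1, e2, e3⟩ := mem_CrF hc
    have hp' := ne_of_mem_erase hp
    have hq' := ne_of_mem_erase hq
    have hr' := ne_of_mem_erase hr
    have hs' := ne_of_mem_erase hs
    have hdd : ∀ v : ℝ × ℝ, dd v v = 0 := by
      intro v
      unfold dd
      ring
    have hpq : p ≠ q := by
      rintro rfl
      rw [hdd] at d1
      exact lt_irrefl _ d1
    have hrs : r ≠ s := by
      rintro rfl
      rw [hdd] at d2
      exact lt_irrefl _ d2
    rw [mem_filter]
    refine ⟨mem_univ _, hT2 u hu p q hp' hq' hpq t1, hT2 u hu r s hr' hs' hrs t2, hpq, hrs, ?_⟩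
    have e1' : α * (e 2 * df x a p 0 - e 0 * df x a p 2) + β * (e 2 * df x a q 0 - e 0 * df x a q 2) =
      γ * (e 2 * df x a r 0 - e 0 * df x a r 2) + δ * (e 2 * df x a s 0 - e 0 * df x a s 2) := e1
    have e2' : α * (e 2 * df x a p 1 - e 1 * df x a p 2) + β * (e 2 * df x a q 1 - e 1 * df x a q 2) =
      γ * (e 2 * df x a r 1 - e 1 * df x a r 2) + δ * (e 2 * df x a s 1 - e 1 * df x a s 2) := e2
    have e3' : α * (z 0 * df x a p 0 + z 1 * df x a p 1 + z 2 * df x a p 2) +
      β * (z 0 * df x a q 0 + z 1 * df x a q 1 + z 2 * df x a q 2) =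
      γ * (z 0 * df x a r 0 + z 1 * df x a r 1 + z 2 * df x a r 2) +
      δ * (z 0 * df x a s 0 + z 1 * df x a s 1 + z 2 * df x a s 2) := e3
    have hze' : z 0 * e 0 + z 1 * e 1 + z 2 * e 2 ≠ 0 := hze
    have u2 : α * df x a p 2 + β * df x a q 2 = γ * df x a r 2 + δ * df x a s 2 := by
      have h1 : (z 0 * e 0 + z 1 * e 1 + z 2 * e 2) *
          (α * df x a p 2 + β * df x a q 2 - (γ * df x a r 2 + δ * df x a s 2)) = 0 := by
        linear_combination e 2 * e3' - z 0 * e1' - z 1 * e2'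
      have h2 := (mul_eq_zero.1 h1).resolve_left hze'
      linarith
    have u0 : α * df x a p 0 + β * df x a q 0 = γ * df x a r 0 + δ * df x a s 0 := by
      have h1 : e 2 *
          (α * df x a p 0 + β * df x a q 0 - (γ * df x a r 0 + δ * df x a s 0)) = 0 := by
        linear_combination e1' + e 0 * u2
      have h2 := (mul_eq_zero.1 h1).resolve_left he
      linarith
    have u1 : α * df x a p 1 + β * df x a q 1 = γ * df x a r 1 + δ * df x a s 1 := by
      have h1 : e 2 *
          (α * df x a p 1 + β * df x a q 1 - (γ * df x a r 1 + δ * df x a s 1)) = 0 := by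
        linear_combination e2' + e 1 * u2
      have h2 := (mul_eq_zero.1 h1).resolve_left he
      linarith
    refine cross_prc hx hp' hq' hr' hs' hpq hrs n1 n2 n3 n4 hα hβ hγ hδ ?_
    intro c
    fin_cases c
    · exact u0
    · exact u1
    · exact u2
  -- the middle set
  have hM : (((univ.erase a) ×ˢ (univ.erase a)).filter fun c : Fin n × Fin n =>
      Ty x k a c.1 c.2 ∧ dot z (df x a c.1) < 0 ∧ 0 < dot z (df x a c.2)) ⊆
      Eq0 (univ.erase a) W Z k ∪ Eq0 (univ.erase a) W Z (n - 3 - k) := by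
    rintro ⟨p, q⟩ hc
    rw [mem_filter] at hc
    obtain ⟨hm, h1, h2, h3⟩ := hc
    have hm' := mem_product.1 hm
    dsimp only at h1 h2 h3 hm'
    have hpq : p ≠ q := by
      rintro rfl
      exact lt_asymm h2 h3
    rw [mem_union]
    rcases hT1 p q (ne_of_mem_erase hm'.1) (ne_of_mem_erase hm'.2) hpq h1 with h4 | h4
    · left
      exact mem_Eq0 hm'.1 hm'.2 h4 h2 h3
    · right
      exact mem_Eq0 hm'.1 hm'.2 h4 h2 h3
  have hQ : (univ.erase a : Finset (Fin n)).card ≤ n := by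
    calc _ ≤ (univ : Finset (Fin n)).card := card_le_card (erase_subset _ _)
      _ = n := by rw [card_univ, Fintype.card_fin]
  have hQ3 : (univ.erase a : Finset (Fin n)).card ^ 3 ≤ n ^ 3 := Nat.pow_le_pow_left hQ 3
  have f1 := flat_count hgen k
  have f2 := flat_count hgen (n - 3 - k)
  have c1 := hC k (Or.inl rfl)
  have c2 := hC (n - 3 - k) (Or.inr rfl)
  have m0 := (card_le_card hM).trans (card_union_le _ _)
  have m1 := Nat.pow_le_pow_left m0 2
  refine m1.trans ?_
  have m2 : ((Eq0 (univ.erase a) W Z k).card + (Eq0 (univ.erase a) W Z (n - 3 - k)).card) ^ 2 ≤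
      2 * (Eq0 (univ.erase a) W Z k).card ^ 2 +
      2 * (Eq0 (univ.erase a) W Z (n - 3 - k)).card ^ 2 := by
    zify
    nlinarith [sq_nonneg (((Eq0 (univ.erase a) W Z k).card : ℤ) -
      ((Eq0 (univ.erase a) W Z (n - 3 - k)).card : ℤ))]
  refine m2.trans ?_
  omega

theorem sum_sq {x : Fin n × Fin 3 → ℝ} (hx : GenPos x) (hn : 4 ≤ n) (z : Fin 3 → ℝ)
    (hz : ∀ a q, q ≠ a → dot z (df x a q) ≠ 0)
    (hz4 : ∀ a p q r s, p ≠ a → q ≠ a → r ≠ a → s ≠ a → p ≠ q → p ≠ r → p ≠ s → q ≠ r → q ≠ s →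
      r ≠ s → dt x a p r s * dot z (df x a q) - dt x a q r s * dot z (df x a p) ≠ 0) (k : ℕ) :
    ∑ a : Fin n, (((univ.erase a) ×ˢ (univ.erase a)).filter fun c : Fin n × Fin n =>
      Ty x k a c.1 c.2 ∧ dot z (df x a c.1) < 0 ∧ 0 < dot z (df x a c.2)).card ^ 2 ≤
      1856 * n ^ 4 := by
  by_cases hk : k + 3 ≤ n
  · have h1 := sum_le_sum (s := (univ : Finset (Fin n))) fun a _ =>
      sum_one hx hn z a (hz a) (hz4 a) k hk
    refine h1.trans ?_
    rw [sum_add_distrib, ← mul_sum]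
    have h2 := sum_cross hx k
    have h3 : ∑ _a : Fin n, 320 * n ^ 3 = 320 * n ^ 4 := by
      rw [sum_const, card_univ, Fintype.card_fin, smul_eq_mul]
      ring
    rw [h3]
    calc _ ≤ 32 * (48 * n ^ 4) + 320 * n ^ 4 := by
          apply Nat.add_le_add_right
          exact Nat.mul_le_mul_left 32 h2
      _ = 1856 * n ^ 4 := by ring
  · have h0 : ∀ a : Fin n, (((univ.erase a) ×ˢ (univ.erase a)).filter fun c : Fin n × Fin n =>
        Ty x k a c.1 c.2 ∧ dot z (df x a c.1) < 0 ∧ 0 < dot z (df x a c.2)) = ∅ := by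
      intro a
      rw [filter_eq_empty_iff]
      rintro ⟨p, q⟩ hm ⟨h1, h2, h3⟩
      have hm' := mem_product.1 hm
      dsimp only at h1 h2 h3 hm'
      have hpq : p ≠ q := by
        rintro rfl
        exact lt_asymm h2 h3
      have h4 := count_three hx (ne_of_mem_erase hm'.1) (ne_of_mem_erase hm'.2) hpq
      rcases h1 with h1 | h1 <;> omega
    have h1 : ∑ a : Fin n, (((univ.erase a) ×ˢ (univ.erase a)).filter fun c : Fin n × Fin n =>
        Ty x k a c.1 c.2 ∧ dot z (df x a c.1) < 0 ∧ 0 < dot z (df x a c.2)).card ^ 2 = 0 := by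
      apply sum_eq_zero
      intro a _
      rw [h0 a]
      simp
    rw [h1]
    exact Nat.zero_le _

end Pool.Agent.HpE
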