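import Pool.Agent.HpE.PierceD
import Pool.Agent.HpE.PairsD
import Pool.Agent.HpE.Split

/-!
# The sum of the squares through the depths of the lines
-/

namespace Pool.Agent.HpE

open Finset Classical SmH HpD

variable {n : ℕ}

/-- the pairs of crossing arcs at `a`, as pierced triangles -/
noncomputable def crs (x : Fin n × Fin 3 → ℝ) (k : ℕ) (a : Fin n) : ℕ :=
  (univ.filter fun c : (Fin n × Fin n) × (Fin n × Fin n) =>
      Ty x k a c.1.1 c.1.2 ∧ Ty x k a c.2.1 c.2.2 ∧ c.1.1 ≠ c.1.2 ∧ c.2.1 ≠ c.2.2 ∧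
      (Prc x c.1.1 c.1.2 a c.2.1 c.2.2 ∨ Prc x c.2.1 c.2.2 a c.1.1 c.1.2)).card

/-- the indicator of a pierced triangle of type `k` at `a` -/
noncomputable def pI (x : Fin n × Fin 3 → ℝ) (k : ℕ) (Ed : Fin n → Fin n → Prop) (a : Fin n)
    (u v : Fin n × Fin n) : ℕ :=
  if Ty x k a v.1 v.2 ∧ (u.1 ≠ u.2 ∧ Ed u.1 u.2) ∧ Prc x u.1 u.2 a v.1 v.2 then 1 else 0

theorem prc_ne {x : Fin n × Fin 3 → ℝ} {p q a r s : Fin n} (h : Prc x p q a r s) :
    p ≠ a ∧ q ≠ a := by
  have h1 : dt x p q a r ≠ 0 := by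
    rcases h with h | h
    · exact h.1.ne'
    · exact h.1.ne
  constructor
  · rintro rfl
    apply h1
    unfold dt det3 df
    ring
  · rintro rfl
    apply h1
    unfold dt det3 df
    ring

theorem pI_sum {x : Fin n × Fin 3 → ℝ} (hx : GenPos x) (hn : 4 ≤ n) (k : ℕ)
    (Ed : Fin n → Fin n → Prop)
    (δ : Fin n → Fin n → ℕ) (hδ : ∀ p q, p ≠ q → ∃ u, dot u (df x p q) = 0 ∧
      (univ.filter fun r => 0 ≤ dot u (df x p r)).card ≤ δ p q) :
    ∑ a : Fin n, ∑ u : Fin n × Fin n, ∑ v : Fin n × Fin n, pI x k Ed a u v ≤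
      24 * n * ∑ u ∈ univ.filter (fun u : Fin n × Fin n => u.1 ≠ u.2 ∧ Ed u.1 u.2),
        δ u.1 u.2 := by
  rw [sum_comm]
  have h1 : ∀ u : Fin n × Fin n, ∑ a : Fin n, ∑ v : Fin n × Fin n, pI x k Ed a u v ≤
      if u.1 ≠ u.2 ∧ Ed u.1 u.2 then 24 * n * δ u.1 u.2 else 0 := by
    intro u
    by_cases hu : ¬ (u.1 ≠ u.2 ∧ Ed u.1 u.2)
    · have h2 : ∑ a : Fin n, ∑ v : Fin n × Fin n, pI x k Ed a u v = 0 := by
        refine sum_eq_zero fun a _ => sum_eq_zero fun v _ => ?_
        unfold pI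
        rw [if_neg]
        exact fun h => hu h.2.1
      rw [h2]
      exact Nat.zero_le _
    · rw [not_not] at hu
      rw [if_pos hu]
      obtain ⟨w, hw, hc⟩ := hδ u.1 u.2 hu.1
      have h2 := PD.pierce_card_le hx hn hu.1 k w hw
      have h3 : 24 * ((univ.filter fun r => 0 ≤ dot w (df x u.1 r)).card * n) ≤
          24 * n * δ u.1 u.2 := by
        calc _ ≤ 24 * (δ u.1 u.2 * n) := Nat.mul_le_mul_left _ (Nat.mul_le_mul_right _ hc)
          _ = _ := by ring
      refine le_trans ?_ (h2.trans h3)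
      rw [card_filter, Fintype.sum_prod_type]
      refine le_of_eq ?_
      refine sum_congr rfl fun a _ => sum_congr rfl fun v _ => ?_
      unfold pI
      refine if_congr ?_ rfl rfl
      exact ⟨fun h => ⟨h.1, h.2.2⟩, fun h => ⟨h.1, hu, h.2⟩⟩
  refine (sum_le_sum fun u _ => h1 u).trans ?_
  rw [← sum_filter, mul_sum]

theorem sum_crs {x : Fin n × Fin 3 → ℝ} (hx : GenPos x) (hn : 4 ≤ n) (k : ℕ)
    (Ed : Fin n → Fin n → Prop)
    (hEd : ∀ a p q, p ≠ a → q ≠ a → p ≠ q → Ty x k a p q → Ed p q)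
    (δ : Fin n → Fin n → ℕ) (hδ : ∀ p q, p ≠ q → ∃ u, dot u (df x p q) = 0 ∧
      (univ.filter fun r => 0 ≤ dot u (df x p r)).card ≤ δ p q) :
    ∑ a : Fin n, crs x k a ≤
      48 * n * ∑ u ∈ univ.filter (fun u : Fin n × Fin n => u.1 ≠ u.2 ∧ Ed u.1 u.2),
        δ u.1 u.2 := by
  have h1 : ∀ a : Fin n, crs x k a ≤
      ∑ u : Fin n × Fin n, ∑ v : Fin n × Fin n, pI x k Ed a u v +
        ∑ u : Fin n × Fin n, ∑ v : Fin n × Fin n, pI x k Ed a u v := by
    intro a
    have h2 : ∑ u : Fin n × Fin n, ∑ v : Fin n × Fin n, pI x k Ed a u v =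
        ∑ v : Fin n × Fin n, ∑ u : Fin n × Fin n, pI x k Ed a u v := sum_comm
    have h3 : ∑ u : Fin n × Fin n, ∑ v : Fin n × Fin n, pI x k Ed a u v +
        ∑ u : Fin n × Fin n, ∑ v : Fin n × Fin n, pI x k Ed a u v =
        ∑ c : (Fin n × Fin n) × (Fin n × Fin n), (pI x k Ed a c.1 c.2 + pI x k Ed a c.2 c.1) := by
      have e1 : ∑ c : (Fin n × Fin n) × (Fin n × Fin n), pI x k Ed a c.1 c.2 =
          ∑ u : Fin n × Fin n, ∑ v : Fin n × Fin n, pI x k Ed a u v :=
        Fintype.sum_prod_type (fun c : (Fin n × Fin n) × (Fin n × Fin n) => pI x k Ed a c.1 c.2)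
      have e2 : ∑ c : (Fin n × Fin n) × (Fin n × Fin n), pI x k Ed a c.2 c.1 =
          ∑ v : Fin n × Fin n, ∑ u : Fin n × Fin n, pI x k Ed a u v :=
        Fintype.sum_prod_type (fun c : (Fin n × Fin n) × (Fin n × Fin n) => pI x k Ed a c.2 c.1)
      rw [sum_add_distrib, e1, e2, ← h2]
    rw [h3, crs, card_filter]
    refine sum_le_sum fun c _ => ?_
    split_ifs with hc
    · obtain ⟨t1, t2, t3, t4, t5 | t5⟩ := hc
      · have : pI x k Ed a c.1 c.2 = 1 := if_pos ⟨t2, ⟨t3, hEd a _ _ (prc_ne t5).1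
          (prc_ne t5).2 t3 t1⟩, t5⟩
        rw [this]
        exact Nat.le_add_right _ _
      · have : pI x k Ed a c.2 c.1 = 1 := if_pos ⟨t1, ⟨t4, hEd a _ _ (prc_ne t5).1
          (prc_ne t5).2 t4 t2⟩, t5⟩
        rw [this]
        exact Nat.le_add_left _ _
    · exact Nat.zero_le _
  refine (sum_le_sum fun a _ => h1 a).trans ?_
  rw [sum_add_distrib]
  have h2 := pI_sum hx hn k Ed δ hδ
  have h3 : 48 * n * ∑ u ∈ univ.filter (fun u : Fin n × Fin n => u.1 ≠ u.2 ∧ Ed u.1 u.2),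
        δ u.1 u.2 =
      24 * n * ∑ u ∈ univ.filter (fun u : Fin n × Fin n => u.1 ≠ u.2 ∧ Ed u.1 u.2),
        δ u.1 u.2 +
      24 * n * ∑ u ∈ univ.filter (fun u : Fin n × Fin n => u.1 ≠ u.2 ∧ Ed u.1 u.2),
        δ u.1 u.2 := by ring
  rw [h3]
  exact Nat.add_le_add h2 h2

/-- the ordered pairs forming a triangle of type `k` with `a` -/
noncomputable def tau (x : Fin n × Fin 3 → ℝ) (k : ℕ) (a : Fin n) : Finset (Fin n × Fin n) :=
  ((univ.erase a) ×ˢ (univ.erase a)).filter fun c => c.1 ≠ c.2 ∧ Ty x k a c.1 c.2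

theorem two_AA {x : Fin n × Fin 3 → ℝ} (k : ℕ) (a : Fin n) {W : Fin n → ℝ × ℝ}
    {T : Fin n → Fin n → Prop}
    (hT : ∀ p q, p ≠ a → q ≠ a → p ≠ q → T p q → Ty x k a p q) :
    2 * (AA (univ.erase a) W T).card ≤ (tau x k a).card := by
  have h1 : Disjoint (AA (univ.erase a) W T) ((AA (univ.erase a) W T).image fun g => (g.2, g.1)) := by
    rw [disjoint_left]
    intro g h1 h2
    obtain ⟨g', h3, rfl⟩ := mem_image.1 h2
    have p1 := (mem_AA.1 h1).pos
    have p2 := (mem_AA.1 h3).pos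
    have p3 : dd (W g'.2) (W g'.1) = -dd (W g'.1) (W g'.2) := dd_swap _ _
    change 0 < dd (W g'.2) (W g'.1) at p1
    linarith
  have h2 : (AA (univ.erase a) W T) ∪ ((AA (univ.erase a) W T).image fun g => (g.2, g.1)) ⊆
      tau x k a := by
    intro g hg
    rw [mem_union, mem_image] at hg
    rcases hg with hg | ⟨g', hg, rfl⟩
    · have h3 := mem_AA.1 hg
      exact mem_filter.2 ⟨mem_product.2 ⟨h3.m1, h3.m2⟩, h3.ne,
        hT _ _ (ne_of_mem_erase h3.m1) (ne_of_mem_erase h3.m2) h3.ne h3.lv⟩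
    · have h3 := mem_AA.1 hg
      exact mem_filter.2 ⟨mem_product.2 ⟨h3.m2, h3.m1⟩, h3.ne.symm,
        Ty_symm (hT _ _ (ne_of_mem_erase h3.m1) (ne_of_mem_erase h3.m2) h3.ne h3.lv)⟩
  have h3 := card_le_card h2
  rw [card_union_of_disjoint h1, card_image_of_injective] at h3
  · omega
  · intro g g' h
    exact Prod.ext (Prod.mk.inj h).2 (Prod.mk.inj h).1

theorem sum_oneA {x : Fin n × Fin 3 → ℝ} (hx : GenPos x) (hn : 4 ≤ n) (z : Fin 3 → ℝ)
    (a : Fin n) (hz : ∀ q, q ≠ a → dot z (df x a q) ≠ 0)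
    (hz4 : ∀ p q r s, p ≠ a → q ≠ a → r ≠ a → s ≠ a → p ≠ q → p ≠ r → p ≠ s → q ≠ r → q ≠ s →
      r ≠ s → dt x a p r s * dot z (df x a q) - dt x a q r s * dot z (df x a p) ≠ 0) (k : ℕ)
    (hk : k + 3 ≤ n) :
    mid x z k a ^ 2 ≤ 32 * crs x k a + 128 * (n * (tau x k a).card) + 4 * n ^ 2 := by
  obtain ⟨e, he, hze, hd⟩ := exists_e hx hn z a hz
  let W : Fin n → ℝ × ℝ := fun q => WW e (df x a q)
  let Z : Fin n → ℝ := fun q => dot z (df x a q)
  have hE : ∀ p q r, E3 W Z p q r = e 2 * dot z e * dt x a p q r := fun p q r =>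
    E3_WW x z e a p q r
  have hκ : e 2 * dot z e ≠ 0 := mul_ne_zero he hze
  have hgen : Gen (univ.erase a) W Z := by
    refine ⟨?_, ?_, ?_, ?_⟩
    · intro p hp q hq hpq
      change dd (WW e (df x a p)) (WW e (df x a q)) ≠ 0
      rw [dd_WW]
      exact mul_ne_zero he (hd p q (ne_of_mem_erase hp) (ne_of_mem_erase hq) hpq)
    · intro p hp q hq r hr hpq hpr hqr
      rw [hE]
      exact mul_ne_zero hκ (dt_ne hx (ne_of_mem_erase hp).symm (ne_of_mem_erase hq).symm
        (ne_of_mem_erase hr).symm hpq hpr hqr)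
    · intro p hp
      exact hz p (ne_of_mem_erase hp)
    · intro p hp q hq r hr s hs h1 h2 h3 h4 h5 h6
      rw [hE, hE]
      have h7 := hz4 p q r s (ne_of_mem_erase hp) (ne_of_mem_erase hq) (ne_of_mem_erase hr)
        (ne_of_mem_erase hs) h1 h2 h3 h4 h5 h6
      intro h8
      apply h7
      have h9 : e 2 * dot z e *
          (dt x a p r s * dot z (df x a q) - dt x a q r s * dot z (df x a p)) = 0 := by
        linear_combination h8
      exact (mul_eq_zero.1 h9).resolve_left hκ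
  -- the types
  have hT1 : ∀ p q, p ≠ a → q ≠ a → p ≠ q → Ty x k a p q →
      Tt (univ.erase a) W Z k p q ∨ Tt (univ.erase a) W Z (n - 3 - k) p q := by
    intro p q hp hq hpq h
    have h1 := count_three hx hp hq hpq
    rcases Tt_count_iff x z e he hze (hd p q hp hq hpq) with h2 | h2
    · rcases h with h | h
      · exact Or.inl ((h2 k).2 h)
      · exact Or.inr ((h2 _).2 (by omega))
    · rcases h with h | h
      · exact Or.inr ((h2 _).2 (by omega))
      · exact Or.inl ((h2 k).2 h)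
  have hT2 : ∀ u, (u = k ∨ u = n - 3 - k) → ∀ p q, p ≠ a → q ≠ a → p ≠ q →
      Tt (univ.erase a) W Z u p q → Ty x k a p q := by
    intro u hu p q hp hq hpq h
    have h1 := count_three hx hp hq hpq
    rcases Tt_count_iff x z e he hze (hd p q hp hq hpq) with h2 | h2
    · have h3 := (h2 u).1 h
      rcases hu with rfl | hu
      · exact Or.inl h3
      · exact Or.inr (by omega)
    · have h3 := (h2 u).1 h
      rcases hu with rfl | hu
      · exact Or.inr h3
      · exact Or.inl (by omega)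
  -- crossings
  have hC : ∀ u, (u = k ∨ u = n - 3 - k) → (CrF (univ.erase a) W Z u).card ≤ crs x k a := by
    intro u hu
    apply card_le_card
    rintro ⟨⟨p, q⟩, ⟨r, s⟩⟩ hc
    obtain ⟨⟨hp, hq, hr, hs⟩, t1, t2, d1, d2, n1, n2, n3, n4, α, β, γ, δ, hα, hβ, hγ, hδ,
      e1, e2, e3⟩ := mem_CrF hc
    have hp' := ne_of_mem_erase hp
    have hq' := ne_of_mem_erase hq
    have hr' := ne_of_mem_erase hr
    have hs' := ne_of_mem_erase hs
    have hdd : ∀ v : ℝ × ℝ, dd v v = 0 := by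
      intro v
      unfold dd
      ring
    have hpq : p ≠ q := by
      rintro rfl
      rw [hdd] at d1
      exact lt_irrefl _ d1
    have hrs : r ≠ s := by
      rintro rfl
      rw [hdd] at d2
      exact lt_irrefl _ d2
    rw [mem_filter]
    refine ⟨mem_univ _, hT2 u hu p q hp' hq' hpq t1, hT2 u hu r s hr' hs' hrs t2, hpq, hrs, ?_⟩
    have e1' : α * (e 2 * df x a p 0 - e 0 * df x a p 2) + β * (e 2 * df x a q 0 - e 0 * df x a q 2) =
      γ * (e 2 * df x a r 0 - e 0 * df x a r 2) + δ * (e 2 * df x a s 0 - e 0 * df x a s 2) := e1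
    have e2' : α * (e 2 * df x a p 1 - e 1 * df x a p 2) + β * (e 2 * df x a q 1 - e 1 * df x a q 2) =
      γ * (e 2 * df x a r 1 - e 1 * df x a r 2) + δ * (e 2 * df x a s 1 - e 1 * df x a s 2) := e2
    have e3' : α * (z 0 * df x a p 0 + z 1 * df x a p 1 + z 2 * df x a p 2) +
      β * (z 0 * df x a q 0 + z 1 * df x a q 1 + z 2 * df x a q 2) =
      γ * (z 0 * df x a r 0 + z 1 * df x a r 1 + z 2 * df x a r 2) +
      δ * (z 0 * df x a s 0 + z 1 * df x a s 1 + z 2 * df x a s 2) := e3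
    have hze' : z 0 * e 0 + z 1 * e 1 + z 2 * e 2 ≠ 0 := hze
    have u2 : α * df x a p 2 + β * df x a q 2 = γ * df x a r 2 + δ * df x a s 2 := by
      have h1 : (z 0 * e 0 + z 1 * e 1 + z 2 * e 2) *
          (α * df x a p 2 + β * df x a q 2 - (γ * df x a r 2 + δ * df x a s 2)) = 0 := by
        linear_combination e 2 * e3' - z 0 * e1' - z 1 * e2'
      have h2 := (mul_eq_zero.1 h1).resolve_left hze'
      linarith
    have u0 : α * df x a p 0 + β * df x a q 0 = γ * df x a r 0 + δ * df x a s 0 := by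
      have h1 : e 2 *
          (α * df x a p 0 + β * df x a q 0 - (γ * df x a r 0 + δ * df x a s 0)) = 0 := by
        linear_combination e1' + e 0 * u2
      have h2 := (mul_eq_zero.1 h1).resolve_left he
      linarith
    have u1 : α * df x a p 1 + β * df x a q 1 = γ * df x a r 1 + δ * df x a s 1 := by
      have h1 : e 2 *
          (α * df x a p 1 + β * df x a q 1 - (γ * df x a r 1 + δ * df x a s 1)) = 0 := by
        linear_combination e2' + e 1 * u2
      have h2 := (mul_eq_zero.1 h1).resolve_left he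
      linarith
    refine cross_prc hx hp' hq' hr' hs' hpq hrs n1 n2 n3 n4 hα hβ hγ hδ ?_
    intro c
    fin_cases c
    · exact u0
    · exact u1
    · exact u2
  -- the middle set
  have hM : (((univ.erase a) ×ˢ (univ.erase a)).filter fun c : Fin n × Fin n =>
      Ty x k a c.1 c.2 ∧ dot z (df x a c.1) < 0 ∧ 0 < dot z (df x a c.2)) ⊆
      Eq0 (univ.erase a) W Z k ∪ Eq0 (univ.erase a) W Z (n - 3 - k) := by
    rintro ⟨p, q⟩ hc
    rw [mem_filter] at hc
    obtain ⟨hm, h1, h2, h3⟩ := hc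
    have hm' := mem_product.1 hm
    dsimp only at h1 h2 h3 hm'
    have hpq : p ≠ q := by
      rintro rfl
      exact lt_asymm h2 h3
    rw [mem_union]
    rcases hT1 p q (ne_of_mem_erase hm'.1) (ne_of_mem_erase hm'.2) hpq h1 with h4 | h4
    · left
      exact mem_Eq0 hm'.1 hm'.2 h4 h2 h3
    · right
      exact mem_Eq0 hm'.1 hm'.2 h4 h2 h3
  have hQ : (univ.erase a : Finset (Fin n)).card ≤ n := by
    calc _ ≤ (univ : Finset (Fin n)).card := card_le_card (erase_subset _ _)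
      _ = n := by rw [card_univ, Fintype.card_fin]
  have hQ2 : (univ.erase a : Finset (Fin n)).card ^ 2 ≤ n ^ 2 := Nat.pow_le_pow_left hQ 2
  have f1 := flat_countA hgen k
  have f2 := flat_countA hgen (n - 3 - k)
  have c1 := hC k (Or.inl rfl)
  have c2 := hC (n - 3 - k) (Or.inr rfl)
  have d1 := two_AA k a (W := W) (hT2 k (Or.inl rfl))
  have d2 := two_AA k a (W := W) (hT2 (n - 3 - k) (Or.inr rfl))
  have g1 : 64 * ((univ.erase a : Finset (Fin n)).card *
      (AA (univ.erase a) W (Tt (univ.erase a) W Z k)).card) ≤ 32 * (n * (tau x k a).card) := by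
    calc _ = 32 * ((univ.erase a : Finset (Fin n)).card *
          (2 * (AA (univ.erase a) W (Tt (univ.erase a) W Z k)).card)) := by ring
      _ ≤ _ := Nat.mul_le_mul_left _ (Nat.mul_le_mul hQ d1)
  have g2 : 64 * ((univ.erase a : Finset (Fin n)).card *
      (AA (univ.erase a) W (Tt (univ.erase a) W Z (n - 3 - k))).card) ≤
      32 * (n * (tau x k a).card) := by
    calc _ = 32 * ((univ.erase a : Finset (Fin n)).card *
          (2 * (AA (univ.erase a) W (Tt (univ.erase a) W Z (n - 3 - k))).card)) := by ring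
      _ ≤ _ := Nat.mul_le_mul_left _ (Nat.mul_le_mul hQ d2)
  have m0 := (card_le_card hM).trans (card_union_le _ _)
  have m1 := Nat.pow_le_pow_left m0 2
  refine m1.trans ?_
  have m2 : ((Eq0 (univ.erase a) W Z k).card + (Eq0 (univ.erase a) W Z (n - 3 - k)).card) ^ 2 ≤
      2 * (Eq0 (univ.erase a) W Z k).card ^ 2 +
      2 * (Eq0 (univ.erase a) W Z (n - 3 - k)).card ^ 2 := by
    zify
    nlinarith [sq_nonneg (((Eq0 (univ.erase a) W Z k).card : ℤ) -
      ((Eq0 (univ.erase a) W Z (n - 3 - k)).card : ℤ))]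
  refine m2.trans ?_
  omega

/-- every ordered triangle of type `k` is a permutation of a sorted one -/
theorem sum_tau {x : Fin n × Fin 3 → ℝ} (z : Fin 3 → ℝ)
    (hz : ∀ a q, q ≠ a → dot z (df x a q) ≠ 0) (k : ℕ) :
    ∑ a : Fin n, (tau x k a).card ≤ 6 * (tri x z k).card := by
  have hne : ∀ a q, q ≠ a → ev z x q ≠ ev z x a := by
    intro a q h1 h2
    apply hz a q h1
    rw [dot_df, h2, sub_self]
  have hsw : ∀ b p q : Fin n, Ty x k b p q → Ty x k p b q := by
    intro b p q h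
    have h0 : ∀ r, dt x p b q r = -dt x b p q r := by
      intro r
      unfold dt det3 df
      ring
    have h1 : (univ.filter fun r => 0 < dt x p b q r) = univ.filter fun r => dt x b p q r < 0 := by
      apply filter_congr
      intro r _
      rw [h0]
      constructor <;> intro h <;> linarith
    have h2 : (univ.filter fun r => dt x p b q r < 0) = univ.filter fun r => 0 < dt x b p q r := by
      apply filter_congr
      intro r _
      rw [h0]
      constructor <;> intro h <;> linarith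
    unfold Ty at h ⊢
    rw [h1, h2]
    exact h.symm
  have hs2 : ∀ b p q : Fin n, Ty x k b p q → Ty x k b q p := fun b p q h => Ty_symm h
  set M := tri x z k with hM
  have hmem : ∀ b p q : Fin n, ev z x p < ev z x b → ev z x b < ev z x q → Ty x k b p q →
      (b, p, q) ∈ M := fun b p q h1 h2 h3 => mem_filter.2 ⟨mem_univ _, h1, h2, h3⟩
  have h1 : (univ : Finset (Fin n)).sigma (fun a => tau x k a) ⊆
      ((M.image fun c => (⟨c.1, (c.2.1, c.2.2)⟩ : Σ _ : Fin n, Fin n × Fin n)) ∪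
      ((M.image fun c => ⟨c.1, (c.2.2, c.2.1)⟩) ∪ (M.image fun c => ⟨c.2.1, (c.1, c.2.2)⟩))) ∪
      ((M.image fun c => ⟨c.2.1, (c.2.2, c.1)⟩) ∪
      ((M.image fun c => ⟨c.2.2, (c.1, c.2.1)⟩) ∪ (M.image fun c => ⟨c.2.2, (c.2.1, c.1)⟩))) := by
    rintro ⟨a, q, r⟩ h
    rw [mem_sigma, tau, mem_filter, mem_product] at h
    obtain ⟨_, ⟨hq, hr⟩, hqr, hT⟩ := h
    dsimp only at hq hr hqr hT
    have n1 := hne a q (ne_of_mem_erase hq)
    have n2 := hne a r (ne_of_mem_erase hr)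
    have n3 := hne r q hqr
    simp only [mem_union, mem_image]
    rcases lt_or_gt_of_ne n1 with h1 | h1 <;> rcases lt_or_gt_of_ne n2 with h2 | h2 <;>
      rcases lt_or_gt_of_ne n3 with h3 | h3
    · -- q < r < a
      exact Or.inr (Or.inr (Or.inr ⟨(r, q, a), hmem _ _ _ h3 h2
        (hs2 _ _ _ (hsw _ _ _ (hs2 _ _ _ hT))), rfl⟩))
    · -- r < q < a
      exact Or.inr (Or.inr (Or.inl ⟨(q, r, a), hmem _ _ _ h3 h1
        (hs2 _ _ _ (hsw _ _ _ hT)), rfl⟩))
    · -- q < a < r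
      exact Or.inl (Or.inl ⟨(a, q, r), hmem _ _ _ h1 h2 hT, rfl⟩)
    · exact absurd (h1.trans h2) (lt_asymm h3)
    · exact absurd (h2.trans h1) (lt_asymm h3)
    · -- r < a < q
      exact Or.inl (Or.inr (Or.inl ⟨(a, r, q), hmem _ _ _ h2 h1 (hs2 _ _ _ hT), rfl⟩))
    · -- a < q < r
      exact Or.inl (Or.inr (Or.inr ⟨(q, a, r), hmem _ _ _ h1 h3 (hsw _ _ _ hT), rfl⟩))
    · -- a < r < q
      exact Or.inr (Or.inl ⟨(r, a, q), hmem _ _ _ h2 h3 (hsw _ _ _ (hs2 _ _ _ hT)), rfl⟩)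
  have h2 := card_le_card h1
  rw [card_sigma] at h2
  have i1 : ∀ f : Fin n × Fin n × Fin n → (Σ _ : Fin n, Fin n × Fin n),
      (M.image f).card ≤ M.card := fun f => card_image_le
  refine h2.trans ((card_union_le _ _).trans ?_)
  refine (Nat.add_le_add ((card_union_le _ _).trans (Nat.add_le_add (i1 _)
    ((card_union_le _ _).trans (Nat.add_le_add (i1 _) (i1 _)))))
    ((card_union_le _ _).trans (Nat.add_le_add (i1 _)
    ((card_union_le _ _).trans (Nat.add_le_add (i1 _) (i1 _)))))).trans ?_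
  omega

/-- the number of triangles of type `k` through the depths of the lines -/
theorem tri_sq_le {x : Fin n × Fin 3 → ℝ} (hx : GenPos x) (hn : 4 ≤ n) (z : Fin 3 → ℝ)
    (hz : ∀ a q, q ≠ a → dot z (df x a q) ≠ 0)
    (hz4 : ∀ a p q r s, p ≠ a → q ≠ a → r ≠ a → s ≠ a → p ≠ q → p ≠ r → p ≠ s → q ≠ r → q ≠ s →
      r ≠ s → dt x a p r s * dot z (df x a q) - dt x a q r s * dot z (df x a p) ≠ 0) (k : ℕ)
    (Ed : Fin n → Fin n → Prop)
    (hEd : ∀ a p q, p ≠ a → q ≠ a → p ≠ q → Ty x k a p q → Ed p q)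
    (δ : Fin n → Fin n → ℕ) (hδ : ∀ p q, p ≠ q → ∃ u, dot u (df x p q) = 0 ∧
      (univ.filter fun r => 0 ≤ dot u (df x p r)).card ≤ δ p q) :
    (tri x z k).card ^ 2 ≤ 1536 * n ^ 2 *
      ∑ u ∈ univ.filter (fun u : Fin n × Fin n => u.1 ≠ u.2 ∧ Ed u.1 u.2), δ u.1 u.2 +
      768 * n ^ 2 * (tri x z k).card + 4 * n ^ 4 := by
  set Δ := ∑ u ∈ univ.filter (fun u : Fin n × Fin n => u.1 ≠ u.2 ∧ Ed u.1 u.2), δ u.1 u.2 with hΔ
  by_cases hk : k + 3 ≤ n
  · have h1 : (tri x z k).card ^ 2 ≤ n * ∑ b : Fin n, mid x z k b ^ 2 := by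
      rw [tri_card]
      have := sq_sum_le_card_mul_sum_sq (s := (univ : Finset (Fin n))) (f := fun b => mid x z k b)
      rw [card_univ, Fintype.card_fin] at this
      exact this
    have h2 : ∑ b : Fin n, mid x z k b ^ 2 ≤ ∑ b : Fin n, (32 * crs x k b +
        128 * (n * (tau x k b).card) + 4 * n ^ 2) :=
      sum_le_sum fun b _ => sum_oneA hx hn z b (hz b) (hz4 b) k hk
    have h3 : ∑ b : Fin n, (32 * crs x k b + 128 * (n * (tau x k b).card) + 4 * n ^ 2) =
        32 * ∑ b : Fin n, crs x k b + 128 * (n * ∑ b : Fin n, (tau x k b).card) + 4 * n ^ 3 := by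
      rw [sum_add_distrib, sum_add_distrib, mul_sum, mul_sum, mul_sum, sum_const, card_univ,
        Fintype.card_fin, smul_eq_mul]
      ring
    have h4 := sum_crs hx hn k Ed hEd δ hδ
    have h5 := sum_tau z hz k
    rw [h3] at h2
    calc (tri x z k).card ^ 2 ≤ n * ∑ b : Fin n, mid x z k b ^ 2 := h1
      _ ≤ n * (32 * ∑ b : Fin n, crs x k b + 128 * (n * ∑ b : Fin n, (tau x k b).card) +
          4 * n ^ 3) := Nat.mul_le_mul_left _ h2
      _ ≤ n * (32 * (48 * n * Δ) + 128 * (n * (6 * (tri x z k).card)) + 4 * n ^ 3) := by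
          apply Nat.mul_le_mul_left
          apply Nat.add_le_add_right
          exact Nat.add_le_add (Nat.mul_le_mul_left _ h4)
            (Nat.mul_le_mul_left _ (Nat.mul_le_mul_left _ h5))
      _ = _ := by ring
  · have h0 : tri x z k = ∅ := by
      unfold tri
      rw [filter_eq_empty_iff]
      rintro ⟨b, p, q⟩ _ ⟨h1, h2, h3⟩
      dsimp only at h1 h2 h3
      have hpb : p ≠ b := by
        rintro rfl
        exact lt_irrefl _ h1
      have hqb : q ≠ b := by
        rintro rfl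
        exact lt_irrefl _ h2
      have hpq : p ≠ q := by
        rintro rfl
        exact lt_asymm h1 h2
      have h4 := count_three hx hpb hqb hpq
      rcases h3 with h3 | h3 <;> omega
    rw [h0]
    simp

end Pool.Agent.HpE
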