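import Pool.Agent.HpE.PierceE
import Pool.Agent.HpE.Level

/-!
# The sum of the squares through the number of edges
-/

namespace Pool.Agent.HpE

open Finset Classical SmH HpD

variable {n : ℕ}

theorem pI_sum_gen {x : Fin n × Fin 3 → ℝ} (k : ℕ) (Ed : Fin n → Fin n → Prop)
    (β : Fin n → Fin n → ℕ) (hβ : ∀ p q, p ≠ q → Ed p q →
      (univ.filter fun c : Fin n × Fin n × Fin n =>
        Ty x k c.1 c.2.1 c.2.2 ∧ Prc x p q c.1 c.2.1 c.2.2).card ≤ β p q) :
    ∑ a : Fin n, ∑ u : Fin n × Fin n, ∑ v : Fin n × Fin n, pI x k Ed a u v ≤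
      ∑ u ∈ univ.filter (fun u : Fin n × Fin n => u.1 ≠ u.2 ∧ Ed u.1 u.2), β u.1 u.2 := by
  rw [sum_comm]
  have h1 : ∀ u : Fin n × Fin n, ∑ a : Fin n, ∑ v : Fin n × Fin n, pI x k Ed a u v ≤
      if u.1 ≠ u.2 ∧ Ed u.1 u.2 then β u.1 u.2 else 0 := by
    intro u
    by_cases hu : ¬ (u.1 ≠ u.2 ∧ Ed u.1 u.2)
    · have h2 : ∑ a : Fin n, ∑ v : Fin n × Fin n, pI x k Ed a u v = 0 := by
        refine sum_eq_zero fun a _ => sum_eq_zero fun v _ => ?_
        unfold pI
        rw [if_neg]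
        exact fun h => hu h.2.1
      rw [h2]
      exact Nat.zero_le _
    · rw [not_not] at hu
      rw [if_pos hu]
      refine le_trans ?_ (hβ u.1 u.2 hu.1 hu.2)
      rw [card_filter, Fintype.sum_prod_type]
      refine le_of_eq ?_
      refine sum_congr rfl fun a _ => sum_congr rfl fun v _ => ?_
      unfold pI
      refine if_congr ?_ rfl rfl
      exact ⟨fun h => ⟨h.1, h.2.2⟩, fun h => ⟨h.1, hu, h.2⟩⟩
  refine (sum_le_sum fun u _ => h1 u).trans ?_
  rw [← sum_filter]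

theorem sum_crs_gen {x : Fin n × Fin 3 → ℝ} (k : ℕ) (Ed : Fin n → Fin n → Prop)
    (hEd : ∀ a p q, p ≠ a → q ≠ a → p ≠ q → Ty x k a p q → Ed p q)
    (β : Fin n → Fin n → ℕ) (hβ : ∀ p q, p ≠ q → Ed p q →
      (univ.filter fun c : Fin n × Fin n × Fin n =>
        Ty x k c.1 c.2.1 c.2.2 ∧ Prc x p q c.1 c.2.1 c.2.2).card ≤ β p q) :
    ∑ a : Fin n, crs x k a ≤
      2 * ∑ u ∈ univ.filter (fun u : Fin n × Fin n => u.1 ≠ u.2 ∧ Ed u.1 u.2), β u.1 u.2 := by
  have h1 : ∀ a : Fin n, crs x k a ≤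
      ∑ u : Fin n × Fin n, ∑ v : Fin n × Fin n, pI x k Ed a u v +
        ∑ u : Fin n × Fin n, ∑ v : Fin n × Fin n, pI x k Ed a u v := by
    intro a
    have h2 : ∑ u : Fin n × Fin n, ∑ v : Fin n × Fin n, pI x k Ed a u v =
        ∑ v : Fin n × Fin n, ∑ u : Fin n × Fin n, pI x k Ed a u v := sum_comm
    have h3 : ∑ u : Fin n × Fin n, ∑ v : Fin n × Fin n, pI x k Ed a u v +
        ∑ u : Fin n × Fin n, ∑ v : Fin n × Fin n, pI x k Ed a u v =
        ∑ c : (Fin n × Fin n) × (Fin n × Fin n),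
          (pI x k Ed a c.1 c.2 + pI x k Ed a c.2 c.1) := by
      have e1 : ∑ c : (Fin n × Fin n) × (Fin n × Fin n), pI x k Ed a c.1 c.2 =
          ∑ u : Fin n × Fin n, ∑ v : Fin n × Fin n, pI x k Ed a u v :=
        Fintype.sum_prod_type (fun c : (Fin n × Fin n) × (Fin n × Fin n) => pI x k Ed a c.1 c.2)
      have e2 : ∑ c : (Fin n × Fin n) × (Fin n × Fin n), pI x k Ed a c.2 c.1 =
          ∑ v : Fin n × Fin n, ∑ u : Fin n × Fin n, pI x k Ed a u v :=
        Fintype.sum_prod_type (fun c : (Fin n × Fin n) × (Fin n × Fin n) => pI x k Ed a c.2 c.1)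
      rw [sum_add_distrib, e1, e2, ← h2]
    rw [h3, crs, card_filter]
    refine sum_le_sum fun c _ => ?_
    split_ifs with hc
    · obtain ⟨t1, t2, t3, t4, t5 | t5⟩ := hc
      · have : pI x k Ed a c.1 c.2 = 1 := if_pos ⟨t2, ⟨t3, hEd a _ _ (prc_ne t5).1
          (prc_ne t5).2 t3 t1⟩, t5⟩
        rw [this]
        exact Nat.le_add_right _ _
      · have : pI x k Ed a c.2 c.1 = 1 := if_pos ⟨t1, ⟨t4, hEd a _ _ (prc_ne t5).1
          (prc_ne t5).2 t4 t2⟩, t5⟩
        rw [this]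
        exact Nat.le_add_left _ _
    · exact Nat.zero_le _
  refine (sum_le_sum fun a _ => h1 a).trans ?_
  rw [sum_add_distrib, ← two_mul]
  exact Nat.mul_le_mul_left 2 (pI_sum_gen k Ed β hβ)

/-- the number of triangles of type `k` through the numbers of triangles met by their edges -/
theorem tri_sq_gen {x : Fin n × Fin 3 → ℝ} (hx : GenPos x) (hn : 4 ≤ n) (z : Fin 3 → ℝ)
    (hz : ∀ a q, q ≠ a → dot z (df x a q) ≠ 0)
    (hz4 : ∀ a p q r s, p ≠ a → q ≠ a → r ≠ a → s ≠ a → p ≠ q → p ≠ r → p ≠ s → q ≠ r → q ≠ s →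
      r ≠ s → dt x a p r s * dot z (df x a q) - dt x a q r s * dot z (df x a p) ≠ 0) (k : ℕ)
    (Ed : Fin n → Fin n → Prop)
    (hEd : ∀ a p q, p ≠ a → q ≠ a → p ≠ q → Ty x k a p q → Ed p q)
    (β : Fin n → Fin n → ℕ) (hβ : ∀ p q, p ≠ q → Ed p q →
      (univ.filter fun c : Fin n × Fin n × Fin n =>
        Ty x k c.1 c.2.1 c.2.2 ∧ Prc x p q c.1 c.2.1 c.2.2).card ≤ β p q) :
    (tri x z k).card ^ 2 ≤ 64 * n *
      ∑ u ∈ univ.filter (fun u : Fin n × Fin n => u.1 ≠ u.2 ∧ Ed u.1 u.2), β u.1 u.2 +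
      768 * n ^ 2 * (tri x z k).card + 4 * n ^ 4 := by
  set Δ := ∑ u ∈ univ.filter (fun u : Fin n × Fin n => u.1 ≠ u.2 ∧ Ed u.1 u.2), β u.1 u.2
    with hΔ
  by_cases hk : k + 3 ≤ n
  · have h1 : (tri x z k).card ^ 2 ≤ n * ∑ b : Fin n, mid x z k b ^ 2 := by
      rw [tri_card]
      have := sq_sum_le_card_mul_sum_sq (s := (univ : Finset (Fin n))) (f := fun b => mid x z k b)
      rw [card_univ, Fintype.card_fin] at this
      exact this
    have h2 : ∑ b : Fin n, mid x z k b ^ 2 ≤ ∑ b : Fin n, (32 * crs x k b +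
        128 * (n * (tau x k b).card) + 4 * n ^ 2) :=
      sum_le_sum fun b _ => sum_oneA hx hn z b (hz b) (hz4 b) k hk
    have h3 : ∑ b : Fin n, (32 * crs x k b + 128 * (n * (tau x k b).card) + 4 * n ^ 2) =
        32 * ∑ b : Fin n, crs x k b + 128 * (n * ∑ b : Fin n, (tau x k b).card) + 4 * n ^ 3 := by
      rw [sum_add_distrib, sum_add_distrib, mul_sum, mul_sum, mul_sum, sum_const, card_univ,
        Fintype.card_fin, smul_eq_mul]
      ring
    have h4 := sum_crs_gen k Ed hEd β hβ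
    have h5 := sum_tau z hz k
    rw [h3] at h2
    calc (tri x z k).card ^ 2 ≤ n * ∑ b : Fin n, mid x z k b ^ 2 := h1
      _ ≤ n * (32 * ∑ b : Fin n, crs x k b + 128 * (n * ∑ b : Fin n, (tau x k b).card) +
          4 * n ^ 3) := Nat.mul_le_mul_left _ h2
      _ ≤ n * (32 * (2 * Δ) + 128 * (n * (6 * (tri x z k).card)) + 4 * n ^ 3) := by
          apply Nat.mul_le_mul_left
          apply Nat.add_le_add_right
          exact Nat.add_le_add (Nat.mul_le_mul_left _ h4)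
            (Nat.mul_le_mul_left _ (Nat.mul_le_mul_left _ h5))
      _ = _ := by ring
  · have h0 : tri x z k = ∅ := by
      unfold tri
      rw [filter_eq_empty_iff]
      rintro ⟨b, p, q⟩ _ ⟨h1, h2, h3⟩
      dsimp only at h1 h2 h3
      have hpb : p ≠ b := by
        rintro rfl
        exact lt_irrefl _ h1
      have hqb : q ≠ b := by
        rintro rfl
        exact lt_irrefl _ h2
      have hpq : p ≠ q := by
        rintro rfl
        exact lt_asymm h1 h2
      have h4 := count_three hx hpb hqb hpq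
      rcases h3 with h3 | h3 <;> omega
    rw [h0]
    simp

/-- twice the number of unordered edges is the number of ordered ones -/
theorem two_edges (Ed : Fin n → Fin n → Prop) (hEs : ∀ r s, Ed r s → Ed s r) :
    (univ.filter fun u : Fin n × Fin n => u.1 ≠ u.2 ∧ Ed u.1 u.2).card ≤
      2 * (univ.filter fun c : Fin n × Fin n => c.1 < c.2 ∧ Ed c.1 c.2).card := by
  have h1 : (univ.filter fun u : Fin n × Fin n => u.1 ≠ u.2 ∧ Ed u.1 u.2) ⊆
      (univ.filter fun c : Fin n × Fin n => c.1 < c.2 ∧ Ed c.1 c.2) ∪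
      (univ.filter fun c : Fin n × Fin n => c.1 < c.2 ∧ Ed c.1 c.2).image
        fun c => (c.2, c.1) := by
    rintro ⟨p, q⟩ h
    obtain ⟨_, h2, h3⟩ := mem_filter.1 h
    rw [mem_union, mem_image]
    rcases lt_or_gt_of_ne h2 with h4 | h4
    · exact Or.inl (mem_filter.2 ⟨mem_univ _, h4, h3⟩)
    · exact Or.inr ⟨(q, p), mem_filter.2 ⟨mem_univ _, h4, hEs _ _ h3⟩, rfl⟩
  calc _ ≤ _ := card_le_card h1
    _ ≤ _ := card_union_le _ _
    _ ≤ _ := Nat.add_le_add_left card_image_le _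
    _ = _ := by ring

theorem tri_sq_edges {x : Fin n × Fin 3 → ℝ} (hx : GenPos x) (hn : 4 ≤ n) (z : Fin 3 → ℝ)
    (hz : ∀ a q, q ≠ a → dot z (df x a q) ≠ 0)
    (hz4 : ∀ a p q r s, p ≠ a → q ≠ a → r ≠ a → s ≠ a → p ≠ q → p ≠ r → p ≠ s → q ≠ r → q ≠ s →
      r ≠ s → dt x a p r s * dot z (df x a q) - dt x a q r s * dot z (df x a p) ≠ 0) (k : ℕ)
    (Ed : Fin n → Fin n → Prop)
    (hEd : ∀ a p q, p ≠ a → q ≠ a → p ≠ q → Ty x k a p q → Ed p q)
    (hEs : ∀ r s, Ed r s → Ed s r) :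
    (tri x z k).card ^ 2 ≤ 3072 * n *
      (univ.filter fun c : Fin n × Fin n => c.1 < c.2 ∧ Ed c.1 c.2).card ^ 2 +
      768 * n ^ 2 * (tri x z k).card + 4 * n ^ 4 := by
  set e := (univ.filter fun c : Fin n × Fin n => c.1 < c.2 ∧ Ed c.1 c.2).card with he
  have hsw : ∀ r s t : Fin n, Ty x k r s t → Ty x k s t r := by
    intro b p q h
    have h0 : ∀ r, dt x p b q r = -dt x b p q r := by
      intro r
      unfold dt det3 df
      ring
    have h1 : (univ.filter fun r => 0 < dt x p b q r) = univ.filter fun r => dt x b p q r < 0 := by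
      apply filter_congr
      intro r _
      rw [h0]
      constructor <;> intro h <;> linarith
    have h2 : (univ.filter fun r => dt x p b q r < 0) = univ.filter fun r => 0 < dt x b p q r := by
      apply filter_congr
      intro r _
      rw [h0]
      constructor <;> intro h <;> linarith
    apply Ty_symm
    unfold Ty at h ⊢
    rw [h1, h2]
    exact h.symm
  have h1 := tri_sq_gen hx hn z hz hz4 k Ed hEd (fun _ _ => 24 * e) (by
    intro p q hpq _
    exact PE.pierce_card_edges hx hn hpq k Ed (fun r s t h1 h2 h3 h4 =>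
      hEd t r s h2 h3 h1 (hsw _ _ _ (hsw _ _ _ h4))) hEs)
  refine h1.trans ?_
  rw [sum_const, smul_eq_mul]
  have h2 := two_edges Ed hEs
  have h3 : 64 * n * ((univ.filter fun u : Fin n × Fin n => u.1 ≠ u.2 ∧ Ed u.1 u.2).card *
      (24 * e)) ≤ 3072 * n * e ^ 2 := by
    calc _ ≤ 64 * n * (2 * e * (24 * e)) :=
          Nat.mul_le_mul_left _ (Nat.mul_le_mul_right _ h2)
      _ = _ := by ring
  omega

end Pool.Agent.HpE
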